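import Pool.Agent.TH970.Kr.L2

set_option autoImplicit false

/-!
# Planks in a ball: volume of the intersection
-/

open MeasureTheory Set Filter Topology ENNReal NNReal Metric

namespace Pool.Agent.NH22.RS

open Pool.Agent.H742R2.Kk Pool.Agent.W767.Kc Pool.Agent.W767.Sd Pool.Agent.TH970.Kr

/-- The volume of the set where three linear functions are close to given values. -/
theorem volume_slab' (b : OrthonormalBasis (Fin 3) ℝ (E 3)) {A B D c0 c1 c2 k0 k1 k2 : ℝ}
    (hA : 0 ≤ A) (hB : 0 ≤ B) (hc : c2 ≠ 0) :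
    volume {y : E 3 | |inner ℝ y (b 0) - k0| ≤ A ∧ |inner ℝ y (b 1) - k1| ≤ B ∧
      |c0 * inner ℝ y (b 0) + c1 * inner ℝ y (b 1) + c2 * inner ℝ y (b 2) - k2| ≤ D} ≤
    ENNReal.ofReal (8 * A * B * D / |c2|) := by
  set k : ℝ := (k2 - c0 * k0 - c1 * k1) / c2 with hk
  set z : E 3 := k0 • b 0 + k1 • b 1 + k • b 2 with hz
  have hb : ∀ i j, (inner ℝ (b i) (b j) : ℝ) = if i = j then 1 else 0 :=
    orthonormal_iff_ite.1 b.orthonormal
  have z0 : (inner ℝ z (b 0) : ℝ) = k0 := by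
    rw [hz]; simp only [inner_add_left, real_inner_smul_left, hb]; simp
  have z1 : (inner ℝ z (b 1) : ℝ) = k1 := by
    rw [hz]; simp only [inner_add_left, real_inner_smul_left, hb]; simp
  have z2 : (inner ℝ z (b 2) : ℝ) = k := by
    rw [hz]; simp only [inner_add_left, real_inner_smul_left, hb]; simp
  have hk' : c0 * k0 + c1 * k1 + c2 * k = k2 := by
    rw [hk]; field_simp; ring
  have h := volume_slab b (A := A) (B := B) (D := D) (c0 := c0) (c1 := c1) (c2 := c2) hA hB hc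
  refine le_trans (le_of_eq ?_) h
  rw [← measure_preimage_add_right volume z]
  congr 1
  ext y
  simp only [mem_preimage, mem_ofPred_eq, inner_add_left, z0, z1, z2]
  have e : c0 * (inner ℝ y (b 0) + k0) + c1 * (inner ℝ y (b 1) + k1) +
      c2 * (inner ℝ y (b 2) + k) - k2 = c0 * inner ℝ y (b 0) + c1 * inner ℝ y (b 1) +
      c2 * inner ℝ y (b 2) := by rw [← hk']; ring
  rw [e, add_sub_cancel_right, add_sub_cancel_right]

/-- The distance of the lines spanned by two unit vectors. -/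
noncomputable def ph (n n' : E 3) : ℝ := min ‖n - n'‖ ‖n + n'‖

theorem ph_nonneg (n n' : E 3) : 0 ≤ ph n n' := le_min (norm_nonneg _) (norm_nonneg _)

theorem ph_sq {b : OrthonormalBasis (Fin 3) ℝ (E 3)} {n' : E 3} (hn' : ‖n'‖ = 1) :
    ph (b 1) n' ^ 2 ≤ 2 * ((inner ℝ n' (b 0) : ℝ) ^ 2 + (inner ℝ n' (b 2) : ℝ) ^ 2) := by
  have h1 := norm_sq_coord b n'
  rw [hn'] at h1
  set p : ℝ := inner ℝ n' (b 0)
  set q : ℝ := inner ℝ n' (b 1) with hq
  set w : ℝ := inner ℝ n' (b 2)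
  have hm : ‖b 1 - n'‖ ^ 2 = 2 - 2 * q := by
    rw [norm_sub_sq_real, b.norm_eq_one, hn', real_inner_comm]; ring
  have hp : ‖b 1 + n'‖ ^ 2 = 2 + 2 * q := by
    rw [norm_add_sq_real, b.norm_eq_one, hn', real_inner_comm]; ring
  have hq1 : q ^ 2 ≤ 1 := by nlinarith [sq_nonneg p, sq_nonneg w]
  have hq2 : -1 ≤ q ∧ q ≤ 1 := by constructor <;> nlinarith
  rcases le_total 0 q with h | h
  · have h2 : ph (b 1) n' ≤ ‖b 1 - n'‖ := min_le_left _ _
    have h3 : ph (b 1) n' ^ 2 ≤ 2 - 2 * q := by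
      rw [← hm]; exact pow_le_pow_left₀ (ph_nonneg _ _) h2 2
    nlinarith
  · have h2 : ph (b 1) n' ≤ ‖b 1 + n'‖ := min_le_right _ _
    have h3 : ph (b 1) n' ^ 2 ≤ 2 + 2 * q := by
      rw [← hp]; exact pow_le_pow_left₀ (ph_nonneg _ _) h2 2
    nlinarith

/-- The volume of the intersection of a plank with a slab in a ball. -/
theorem pv {ρ d L κ q : ℝ} (hρ : 0 < ρ) (hd : 0 < d) (hL : 0 < L) (hκ : 0 < κ)
    {c n' : E 3} (b : OrthonormalBasis (Fin 3) ℝ (E 3)) (hn' : ‖n'‖ = 1) (hq : 0 < q)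
    (hqφ : q ≤ κ * (min L ρ * ph (b 1) n' + d)) :
    volume {y : E 3 | ‖y - c‖ ≤ ρ ∧ |(inner ℝ y (b 1) : ℝ)| ≤ d ∧ |(inner ℝ y (b 2) : ℝ)| ≤ L ∧
      |(inner ℝ y n' : ℝ)| ≤ d} ≤ ENNReal.ofReal (24 * κ * (ρ * d ^ 2 * min L ρ) / q) := by
  set S := {y : E 3 | ‖y - c‖ ≤ ρ ∧ |(inner ℝ y (b 1) : ℝ)| ≤ d ∧ |(inner ℝ y (b 2) : ℝ)| ≤ L ∧
      |(inner ℝ y n' : ℝ)| ≤ d} with hS
  set L' := min L ρ with hL'
  have hL'0 : 0 < L' := lt_min hL hρ
  have hL'ρ : L' ≤ ρ := min_le_right _ _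
  set φ := ph (b 1) n' with hφ
  have hφ0 : 0 ≤ φ := ph_nonneg _ _
  set p : ℝ := inner ℝ n' (b 0) with hp
  set m : ℝ := inner ℝ n' (b 1) with hm
  set w : ℝ := inner ℝ n' (b 2) with hw
  have hφ2 : φ ^ 2 ≤ 2 * (p ^ 2 + w ^ 2) := ph_sq hn'
  have hyn : ∀ y : E 3, (inner ℝ y n' : ℝ) = inner ℝ y (b 0) * p + inner ℝ y (b 1) * m +
      inner ℝ y (b 2) * w := fun y => (inner_coord b y n').symm
  have hcen : ∀ y ∈ S, ∀ i, |(inner ℝ y (b i) : ℝ) - inner ℝ c (b i)| ≤ ρ := by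
    intro y hy i
    rw [← inner_sub_left]
    refine (abs_real_inner_le_norm _ _).trans ?_
    rw [b.norm_eq_one, mul_one]
    exact hy.1
  -- the coordinate `2`
  have hk : ∃ k : ℝ, ∀ y ∈ S, |(inner ℝ y (b 2) : ℝ) - k| ≤ L' := by
    rcases le_total L ρ with h | h
    · refine ⟨0, fun y hy => ?_⟩
      rw [hL', min_eq_left h, sub_zero]; exact hy.2.2.1
    · refine ⟨inner ℝ c (b 2), fun y hy => ?_⟩
      rw [hL', min_eq_right h]; exact hcen y hy 2
  obtain ⟨k, hk⟩ := hk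
  have v1 : volume S ≤ ENNReal.ofReal (8 * ρ * d * L') := by
    refine (measure_mono ?_).trans ((volume_slab' b (A := ρ) (B := d) (D := L') (c0 := 0) (c1 := 0)
      (c2 := 1) (k0 := inner ℝ c (b 0)) (k1 := 0) (k2 := k) hρ.le hd.le one_ne_zero).trans ?_)
    · intro y hy
      refine ⟨hcen y hy 0, by simpa using hy.2.1, ?_⟩
      have := hk y hy
      simpa using this
    · simp
  have v2 : w ≠ 0 → volume S ≤ ENNReal.ofReal (8 * ρ * d * d / |w|) := by
    intro h
    refine (measure_mono ?_).trans (volume_slab' b (A := ρ) (B := d) (D := d) (c0 := p) (c1 := m)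
      (c2 := w) (k0 := inner ℝ c (b 0)) (k1 := 0) (k2 := 0) hρ.le hd.le h)
    intro y hy
    refine ⟨hcen y hy 0, by simpa using hy.2.1, ?_⟩
    have h5 := hy.2.2.2
    rw [hyn] at h5
    have e1 : p * inner ℝ y (b 0) + m * inner ℝ y (b 1) + w * inner ℝ y (b 2) - 0 =
      inner ℝ y (b 0) * p + inner ℝ y (b 1) * m + inner ℝ y (b 2) * w := by ring
    rw [e1]; exact h5
  have v3 : p ≠ 0 → volume S ≤ ENNReal.ofReal (8 * L' * d * d / |p|) := by
    intro h
    have e0 : (b.reindex (Equiv.swap 0 2)) 0 = b 2 := by simp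
    have e1 : (b.reindex (Equiv.swap 0 2)) 1 = b 1 := by simp [Equiv.swap_apply_of_ne_of_ne]
    have e2 : (b.reindex (Equiv.swap 0 2)) 2 = b 0 := by simp
    refine (measure_mono ?_).trans (volume_slab' (b.reindex (Equiv.swap 0 2)) (A := L') (B := d)
      (D := d) (c0 := w) (c1 := m) (c2 := p) (k0 := k) (k1 := 0) (k2 := 0) hL'0.le hd.le h)
    intro y hy
    rw [mem_ofPred_eq, e0, e1, e2]
    refine ⟨hk y hy, by simpa using hy.2.1, ?_⟩
    have h5 := hy.2.2.2
    rw [hyn] at h5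
    have e1 : w * inner ℝ y (b 2) + m * inner ℝ y (b 1) + p * inner ℝ y (b 0) - 0 =
      inner ℝ y (b 0) * p + inner ℝ y (b 1) * m + inner ℝ y (b 2) * w := by ring
    rw [e1]; exact h5
  have triv : q ≤ 3 * κ * d → volume S ≤ ENNReal.ofReal (24 * κ * (ρ * d ^ 2 * L') / q) := by
    intro h
    refine v1.trans (ENNReal.ofReal_le_ofReal ?_)
    rw [le_div_iff₀ hq]
    calc 8 * ρ * d * L' * q ≤ 8 * ρ * d * L' * (3 * κ * d) := by gcongr
      _ = _ := by ring
  rcases le_total |p| |w| with h | h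
  · have hφw : φ ≤ 2 * |w| := by
      have h2 : φ ^ 2 ≤ (2 * |w|) ^ 2 := by
        have e1 := sq_abs p
        have e2 := sq_abs w
        have : |p| ^ 2 ≤ |w| ^ 2 := pow_le_pow_left₀ (abs_nonneg _) h 2
        nlinarith
      exact (pow_le_pow_iff_left₀ hφ0 (by positivity) (by norm_num)).1 h2
    rcases le_or_gt (L' * |w|) d with h3 | h3
    · apply triv
      refine hqφ.trans ?_
      have : L' * φ ≤ L' * (2 * |w|) := by gcongr
      nlinarith
    · have hw0 : 0 < |w| := by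
        rcases (abs_nonneg w).eq_or_lt with h4 | h4
        · rw [← h4, mul_zero] at h3; linarith
        · exact h4
      refine (v2 (abs_pos.1 hw0)).trans (ENNReal.ofReal_le_ofReal ?_)
      rw [div_le_div_iff₀ hw0 hq]
      have h5 : q ≤ κ * (3 * (L' * |w|)) := by
        refine hqφ.trans ?_
        have : L' * φ ≤ L' * (2 * |w|) := by gcongr
        gcongr
        linarith
      calc 8 * ρ * d * d * q ≤ 8 * ρ * d * d * (κ * (3 * (L' * |w|))) := by gcongr
        _ = _ := by ring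
  · have hφw : φ ≤ 2 * |p| := by
      have h2 : φ ^ 2 ≤ (2 * |p|) ^ 2 := by
        have e1 := sq_abs p
        have e2 := sq_abs w
        have : |w| ^ 2 ≤ |p| ^ 2 := pow_le_pow_left₀ (abs_nonneg _) h 2
        nlinarith
      exact (pow_le_pow_iff_left₀ hφ0 (by positivity) (by norm_num)).1 h2
    rcases le_or_gt (ρ * |p|) d with h3 | h3
    · apply triv
      refine hqφ.trans ?_
      have : L' * φ ≤ ρ * (2 * |p|) := by gcongr
      nlinarith
    · have hw0 : 0 < |p| := by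
        rcases (abs_nonneg p).eq_or_lt with h4 | h4
        · rw [← h4, mul_zero] at h3; linarith
        · exact h4
      refine (v3 (abs_pos.1 hw0)).trans (ENNReal.ofReal_le_ofReal ?_)
      rw [div_le_div_iff₀ hw0 hq]
      have h5 : q ≤ κ * (3 * (ρ * |p|)) := by
        refine hqφ.trans ?_
        have : L' * φ ≤ ρ * (2 * |p|) := by gcongr
        gcongr
        linarith
      calc 8 * L' * d * d * q ≤ 8 * L' * d * d * (κ * (3 * (ρ * |p|))) := by gcongr
        _ = _ := by ring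

end Pool.Agent.NH22.RS
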