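import Pool.Agent.NH22.RS.A

set_option autoImplicit false

/-!
# The quadratic estimate for families of planks, in general form
-/

open MeasureTheory Set Filter Topology ENNReal NNReal Metric

namespace Pool.Agent.NH22.RS

open Pool.Agent.H742R2.Kk Pool.Agent.W767.Kc Pool.Agent.W767.Sd Pool.Agent.TH970.Kr

theorem log_intM {r d M : ℝ} (hr : 0 < r) (hd : 0 < d) (hM : 0 < M) :
    ∫⁻ t in Icc (-M) M, ENNReal.ofReal (1 / (r * |t| + d)) ≤
      ENNReal.ofReal (2 / r * Real.log (1 + r * M / d)) := by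
  have h := PlAux.log_int (d / r) M (by positivity) hM
  have e1 : ∀ t : ℝ, ENNReal.ofReal (1 / (r * |t| + d)) =
      ENNReal.ofReal (1 / (4 * r)) * ENNReal.ofReal (4 / (d / r + |t|)) := by
    intro t
    rw [← ENNReal.ofReal_mul (by positivity)]
    congr 1
    have h1 : 0 < r * |t| + d := by positivity
    have h2 : 0 < d / r + |t| := by positivity
    field_simp
    ring
  simp_rw [e1]
  rw [lintegral_const_mul' _ _ ENNReal.ofReal_ne_top]
  calc ENNReal.ofReal (1 / (4 * r)) * ∫⁻ t in Icc (-M) M, ENNReal.ofReal (4 / (d / r + |t|))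
      ≤ ENNReal.ofReal (1 / (4 * r)) *
        ENNReal.ofReal (8 * Real.log ((d / r + M) / (d / r))) := by gcongr
    _ = _ := by
        rw [← ENNReal.ofReal_mul (by positivity)]
        congr 1
        have e2 : (d / r + M) / (d / r) = 1 + r * M / d := by field_simp
        rw [e2]
        field_simp
        ring

/-- The integral of the kernel over all directions. -/
theorem dir_int2 {r d c c2 : ℝ} (hr : 0 < r) (hd : 0 < d) (hc : 0 ≤ c) (hc2 : 0 < c2)
    (b : OrthonormalBasis (Fin 3) ℝ (E 3)) {kf : E 3 → ℝ≥0∞}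
    (hk : ∀ x : E 3, kf x ≠ 0 → |(inner ℝ (‖x‖⁻¹ • x) (b 0) : ℝ)| ≤ c ∧
      |(inner ℝ (‖x‖⁻¹ • x) (b 1) : ℝ)| ≤ c2)
    (hk2 : ∀ x : E 3, kf x ≤ ENNReal.ofReal (1 / (r * |inner ℝ (‖x‖⁻¹ • x) (b 1)| + d))) :
    ∫⁻ x in closedBall (0 : E 3) 1, kf x ≤
      ENNReal.ofReal (8 * c / r * Real.log (1 + r * c2 / d)) := by
  set A : ℝ → ℝ≥0∞ := (Icc (-c) c).indicator 1 with hA
  set B : ℝ → ℝ≥0∞ := (Icc (-c2) c2).indicator
    (fun t => ENNReal.ofReal (1 / (r * |t| + d))) with hB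
  set C : ℝ → ℝ≥0∞ := (Icc (-1:ℝ) 1).indicator 1 with hC
  have hAm : Measurable A := measurable_one.indicator measurableSet_Icc
  have hBm : Measurable B := by
    apply Measurable.indicator _ measurableSet_Icc
    apply ENNReal.measurable_ofReal.comp
    fun_prop
  have hCm : Measurable C := measurable_one.indicator measurableSet_Icc
  set F : ℝ → ℝ → ℝ → ℝ≥0∞ := fun s t u => A s * (B t * C u) with hF
  have hFm : Measurable (fun q : ℝ × ℝ × ℝ => F q.1 q.2.1 q.2.2) := by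
    simp only [hF]
    exact (hAm.comp measurable_fst).mul ((hBm.comp (measurable_fst.comp measurable_snd)).mul
      (hCm.comp (measurable_snd.comp measurable_snd)))
  have hpt : ∀ x ∈ closedBall (0 : E 3) 1, kf x ≤
      F (inner ℝ x (b 0)) (inner ℝ x (b 1)) (inner ℝ x (b 2)) := by
    intro x hx
    rw [mem_closedBall_zero_iff] at hx
    by_cases h : kf x = 0
    · rw [h]; exact zero_le
    · obtain ⟨h0, h1⟩ := hk x h
      have hxv : ∀ v : E 3, |(inner ℝ x v : ℝ)| ≤ |(inner ℝ (‖x‖⁻¹ • x) v : ℝ)| := by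
        intro v
        have e1 : (inner ℝ x v : ℝ) = ‖x‖ * inner ℝ (‖x‖⁻¹ • x) v := by
          rw [← real_inner_smul_left, norm_smul_dir]
        rw [e1, abs_mul, abs_norm]
        exact mul_le_of_le_one_left (abs_nonneg _) hx
      have hx0 : (inner ℝ x (b 0) : ℝ) ∈ Icc (-c) c := abs_le.1 ((hxv _).trans h0)
      have hx1 : (inner ℝ x (b 1) : ℝ) ∈ Icc (-c2) c2 := abs_le.1 ((hxv _).trans h1)
      have hx2 : (inner ℝ x (b 2) : ℝ) ∈ Icc (-1:ℝ) 1 := by
        apply abs_le.1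
        have := abs_real_inner_le_norm x (b 2)
        rw [b.norm_eq_one, mul_one] at this
        linarith
      simp only [hF, hA, hB, hC]
      rw [indicator_of_mem hx0, indicator_of_mem hx1, indicator_of_mem hx2]
      simp only [Pi.one_apply, one_mul, mul_one]
      refine (hk2 x).trans (ENNReal.ofReal_le_ofReal ?_)
      apply one_div_le_one_div_of_le (by positivity)
      have := hxv (b 1)
      gcongr
  calc ∫⁻ x in closedBall (0 : E 3) 1, kf x
      ≤ ∫⁻ x in closedBall (0 : E 3) 1, F (inner ℝ x (b 0)) (inner ℝ x (b 1)) (inner ℝ x (b 2)) :=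
        setLIntegral_mono' isClosed_closedBall.measurableSet hpt
    _ ≤ ∫⁻ x, F (inner ℝ x (b 0)) (inner ℝ x (b 1)) (inner ℝ x (b 2)) :=
        setLIntegral_le_lintegral _ _
    _ = ∫⁻ s : ℝ, ∫⁻ t : ℝ, ∫⁻ u : ℝ, F s t u := lintegral_coord b hFm
    _ = (∫⁻ s, A s) * ((∫⁻ t, B t) * ∫⁻ u, C u) := by
        simp only [hF]
        rw [← lintegral_mul_const _ hAm]
        apply lintegral_congr
        intro s
        rw [← lintegral_mul_const _ hBm, ← lintegral_const_mul _ (hBm.mul_const _)]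
        apply lintegral_congr
        intro t
        rw [lintegral_const_mul _ (hCm.const_mul _), lintegral_const_mul _ hCm]
    _ ≤ ENNReal.ofReal (2 * c) * (ENNReal.ofReal (2 / r * Real.log (1 + r * c2 / d)) *
          ENNReal.ofReal 2) := by
        have h1 : ∫⁻ s, A s = ENNReal.ofReal (2 * c) := by
          rw [hA, lintegral_indicator_one measurableSet_Icc, Real.volume_Icc]
          congr 1
          ring
        have h2 : ∫⁻ u, C u = ENNReal.ofReal 2 := by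
          rw [hC, lintegral_indicator_one measurableSet_Icc, Real.volume_Icc]
          norm_num
        have h3 : ∫⁻ t, B t ≤ ENNReal.ofReal (2 / r * Real.log (1 + r * c2 / d)) := by
          rw [hB, lintegral_indicator measurableSet_Icc]
          exact log_intM hr hd hc2
        rw [h1, h2]
        gcongr
    _ = _ := by
        have hl : 0 ≤ Real.log (1 + r * c2 / d) := Real.log_nonneg (by
          have : 0 ≤ r * c2 / d := by positivity
          linarith)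
        rw [← ENNReal.ofReal_mul (by positivity), ← ENNReal.ofReal_mul (by positivity)]
        congr 1
        ring

/-- The set of the kernel. -/
def KSg (X2 : E 3 → E 3 → Set (E 3)) (q : E 3) : Set (E 3 × E 3) :=
  {p | ‖p.1‖ = 1 ∧ pr p.1 q ≠ 0 ∧ p.2 ∈ X2 p.1 (un p.1 q)}

theorem measurableSet_KSg {X2 : E 3 → E 3 → Set (E 3)}
    (hX2 : MeasurableSet {p : (E 3 × E 3) × E 3 | p.2 ∈ X2 p.1.1 p.1.2}) (q : E 3) :
    MeasurableSet (KSg X2 q) := by
  have m1 : Measurable (fun p : E 3 × E 3 => ‖p.1‖) := by fun_prop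
  have m2 : Measurable (fun p : E 3 × E 3 => pr p.1 q) := (measurable_pr q).comp measurable_fst
  have m3 : Measurable (fun p : E 3 × E 3 => ((p.1, un p.1 q), p.2)) :=
    (measurable_fst.prodMk ((measurable_un q).comp measurable_fst)).prodMk measurable_snd
  exact (m1 (measurableSet_singleton 1)).inter ((m2 (measurableSet_singleton 0).compl).inter
    (m3 hX2))

/-- The kernel. -/
noncomputable def Kg (X2 : E 3 → E 3 → Set (E 3)) (q e y : E 3) : ℝ≥0∞ :=
  (KSg X2 q).indicator 1 (e, y)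

theorem measurable_Kg {X2 : E 3 → E 3 → Set (E 3)}
    (hX2 : MeasurableSet {p : (E 3 × E 3) × E 3 | p.2 ∈ X2 p.1.1 p.1.2}) (q : E 3) :
    Measurable (Function.uncurry (Kg X2 q)) := by
  have : Function.uncurry (Kg X2 q) = (KSg X2 q).indicator 1 := by
    funext p; rfl
  rw [this]
  exact measurable_one.indicator (measurableSet_KSg hX2 q)

theorem measurable_Kg' {X2 : E 3 → E 3 → Set (E 3)}
    (hX2 : MeasurableSet {p : (E 3 × E 3) × E 3 | p.2 ∈ X2 p.1.1 p.1.2}) (q : E 3) :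
    Measurable (fun p : E 3 × E 3 => Kg X2 q (‖p.1‖⁻¹ • p.1) p.2) := by
  have h1 : Measurable (fun p : E 3 × E 3 => (‖p.1‖⁻¹ • p.1, p.2)) :=
    (measurable_fst.norm.inv.smul measurable_fst).prodMk measurable_snd
  have h2 : Measurable (fun p : E 3 × E 3 => (KSg X2 q).indicator (1 : E 3 × E 3 → ℝ≥0∞)
      (‖p.1‖⁻¹ • p.1, p.2)) := (measurable_one.indicator (measurableSet_KSg hX2 q)).comp h1
  exact h2

open Classical in
/-- The bound for the product of two kernels. -/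
noncomputable def kfg (kf : E 3 → E 3 → E 3 → ℝ≥0∞) (q e e' : E 3) : ℝ≥0∞ :=
  if ‖e‖ = 1 ∧ pr e q ≠ 0 then kf (un e q) e e' else 0

theorem Kg_pair {X2 : E 3 → E 3 → Set (E 3)}
    (hX2m : ∀ e n, MeasurableSet (X2 e n)) {kf : E 3 → E 3 → E 3 → ℝ≥0∞}
    (hk : ∀ e n e' n' : E 3, ‖e‖ = 1 → ‖n‖ = 1 → inner ℝ e n = (0:ℝ) → ‖e'‖ = 1 → ‖n'‖ = 1 →
      inner ℝ e' n' = (0:ℝ) → (X2 e n ∩ X2 e' n').Nonempty →
      volume (X2 e n ∩ X2 e' n') ≤ kf n e e') (q q' e e' : E 3) :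
    ∫⁻ y, Kg X2 q e y * Kg X2 q' e' y ≤ kfg kf q e e' := by
  by_cases hg : (‖e‖ = 1 ∧ pr e q ≠ 0) ∧ (‖e'‖ = 1 ∧ pr e' q' ≠ 0) ∧
      (X2 e (un e q) ∩ X2 e' (un e' q')).Nonempty
  · obtain ⟨⟨g1, g2⟩, ⟨g3, g4⟩, g5⟩ := hg
    have h1 : ∫⁻ y, Kg X2 q e y * Kg X2 q' e' y ≤
        volume (X2 e (un e q) ∩ X2 e' (un e' q')) := by
      rw [← lintegral_indicator_one ((hX2m _ _).inter (hX2m _ _))]
      apply lintegral_mono
      intro y
      simp only [Kg]
      by_cases m1 : (e, y) ∈ KSg X2 q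
      · by_cases m2 : (e', y) ∈ KSg X2 q'
        · have m3 : y ∈ X2 e (un e q) ∩ X2 e' (un e' q') := ⟨m1.2.2, m2.2.2⟩
          rw [indicator_of_mem m1, indicator_of_mem m2, indicator_of_mem m3]
          simp
        · rw [indicator_of_notMem m2, mul_zero]; exact zero_le
      · rw [indicator_of_notMem m1, zero_mul]; exact zero_le
    refine h1.trans ((hk _ _ _ _ g1 (norm_un g2) (inner_un g1) g3 (norm_un g4)
      (inner_un g3) g5).trans ?_)
    unfold kfg
    rw [if_pos ⟨g1, g2⟩]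
  · have h1 : ∀ y, Kg X2 q e y * Kg X2 q' e' y = 0 := by
      intro y
      simp only [Kg]
      by_cases m1 : (e, y) ∈ KSg X2 q
      · by_cases m2 : (e', y) ∈ KSg X2 q'
        · exact absurd ⟨⟨m1.1, m1.2.1⟩, ⟨m2.1, m2.2.1⟩, ⟨y, m1.2.2, m2.2.2⟩⟩ hg
        · rw [indicator_of_notMem m2, mul_zero]
      · rw [indicator_of_notMem m1, zero_mul]
    simp_rw [h1]
    simp

/-- The quadratic estimate for a general family of sets. -/
theorem gen_L2 {X X2 : E 3 → E 3 → Set (E 3)} (hX : ∀ e n, MeasurableSet (X e n))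
    (hX2 : MeasurableSet {p : (E 3 × E 3) × E 3 | p.2 ∈ X2 p.1.1 p.1.2}) {η : ℝ} (hη : 0 < η)
    (happ : ∀ e n q : E 3, ‖e‖ = 1 → ‖n‖ = 1 → inner ℝ e n = (0:ℝ) → ‖q - n‖ ≤ η →
      pr e q ≠ 0 ∧ X e n ⊆ X2 e (un e q))
    {kf : E 3 → E 3 → E 3 → ℝ≥0∞} {B : ℝ≥0∞}
    (hk : ∀ e n e' n' : E 3, ‖e‖ = 1 → ‖n‖ = 1 → inner ℝ e n = (0:ℝ) → ‖e'‖ = 1 → ‖n'‖ = 1 →
      inner ℝ e' n' = (0:ℝ) → (X2 e n ∩ X2 e' n').Nonempty →
      volume (X2 e n ∩ X2 e' n') ≤ kf n e e')
    (hB : ∀ e n : E 3, ‖e‖ = 1 → ‖n‖ = 1 → inner ℝ e n = (0:ℝ) →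
      ∫⁻ x in closedBall (0 : E 3) 1, kf n e (‖x‖⁻¹ • x) ≤ B)
    {H : E 3 → ℝ≥0∞} (hH : Measurable H) :
    ∃ M : E 3 → ℝ≥0∞, Measurable M ∧
      (∀ e n : E 3, ‖e‖ = 1 → ‖n‖ = 1 → inner ℝ e n = (0:ℝ) →
        (∫⁻ y in X e n, H y) ^ 2 ≤ M e) ∧
      ∫⁻ x in closedBall (0 : E 3) 1, M (‖x‖⁻¹ • x) ≤ B * ∫⁻ y, H y ^ 2 := by
  set q : ℕ → E 3 := TopologicalSpace.denseSeq (E 3) with hqdef
  have hX2m : ∀ e n, MeasurableSet (X2 e n) := by
    intro e n
    have m3 : Measurable (fun y : E 3 => ((e, n), y)) := measurable_const.prodMk measurable_id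
    exact m3 hX2
  set Φ : ℕ → E 3 → ℝ≥0∞ := fun j e => ∫⁻ y, Kg X2 (q j) e y * H y with hΦ
  have hΦm : ∀ j, Measurable (Φ j) := by
    intro j
    apply Measurable.lintegral_prod_right'
      (f := fun p : E 3 × E 3 => Function.uncurry (Kg X2 (q j)) p * H p.2)
    exact (measurable_Kg hX2 _).mul (hH.comp measurable_snd)
  have hmd : Measurable (fun x : E 3 => ‖x‖⁻¹ • x) := measurable_norm.inv.smul measurable_id
  refine ⟨fun e => (⨆ j, Φ j e) ^ 2, (Measurable.iSup hΦm).pow_const 2, ?_, ?_⟩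
  · intro e n he hn hen
    have hdn : DenseRange q := TopologicalSpace.denseRange_denseSeq (E 3)
    obtain ⟨j, hj⟩ := hdn.exists_dist_lt n hη
    have hj' : ‖q j - n‖ ≤ η := by
      rw [← dist_eq_norm, dist_comm]; exact hj.le
    obtain ⟨h1, h2⟩ := happ e n (q j) he hn hen hj'
    refine pow_le_pow_left' ?_ 2
    refine le_trans ?_ (le_iSup (fun j => Φ j e) j)
    rw [← lintegral_indicator (hX e n)]
    apply lintegral_mono
    intro y
    simp only
    by_cases hy : y ∈ X e n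
    · have hmem : (e, y) ∈ KSg X2 (q j) := ⟨he, h1, h2 hy⟩
      rw [indicator_of_mem hy, Kg, indicator_of_mem hmem]
      simp
    · rw [indicator_of_notMem hy]; exact zero_le
  · have hKm' : ∀ j, Measurable (Function.uncurry
        (fun (ω y : E 3) => Kg X2 (q j) (‖ω‖⁻¹ • ω) y)) := fun j => measurable_Kg' hX2 (q j)
    have hk' : ∀ (i j : ℕ) (ω ω' : E 3), ∫⁻ y, Kg X2 (q i) (‖ω‖⁻¹ • ω) y *
        Kg X2 (q j) (‖ω'‖⁻¹ • ω') y ≤ kfg kf (q i) (‖ω‖⁻¹ • ω) (‖ω'‖⁻¹ • ω') :=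
      fun i j ω ω' => Kg_pair hX2m hk _ _ _ _
    have hB' : ∀ (i : ℕ) (ω : E 3), ∫⁻ ω' in closedBall (0 : E 3) 1,
        kfg kf (q i) (‖ω‖⁻¹ • ω) (‖ω'‖⁻¹ • ω') ≤ B := by
      intro i ω
      unfold kfg
      by_cases hg : ‖‖ω‖⁻¹ • ω‖ = 1 ∧ pr (‖ω‖⁻¹ • ω) (q i) ≠ 0
      · simp only [if_pos hg]
        exact hB _ _ hg.1 (norm_un hg.2) (inner_un hg.1)
      · simp only [if_neg hg]
        simp
    exact tt_sup (volume.restrict (closedBall (0 : E 3) 1)) (volume : Measure (E 3)) _ hKm' _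
      _ hk' hB' H hH

end Pool.Agent.NH22.RS
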