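import Pool.Agent.NH22.RS.B

set_option autoImplicit false

/-!
# The quadratic estimate for two families of planks in a ball far from the origin
-/

open MeasureTheory Set Filter Topology ENNReal NNReal Metric

namespace Pool.Agent.NH22.RS

open Pool.Agent.H742R2.Kk Pool.Agent.W767.Kc Pool.Agent.W767.Sd Pool.Agent.TH970.Kr

theorem un_approx {Y d : ℝ} (hY : 0 < Y) (hd : 0 < d) {e n q : E 3} (he : ‖e‖ = 1)
    (hn : ‖n‖ = 1) (hen : inner ℝ e n = (0:ℝ)) (hq : ‖q - n‖ ≤ d / (Y + 2 * d)) :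
    pr e q ≠ 0 ∧ ∀ y : E 3, ‖y‖ ≤ Y → |(inner ℝ y n : ℝ)| ≤ d →
      |(inner ℝ y (un e q) : ℝ)| ≤ 2 * d := by
  set η := d / (Y + 2 * d) with hη
  have hη0 : 0 < η := by positivity
  have hη1 : η * (Y + 2 * d) = d := by rw [hη]; field_simp
  have h1 : pr e q - n = (q - n) - (inner ℝ (q - n) e : ℝ) • e := by
    rw [pr, inner_sub_left, real_inner_comm e n, hen, sub_zero]
    abel
  have h2 : ‖pr e q - n‖ ≤ η := by
    rw [h1]
    exact (perp_le he).trans hq
  have h3 : 1 - η ≤ ‖pr e q‖ := by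
    have h4 : ‖n‖ ≤ ‖pr e q‖ + ‖pr e q - n‖ := by
      calc ‖n‖ = ‖pr e q - (pr e q - n)‖ := by congr 1; abel
        _ ≤ _ := norm_sub_le _ _
    rw [hn] at h4
    linarith
  have hη2 : η ≤ 1 / 2 := by
    rw [hη, div_le_div_iff₀ (by positivity) (by norm_num)]
    linarith
  have h5 : 0 < ‖pr e q‖ := by linarith
  refine ⟨norm_pos_iff.1 h5, ?_⟩
  intro y hy2 hy3
  rw [un, inner_smul_right, abs_mul, abs_of_pos (inv_pos.2 h5), inv_mul_le_iff₀ h5]
  have e1 : (inner ℝ y (pr e q) : ℝ) = inner ℝ y n + inner ℝ y (pr e q - n) := by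
    rw [inner_sub_right]; ring
  rw [e1]
  calc |(inner ℝ y n : ℝ) + inner ℝ y (pr e q - n)|
      ≤ |(inner ℝ y n : ℝ)| + |(inner ℝ y (pr e q - n) : ℝ)| := abs_add_le _ _
    _ ≤ d + ‖y‖ * ‖pr e q - n‖ := add_le_add hy3 (abs_real_inner_le_norm _ _)
    _ ≤ d + Y * η := by gcongr
    _ ≤ (1 - η) * (2 * d) := by nlinarith
    _ ≤ ‖pr e q‖ * (2 * d) := by gcongr

/-- Planks around the direction `e`. -/
def XN (c : E 3) (ρ d s : ℝ) (e n : E 3) : Set (E 3) :=
  {y | ‖y - c‖ ≤ ρ ∧ |(inner ℝ y n : ℝ)| ≤ d ∧ ‖pr e y‖ ≤ s}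

/-- Planks around the direction orthogonal to `e` and `n`. -/
def XT (c : E 3) (ρ d l : ℝ) (e n : E 3) : Set (E 3) :=
  {y | ‖y - c‖ ≤ ρ ∧ |(inner ℝ y n : ℝ)| ≤ d ∧ |(inner ℝ y e : ℝ)| ≤ l}

theorem meas3 : Measurable (fun p : (E 3 × E 3) × E 3 => (inner ℝ p.2 p.1.2 : ℝ)) :=
  measurable_snd.inner (measurable_snd.comp measurable_fst)

theorem meas3' : Measurable (fun p : (E 3 × E 3) × E 3 => (inner ℝ p.2 p.1.1 : ℝ)) :=
  measurable_snd.inner (measurable_fst.comp measurable_fst)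

theorem measurableSet_XN' (c : E 3) (ρ d s : ℝ) :
    MeasurableSet {p : (E 3 × E 3) × E 3 | p.2 ∈ XN c ρ d s p.1.1 p.1.2} := by
  have m1 : Measurable (fun p : (E 3 × E 3) × E 3 => ‖p.2 - c‖) :=
    (measurable_snd.sub_const c).norm
  have m2 : Measurable (fun p : (E 3 × E 3) × E 3 => |(inner ℝ p.2 p.1.2 : ℝ)|) :=
    continuous_abs.measurable.comp meas3
  have m3 : Measurable (fun p : (E 3 × E 3) × E 3 => ‖pr p.1.1 p.2‖) := by
    unfold pr
    exact (measurable_snd.sub (meas3'.smul (measurable_fst.comp measurable_fst))).norm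
  exact (measurableSet_le m1 measurable_const).inter ((measurableSet_le m2 measurable_const).inter
    (measurableSet_le m3 measurable_const))

theorem measurableSet_XT' (c : E 3) (ρ d l : ℝ) :
    MeasurableSet {p : (E 3 × E 3) × E 3 | p.2 ∈ XT c ρ d l p.1.1 p.1.2} := by
  have m1 : Measurable (fun p : (E 3 × E 3) × E 3 => ‖p.2 - c‖) :=
    (measurable_snd.sub_const c).norm
  have m2 : Measurable (fun p : (E 3 × E 3) × E 3 => |(inner ℝ p.2 p.1.2 : ℝ)|) :=
    continuous_abs.measurable.comp meas3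
  have m3 : Measurable (fun p : (E 3 × E 3) × E 3 => |(inner ℝ p.2 p.1.1 : ℝ)|) :=
    continuous_abs.measurable.comp meas3'
  exact (measurableSet_le m1 measurable_const).inter ((measurableSet_le m2 measurable_const).inter
    (measurableSet_le m3 measurable_const))

theorem measurableSet_XN (c : E 3) (ρ d s : ℝ) (e n : E 3) : MeasurableSet (XN c ρ d s e n) := by
  have m3 : Measurable (fun y : E 3 => ((e, n), y)) := measurable_const.prodMk measurable_id
  exact m3 (measurableSet_XN' c ρ d s)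

theorem measurableSet_XT (c : E 3) (ρ d l : ℝ) (e n : E 3) : MeasurableSet (XT c ρ d l e n) := by
  have m3 : Measurable (fun y : E 3 => ((e, n), y)) := measurable_const.prodMk measurable_id
  exact m3 (measurableSet_XT' c ρ d l)

theorem inner_le_ph {e' n n' : E 3} (he' : ‖e'‖ = 1) (hen' : inner ℝ e' n' = (0:ℝ)) :
    |(inner ℝ e' n : ℝ)| ≤ ph n n' := by
  apply le_min
  · have e1 : (inner ℝ e' n : ℝ) = inner ℝ e' (n - n') := by rw [inner_sub_right, hen', sub_zero]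
    rw [e1]
    refine (abs_real_inner_le_norm _ _).trans ?_
    rw [he', one_mul]
  · have e1 : (inner ℝ e' n : ℝ) = inner ℝ e' (n + n') := by rw [inner_add_right, hen', add_zero]
    rw [e1]
    refine (abs_real_inner_le_norm _ _).trans ?_
    rw [he', one_mul]

theorem inner_pr_eq {e n y : E 3} (hen : inner ℝ e n = (0:ℝ)) :
    (inner ℝ (pr e y) n : ℝ) = inner ℝ y n := by
  rw [pr, inner_sub_left, real_inner_smul_left, hen, mul_zero, sub_zero]

/-- The relation between the angle and the kernel variable. -/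
theorem rel_N {R D s : ℝ} (hD : 0 ≤ D) {e' n n' y : E 3} (he' : ‖e'‖ = 1)
    (hen' : inner ℝ e' n' = (0:ℝ)) (hy : R / 2 ≤ ‖y‖) (h1 : |(inner ℝ y n : ℝ)| ≤ D)
    (h2 : |(inner ℝ y n' : ℝ)| ≤ D) (h3 : ‖pr e' y‖ ≤ s) :
    R * |(inner ℝ e' n : ℝ)| ≤ 8 * D + 4 * (s * ph n n') := by
  have hφ := ph_nonneg n n'
  have hs : 0 ≤ s := (norm_nonneg _).trans h3
  rcases le_or_gt s (R / 4) with h | h
  · set k : ℝ := inner ℝ y e' with hk
    have hk1 : R / 4 ≤ |k| := by
      have h4 : ‖y‖ ≤ ‖pr e' y‖ + ‖k • e'‖ := by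
        calc ‖y‖ = ‖pr e' y + k • e'‖ := by rw [pr, sub_add_cancel]
          _ ≤ _ := norm_add_le _ _
      rw [norm_smul, he', mul_one, Real.norm_eq_abs] at h4
      linarith
    have h5 : |k| * |(inner ℝ e' n : ℝ)| ≤ 2 * D + s * ph n n' := by
      have e1 : k * inner ℝ e' n = inner ℝ y n - inner ℝ (pr e' y) n := by
        rw [pr, inner_sub_left, real_inner_smul_left]; ring
      rw [← abs_mul, e1]
      have h6 : |(inner ℝ (pr e' y) n : ℝ)| ≤ D + s * ph n n' := by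
        have key : ∀ v : E 3, |(inner ℝ (pr e' y) v : ℝ)| ≤ s * ‖v‖ := by
          intro v
          refine (abs_real_inner_le_norm _ _).trans ?_
          gcongr
        rcases min_choice ‖n - n'‖ ‖n + n'‖ with h7 | h7
        · have e2 : (inner ℝ (pr e' y) n : ℝ) = inner ℝ y n' + inner ℝ (pr e' y) (n - n') := by
            rw [inner_sub_right, inner_pr_eq hen']; ring
          rw [e2]
          refine (abs_add_le _ _).trans (add_le_add h2 ?_)
          rw [ph, h7]; exact key _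
        · have e2 : (inner ℝ (pr e' y) n : ℝ) = -inner ℝ y n' + inner ℝ (pr e' y) (n + n') := by
            rw [inner_add_right, inner_pr_eq hen']; ring
          rw [e2]
          refine (abs_add_le _ _).trans (add_le_add (by rwa [abs_neg]) ?_)
          rw [ph, h7]; exact key _
      calc |(inner ℝ y n : ℝ) - inner ℝ (pr e' y) n| ≤ |(inner ℝ y n : ℝ)| +
            |(inner ℝ (pr e' y) n : ℝ)| := abs_sub _ _
        _ ≤ _ := by linarith
    have h8 : R / 4 * |(inner ℝ e' n : ℝ)| ≤ |k| * |(inner ℝ e' n : ℝ)| := by gcongr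
    linarith
  · have h4 := inner_le_ph (n := n) he' hen'
    have h5 : R * |(inner ℝ e' n : ℝ)| ≤ (4 * s) * ph n n' := by
      apply mul_le_mul _ h4 (abs_nonneg _) (by positivity)
      linarith
    linarith

open Classical in
/-- The kernel of the first family. -/
noncomputable def kN (R ρ D s : ℝ) (n e e' : E 3) : ℝ≥0∞ :=
  if ∃ ε : ℝ, (ε = 1 ∨ ε = -1) ∧ ‖e' - ε • e‖ ≤ 32 * s / R then
    ENNReal.ofReal (216 * (ρ * D ^ 2 * min s ρ)) *
      ENNReal.ofReal (1 / (min s ρ * R / s * |(inner ℝ e' n : ℝ)| + D)) else 0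

open Classical in
/-- The kernel of the second family. -/
noncomputable def kT (R ρ D l : ℝ) (n e e' : E 3) : ℝ≥0∞ :=
  if ∀ m : E 3, ‖m‖ = 1 → inner ℝ e m = (0:ℝ) → inner ℝ n m = (0:ℝ) →
      |(inner ℝ e' m : ℝ)| ≤ 12 * l / R then
    ENNReal.ofReal (24 * (ρ * D ^ 2 * min l ρ)) *
      ENNReal.ofReal (1 / (min l ρ * |(inner ℝ e' n : ℝ)| + D)) else 0

theorem norm_ge {c y : E 3} {ρ : ℝ} (hρ : 2 * ρ ≤ ‖c‖) (hy : ‖y - c‖ ≤ ρ) : ‖c‖ / 2 ≤ ‖y‖ := by
  have h : ‖c‖ ≤ ‖y‖ + ‖y - c‖ := by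
    calc ‖c‖ = ‖y - (y - c)‖ := by congr 1; abel
      _ ≤ _ := norm_sub_le _ _
  linarith

theorem norm_le' {c y : E 3} {ρ : ℝ} (hρ : 2 * ρ ≤ ‖c‖) (hy : ‖y - c‖ ≤ ρ) :
    ‖y‖ ≤ 2 * ‖c‖ := by
  have h : ‖y‖ ≤ ‖y - c‖ + ‖c‖ := by
    calc ‖y‖ = ‖(y - c) + c‖ := by congr 1; abel
      _ ≤ _ := norm_add_le _ _
  have := norm_nonneg c
  linarith

theorem pair_N {c : E 3} {ρ D s : ℝ} (hρ : 0 < ρ) (hρc : 2 * ρ ≤ ‖c‖) (hD : 0 < D) (hs : 0 < s)
    {e n e' n' : E 3} (he : ‖e‖ = 1) (hn : ‖n‖ = 1) (hen : inner ℝ e n = (0:ℝ)) (he' : ‖e'‖ = 1)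
    (hn' : ‖n'‖ = 1) (hen' : inner ℝ e' n' = (0:ℝ))
    (hne : (XN c ρ D s e n ∩ XN c ρ D s e' n').Nonempty) :
    volume (XN c ρ D s e n ∩ XN c ρ D s e' n') ≤ kN ‖c‖ ρ D s n e e' := by
  set R := ‖c‖ with hR
  have hR0 : 0 < R := by linarith
  obtain ⟨b, hb0, hb1⟩ := exists_basis he hn hen
  obtain ⟨y, hy, hy'⟩ := hne
  have hyR : R / 2 ≤ ‖y‖ := norm_ge hρc hy.1
  have hyR2 : ‖y‖ ≤ 2 * R := norm_le' hρc hy.1
  have hdir := cp_dir (r := R) (s := s) (d := D) hR0 he he'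
    (y := y) (n := n) (n' := n') ⟨hyR, hyR2, hy.2.1, hy.2.2⟩ ⟨hyR, hyR2, hy'.2.1, hy'.2.2⟩
  have hrel := rel_N (s := s) hD.le (n := n) he' hen' hyR hy.2.1 hy'.2.1 hy'.2.2
  set L' := min s ρ with hL'
  have hL'0 : 0 < L' := lt_min hs hρ
  have hL's : L' ≤ s := min_le_left _ _
  set β := |(inner ℝ e' n : ℝ)| with hβ
  have hβ0 : 0 ≤ β := abs_nonneg _
  have hφ := ph_nonneg n n'
  have hq : 0 < L' * R / s * β + D := by positivity
  have hqφ : L' * R / s * β + D ≤ 9 * (L' * ph (b 1) n' + D) := by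
    rw [hb1]
    have h1 : L' * R / s * β = L' / s * (R * β) := by ring
    have h2 : L' / s * (R * β) ≤ L' / s * (8 * D + 4 * (s * ph n n')) := by gcongr
    have h3 : L' / s * (8 * D + 4 * (s * ph n n')) = 8 * ((L' / s) * D) + 4 * (L' * ph n n') := by
      field_simp
    have h4 : (L' / s) * D ≤ 1 * D := by
      gcongr
      rw [div_le_one hs]; exact hL's
    have h5 : 0 ≤ L' * ph n n' := by positivity
    linarith
  have h := pv (c := c) (n' := n') hρ hD hs (by norm_num : (0:ℝ) < 9) b hn' hq hqφ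
  refine (measure_mono ?_).trans (h.trans ?_)
  · rintro z ⟨hz, hz'⟩
    rw [mem_ofPred_eq, hb1]
    refine ⟨hz.1, hz.2.1, ?_, hz'.2.1⟩
    have h4 : (inner ℝ z (b 2) : ℝ) = inner ℝ (pr e z) (b 2) := by
      rw [pr, inner_sub_left, real_inner_smul_left, ← hb0,
        b.inner_eq_zero (by decide : (0:Fin 3) ≠ 2)]
      ring
    rw [h4]
    refine (abs_real_inner_le_norm _ _).trans ?_
    rw [b.norm_eq_one, mul_one]
    exact hz.2.2
  · unfold kN
    rw [if_pos hdir, ← ENNReal.ofReal_mul (by positivity)]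
    apply ENNReal.ofReal_le_ofReal
    apply le_of_eq
    rw [← hL', ← hβ]
    ring

theorem int_kN {R ρ D s : ℝ} (hR : 0 < R) (hρ : 0 < ρ) (hD : 0 < D) (hs : 0 < s)
    {e n : E 3} (he : ‖e‖ = 1) (hn : ‖n‖ = 1) (hen : inner ℝ e n = (0:ℝ)) :
    ∫⁻ x in closedBall (0 : E 3) 1, kN R ρ D s n e (‖x‖⁻¹ • x) ≤
      ENNReal.ofReal (55296 * (ρ * D ^ 2 * (s / R) ^ 2) * Real.log (1 + 32 * ρ / D)) := by
  obtain ⟨b, hb0, hb1⟩ := exists_basis he hn hen
  set L' := min s ρ with hL'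
  have hL'0 : 0 < L' := lt_min hs hρ
  have hL'ρ : L' ≤ ρ := min_le_right _ _
  set kf : E 3 → ℝ≥0∞ := fun x => by
    classical
    exact if ∃ ε : ℝ, (ε = 1 ∨ ε = -1) ∧ ‖‖x‖⁻¹ • x - ε • e‖ ≤ 32 * s / R then
      ENNReal.ofReal (1 / (L' * R / s * |(inner ℝ (‖x‖⁻¹ • x) n : ℝ)| + D)) else 0 with hkf
  have h1 : ∀ x : E 3, kN R ρ D s n e (‖x‖⁻¹ • x) =
      ENNReal.ofReal (216 * (ρ * D ^ 2 * L')) * kf x := by
    intro x
    unfold kN
    simp only [hkf]
    split_ifs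
    · rfl
    · rw [mul_zero]
  simp_rw [h1]
  rw [lintegral_const_mul' _ _ ENNReal.ofReal_ne_top]
  have hc : (0:ℝ) < 32 * s / R := by positivity
  have h2 := dir_int2 (r := L' * R / s) (d := D) (c := 32 * s / R) (c2 := 32 * s / R)
    (by positivity) hD hc.le hc (b.reindex (Equiv.swap 0 2)) (kf := kf) (by
      intro x hx
      simp only [hkf] at hx
      have hex : ∃ ε : ℝ, (ε = 1 ∨ ε = -1) ∧ ‖‖x‖⁻¹ • x - ε • e‖ ≤ 32 * s / R := by
        by_contra hcon
        apply hx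
        rw [if_neg hcon]
      obtain ⟨ε, -, hε⟩ := hex
      have key : ∀ v : E 3, ‖v‖ = 1 → inner ℝ e v = (0:ℝ) →
          |(inner ℝ (‖x‖⁻¹ • x) v : ℝ)| ≤ 32 * s / R := by
        intro v hv hev
        have e1 : (inner ℝ (‖x‖⁻¹ • x) v : ℝ) = inner ℝ (‖x‖⁻¹ • x - ε • e) v := by
          have e3 : (inner ℝ (ε • e) v : ℝ) = 0 := by rw [real_inner_smul_left, hev, mul_zero]
          rw [inner_sub_left, e3, sub_zero]
        rw [e1]
        refine (abs_real_inner_le_norm _ _).trans ?_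
        rw [hv, mul_one]; exact hε
      have e0 : (b.reindex (Equiv.swap 0 2)) 0 = b 2 := by simp
      have e1 : (b.reindex (Equiv.swap 0 2)) 1 = b 1 := by simp [Equiv.swap_apply_of_ne_of_ne]
      rw [e0, e1]
      refine ⟨key _ (b.norm_eq_one 2) ?_, key _ (b.norm_eq_one 1) ?_⟩
      · rw [← hb0]; exact b.inner_eq_zero (by decide)
      · rw [← hb0]; exact b.inner_eq_zero (by decide)) (by
      intro x
      have e1 : (b.reindex (Equiv.swap 0 2)) 1 = n := by
        rw [← hb1]; simp [Equiv.swap_apply_of_ne_of_ne]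
      rw [e1]
      simp only [hkf]
      split_ifs
      · exact le_rfl
      · exact zero_le)
  refine (mul_le_mul' le_rfl h2).trans ?_
  rw [← ENNReal.ofReal_mul (by positivity)]
  apply ENNReal.ofReal_le_ofReal
  have e3 : L' * R / s * (32 * s / R) / D = 32 * L' / D := by field_simp
  rw [e3]
  have hlog : Real.log (1 + 32 * L' / D) ≤ Real.log (1 + 32 * ρ / D) := by
    apply Real.log_le_log (by positivity)
    gcongr
  have e4 : 216 * (ρ * D ^ 2 * L') * (8 * (32 * s / R) / (L' * R / s) *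
      Real.log (1 + 32 * L' / D)) = 55296 * (ρ * D ^ 2 * (s / R) ^ 2) *
      Real.log (1 + 32 * L' / D) := by
    field_simp
    ring
  rw [e4]
  gcongr

theorem pair_T {c : E 3} {ρ D l : ℝ} (hρ : 0 < ρ) (hρc : 2 * ρ ≤ ‖c‖) (hD : 0 < D) (hDl : D ≤ l)
    {e n e' n' : E 3} (he : ‖e‖ = 1) (hn : ‖n‖ = 1) (hen : inner ℝ e n = (0:ℝ)) (he' : ‖e'‖ = 1)
    (hn' : ‖n'‖ = 1) (hen' : inner ℝ e' n' = (0:ℝ))
    (hne : (XT c ρ D l e n ∩ XT c ρ D l e' n').Nonempty) :
    volume (XT c ρ D l e n ∩ XT c ρ D l e' n') ≤ kT ‖c‖ ρ D l n e e' := by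
  set R := ‖c‖ with hR
  have hR0 : 0 < R := by linarith
  have hl : 0 < l := hD.trans_le hDl
  obtain ⟨b, hb0, hb1⟩ := exists_basis he hn hen
  obtain ⟨y, hy, hy'⟩ := hne
  have hyR : R / 2 ≤ ‖y‖ := norm_ge hρc hy.1
  have hdir : ∀ m : E 3, ‖m‖ = 1 → inner ℝ e m = (0:ℝ) → inner ℝ n m = (0:ℝ) →
      |(inner ℝ e' m : ℝ)| ≤ 12 * l / R := by
    intro m hm hem hnm
    have h1 : |(inner ℝ e' m : ℝ)| ≤ 1 := by
      have := abs_real_inner_le_norm e' m
      rwa [he', hm, mul_one] at this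
    rw [le_div_iff₀ hR0]
    rcases le_or_gt l (R / 8) with h | h
    · -- `m = ± b 2`
      have hmm : m = (inner ℝ (b 2) m : ℝ) • b 2 := by
        have h2 := b.sum_repr m
        rw [Fin.sum_univ_three] at h2
        simp only [b.repr_apply_apply, hb0, hb1, hem, hnm] at h2
        simpa using h2.symm
      have hb2 : |(inner ℝ (b 2) m : ℝ)| = 1 := by
        have h3 : ‖m‖ = |(inner ℝ (b 2) m : ℝ)| := by
          conv_lhs => rw [hmm]
          rw [norm_smul, b.norm_eq_one, mul_one, Real.norm_eq_abs]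
        rw [← h3, hm]
      have h4 : |(inner ℝ e' m : ℝ)| = |(inner ℝ e' (b 2) : ℝ)| := by
        conv_lhs => rw [hmm]
        rw [inner_smul_right, abs_mul, hb2, one_mul]
      rw [h4]
      set u := (inner ℝ y (b 2) : ℝ) with hu
      have h5 := norm_sq_coord b y
      rw [hb0, hb1] at h5
      have hu1 : R / 4 ≤ |u| := by
        have h6 : (R / 4) ^ 2 ≤ u ^ 2 := by
          have a1 : (inner ℝ y e : ℝ) ^ 2 ≤ (R / 8) ^ 2 := by
            rw [← sq_abs]
            exact pow_le_pow_left₀ (abs_nonneg _) (hy.2.2.trans h) 2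
          have a2 : (inner ℝ y n : ℝ) ^ 2 ≤ (R / 8) ^ 2 := by
            rw [← sq_abs]
            exact pow_le_pow_left₀ (abs_nonneg _) (hy.2.1.trans (hDl.trans h)) 2
          have a3 : (R / 2) ^ 2 ≤ ‖y‖ ^ 2 := pow_le_pow_left₀ (by positivity) hyR 2
          nlinarith
        rw [← sq_abs u] at h6
        exact (pow_le_pow_iff_left₀ (by positivity) (abs_nonneg _) (by norm_num)).1 h6
      have h7 := inner_coord b y e'
      rw [hb0, hb1] at h7
      have h8 : |u| * |(inner ℝ e' (b 2) : ℝ)| ≤ 3 * l := by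
        rw [← abs_mul]
        have e1 : u * inner ℝ e' (b 2) = inner ℝ y e' - inner ℝ y e * inner ℝ e' e -
          inner ℝ y n * inner ℝ e' n := by rw [← h7]; ring
        rw [e1]
        have a1 : |(inner ℝ y e * inner ℝ e' e : ℝ)| ≤ l * 1 := by
          rw [abs_mul]
          apply mul_le_mul hy.2.2 _ (abs_nonneg _) hl.le
          have := abs_real_inner_le_norm e' e
          rwa [he', he, mul_one] at this
        have a2 : |(inner ℝ y n * inner ℝ e' n : ℝ)| ≤ l * 1 := by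
          rw [abs_mul]
          apply mul_le_mul (hy.2.1.trans hDl) _ (abs_nonneg _) hl.le
          have := abs_real_inner_le_norm e' n
          rwa [he', hn, mul_one] at this
        calc |(inner ℝ y e' : ℝ) - inner ℝ y e * inner ℝ e' e - inner ℝ y n * inner ℝ e' n|
            ≤ |(inner ℝ y e' : ℝ) - inner ℝ y e * inner ℝ e' e| +
              |(inner ℝ y n * inner ℝ e' n : ℝ)| := abs_sub _ _
          _ ≤ |(inner ℝ y e' : ℝ)| + |(inner ℝ y e * inner ℝ e' e : ℝ)| +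
              |(inner ℝ y n * inner ℝ e' n : ℝ)| := by
              gcongr
              exact abs_sub _ _
          _ ≤ _ := by linarith [hy'.2.2]
      have h9 : R / 4 * |(inner ℝ e' (b 2) : ℝ)| ≤ |u| * |(inner ℝ e' (b 2) : ℝ)| := by gcongr
      linarith
    · have : |(inner ℝ e' m : ℝ)| * R ≤ 1 * R := by gcongr
      linarith
  set L' := min l ρ with hL'
  have hL'0 : 0 < L' := lt_min hl hρ
  set β := |(inner ℝ e' n : ℝ)| with hβ
  have hβ0 : 0 ≤ β := abs_nonneg _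
  have hq : 0 < L' * β + D := by positivity
  have e0 : (b.reindex (Equiv.swap 0 2)) 0 = b 2 := by simp
  have e1 : (b.reindex (Equiv.swap 0 2)) 1 = n := by
    rw [← hb1]; simp [Equiv.swap_apply_of_ne_of_ne]
  have e2 : (b.reindex (Equiv.swap 0 2)) 2 = e := by rw [← hb0]; simp
  have hqφ : L' * β + D ≤ 1 * (L' * ph ((b.reindex (Equiv.swap 0 2)) 1) n' + D) := by
    rw [e1, one_mul]
    have := inner_le_ph (n := n) he' hen'
    gcongr
  have h := pv (c := c) (n' := n') hρ hD hl one_pos (b.reindex (Equiv.swap 0 2)) hn' hq hqφ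
  refine (measure_mono ?_).trans (h.trans ?_)
  · rintro z ⟨hz, hz'⟩
    rw [mem_ofPred_eq, e1, e2]
    exact ⟨hz.1, hz.2.1, hz.2.2, hz'.2.1⟩
  · unfold kT
    rw [if_pos hdir, ← ENNReal.ofReal_mul (by positivity)]
    apply ENNReal.ofReal_le_ofReal
    apply le_of_eq
    rw [← hL', ← hβ]
    ring

theorem int_kT {R ρ D l : ℝ} (hR : 0 < R) (hρ : 0 < ρ) (hD : 0 < D) (hl : 0 < l)
    {e n : E 3} (he : ‖e‖ = 1) (hn : ‖n‖ = 1) (hen : inner ℝ e n = (0:ℝ)) :
    ∫⁻ x in closedBall (0 : E 3) 1, kT R ρ D l n e (‖x‖⁻¹ • x) ≤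
      ENNReal.ofReal (2304 * (ρ * D ^ 2 * (l / R)) * Real.log (1 + ρ / D)) := by
  obtain ⟨b, hb0, hb1⟩ := exists_basis he hn hen
  set L' := min l ρ with hL'
  have hL'0 : 0 < L' := lt_min hl hρ
  have hL'ρ : L' ≤ ρ := min_le_right _ _
  set kf : E 3 → ℝ≥0∞ := fun x => by
    classical
    exact if ∀ m : E 3, ‖m‖ = 1 → inner ℝ e m = (0:ℝ) → inner ℝ n m = (0:ℝ) →
      |(inner ℝ (‖x‖⁻¹ • x) m : ℝ)| ≤ 12 * l / R then
      ENNReal.ofReal (1 / (L' * |(inner ℝ (‖x‖⁻¹ • x) n : ℝ)| + D)) else 0 with hkf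
  have h1 : ∀ x : E 3, kT R ρ D l n e (‖x‖⁻¹ • x) =
      ENNReal.ofReal (24 * (ρ * D ^ 2 * L')) * kf x := by
    intro x
    unfold kT
    simp only [hkf]
    split_ifs
    · rfl
    · rw [mul_zero]
  simp_rw [h1]
  rw [lintegral_const_mul' _ _ ENNReal.ofReal_ne_top]
  have hc : (0:ℝ) < 12 * l / R := by positivity
  have e0 : (b.reindex (Equiv.swap 0 2)) 0 = b 2 := by simp
  have e1 : (b.reindex (Equiv.swap 0 2)) 1 = n := by
    rw [← hb1]; simp [Equiv.swap_apply_of_ne_of_ne]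
  have h2 := dir_int2 (r := L') (d := D) (c := 12 * l / R) (c2 := 1)
    hL'0 hD hc.le one_pos (b.reindex (Equiv.swap 0 2)) (kf := kf) (by
      intro x hx
      simp only [hkf] at hx
      rw [e0, e1]
      constructor
      · by_contra hcon
        apply hx
        rw [if_neg]
        intro hall
        apply hcon
        apply hall _ (b.norm_eq_one 2)
        · rw [← hb0]; exact b.inner_eq_zero (by decide)
        · rw [← hb1]; exact b.inner_eq_zero (by decide)
      · have h3 := abs_real_inner_le_norm (‖x‖⁻¹ • x) n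
        rw [hn, mul_one] at h3
        refine h3.trans ?_
        rw [norm_smul, norm_inv, norm_norm]
        rcases eq_or_ne x 0 with h | h
        · simp [h]
        · rw [inv_mul_cancel₀ (norm_ne_zero_iff.2 h)]) (by
      intro x
      rw [e1]
      simp only [hkf]
      split_ifs
      · exact le_rfl
      · exact zero_le)
  refine (mul_le_mul' le_rfl h2).trans ?_
  rw [← ENNReal.ofReal_mul (by positivity)]
  apply ENNReal.ofReal_le_ofReal
  rw [mul_one]
  have hlog : Real.log (1 + L' / D) ≤ Real.log (1 + ρ / D) := by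
    apply Real.log_le_log (by positivity)
    gcongr
  have e4 : 24 * (ρ * D ^ 2 * L') * (8 * (12 * l / R) / L' * Real.log (1 + L' / D)) =
      2304 * (ρ * D ^ 2 * (l / R)) * Real.log (1 + L' / D) := by
    field_simp
    ring
  rw [e4]
  gcongr

/-- The quadratic estimate for the first family. -/
theorem L2_N {c : E 3} {ρ d s : ℝ} (hρ : 0 < ρ) (hρc : 2 * ρ ≤ ‖c‖) (hd : 0 < d) (hs : 0 < s)
    {H : E 3 → ℝ≥0∞} (hH : Measurable H) :
    ∃ M : E 3 → ℝ≥0∞, Measurable M ∧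
      (∀ e n : E 3, ‖e‖ = 1 → ‖n‖ = 1 → inner ℝ e n = (0:ℝ) →
        (∫⁻ y in XN c ρ d s e n, H y) ^ 2 ≤ M e) ∧
      ∫⁻ x in closedBall (0 : E 3) 1, M (‖x‖⁻¹ • x) ≤
        ENNReal.ofReal (221184 * (ρ * d ^ 2 * (s / ‖c‖) ^ 2) * Real.log (1 + 16 * ρ / d)) *
          ∫⁻ y in closedBall c ρ, H y ^ 2 := by
  have hR0 : 0 < ‖c‖ := by linarith
  have hbm : MeasurableSet (closedBall c ρ) := isClosed_closedBall.measurableSet
  obtain ⟨M, hM1, hM2, hM3⟩ := gen_L2 (X := XN c ρ d s) (X2 := XN c ρ (2 * d) s)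
    (measurableSet_XN c ρ d s) (measurableSet_XN' c ρ (2 * d) s)
    (η := d / (2 * ‖c‖ + 2 * d)) (by positivity) (by
      intro e n q he hn hen hq
      obtain ⟨h1, h2⟩ := un_approx (by positivity) hd he hn hen hq
      refine ⟨h1, ?_⟩
      rintro y ⟨hy1, hy2, hy3⟩
      exact ⟨hy1, h2 y (norm_le' hρc hy1) hy2, hy3⟩)
    (kf := kN ‖c‖ ρ (2 * d) s)
    (B := ENNReal.ofReal (55296 * (ρ * (2 * d) ^ 2 * (s / ‖c‖) ^ 2) *
      Real.log (1 + 32 * ρ / (2 * d))))
    (fun e n e' n' he hn hen he' hn' hen' hne =>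
      pair_N hρ hρc (by positivity) hs he hn hen he' hn' hen' hne)
    (fun e n he hn hen => int_kN hR0 hρ (by positivity) hs he hn hen)
    (hH.indicator hbm)
  refine ⟨M, hM1, ?_, ?_⟩
  · intro e n he hn hen
    refine le_trans (le_of_eq ?_) (hM2 e n he hn hen)
    congr 1
    apply setLIntegral_congr_fun (measurableSet_XN c ρ d s e n)
    intro y hy
    have : y ∈ closedBall c ρ := by rw [mem_closedBall, dist_eq_norm]; exact hy.1
    rw [indicator_of_mem this]
  · refine hM3.trans ?_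
    have e1 : ∫⁻ y, (closedBall c ρ).indicator H y ^ 2 = ∫⁻ y in closedBall c ρ, H y ^ 2 := by
      rw [← lintegral_indicator hbm]
      apply lintegral_congr
      intro y
      by_cases hy : y ∈ closedBall c ρ
      · rw [indicator_of_mem hy, indicator_of_mem hy]
      · rw [indicator_of_notMem hy, indicator_of_notMem hy]; simp
    rw [e1]
    refine mul_le_mul' (ENNReal.ofReal_le_ofReal (le_of_eq ?_)) le_rfl
    have e2 : 32 * ρ / (2 * d) = 16 * ρ / d := by field_simp; ring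
    rw [e2]
    ring

/-- The quadratic estimate for the second family. -/
theorem L2_T {c : E 3} {ρ d l : ℝ} (hρ : 0 < ρ) (hρc : 2 * ρ ≤ ‖c‖) (hd : 0 < d)
    (hdl : 2 * d ≤ l) {H : E 3 → ℝ≥0∞} (hH : Measurable H) :
    ∃ M : E 3 → ℝ≥0∞, Measurable M ∧
      (∀ e n : E 3, ‖e‖ = 1 → ‖n‖ = 1 → inner ℝ e n = (0:ℝ) →
        (∫⁻ y in XT c ρ d l e n, H y) ^ 2 ≤ M e) ∧
      ∫⁻ x in closedBall (0 : E 3) 1, M (‖x‖⁻¹ • x) ≤
        ENNReal.ofReal (9216 * (ρ * d ^ 2 * (l / ‖c‖)) * Real.log (1 + 16 * ρ / d)) *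
          ∫⁻ y in closedBall c ρ, H y ^ 2 := by
  have hR0 : 0 < ‖c‖ := by linarith
  have hl : 0 < l := by linarith
  have hbm : MeasurableSet (closedBall c ρ) := isClosed_closedBall.measurableSet
  obtain ⟨M, hM1, hM2, hM3⟩ := gen_L2 (X := XT c ρ d l) (X2 := XT c ρ (2 * d) l)
    (measurableSet_XT c ρ d l) (measurableSet_XT' c ρ (2 * d) l)
    (η := d / (2 * ‖c‖ + 2 * d)) (by positivity) (by
      intro e n q he hn hen hq
      obtain ⟨h1, h2⟩ := un_approx (by positivity) hd he hn hen hq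
      refine ⟨h1, ?_⟩
      rintro y ⟨hy1, hy2, hy3⟩
      exact ⟨hy1, h2 y (norm_le' hρc hy1) hy2, hy3⟩)
    (kf := kT ‖c‖ ρ (2 * d) l)
    (B := ENNReal.ofReal (2304 * (ρ * (2 * d) ^ 2 * (l / ‖c‖)) *
      Real.log (1 + ρ / (2 * d))))
    (fun e n e' n' he hn hen he' hn' hen' hne =>
      pair_T hρ hρc (by positivity) hdl he hn hen he' hn' hen' hne)
    (fun e n he hn hen => int_kT hR0 hρ (by positivity) hl he hn hen)
    (hH.indicator hbm)
  refine ⟨M, hM1, ?_, ?_⟩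
  · intro e n he hn hen
    refine le_trans (le_of_eq ?_) (hM2 e n he hn hen)
    congr 1
    apply setLIntegral_congr_fun (measurableSet_XT c ρ d l e n)
    intro y hy
    have : y ∈ closedBall c ρ := by rw [mem_closedBall, dist_eq_norm]; exact hy.1
    rw [indicator_of_mem this]
  · refine hM3.trans ?_
    have e1 : ∫⁻ y, (closedBall c ρ).indicator H y ^ 2 = ∫⁻ y in closedBall c ρ, H y ^ 2 := by
      rw [← lintegral_indicator hbm]
      apply lintegral_congr
      intro y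
      by_cases hy : y ∈ closedBall c ρ
      · rw [indicator_of_mem hy, indicator_of_mem hy]
      · rw [indicator_of_notMem hy, indicator_of_notMem hy]; simp
    rw [e1]
    refine mul_le_mul' (ENNReal.ofReal_le_ofReal ?_) le_rfl
    have hlog : Real.log (1 + ρ / (2 * d)) ≤ Real.log (1 + 16 * ρ / d) := by
      apply Real.log_le_log (by positivity)
      have : ρ / (2 * d) ≤ 16 * ρ / d := by
        rw [div_le_div_iff₀ (by positivity) hd]
        nlinarith [mul_pos hρ hd]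
      linarith
    calc 2304 * (ρ * (2 * d) ^ 2 * (l / ‖c‖)) * Real.log (1 + ρ / (2 * d))
        ≤ 2304 * (ρ * (2 * d) ^ 2 * (l / ‖c‖)) * Real.log (1 + 16 * ρ / d) := by gcongr
      _ = _ := by ring

end Pool.Agent.NH22.RS
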