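import Pool.Agent.NH22.RS.C

set_option autoImplicit false

/-!
# Integrals of radial functions over boxes
-/

open MeasureTheory Set Filter Topology ENNReal NNReal Metric

namespace Pool.Agent.NH22.RS

open Pool.Agent.H742R2.Kk Pool.Agent.W767.Kc Pool.Agent.W767.Sd Pool.Agent.TH970.Kr

theorem cv1 {c u0 R1 : ℝ} (hc : 0 ≤ c) (hu : 0 < u0) {φ : ℝ → ℝ≥0∞}
    {I : Set ℝ} (hI : MeasurableSet I) (hIR : ∀ τ ∈ I, τ ≤ R1) :
    ∫⁻ u in {u | u0 ≤ u ∧ √(c + u ^ 2) ∈ I}, φ (√(c + u ^ 2)) ≤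
      ENNReal.ofReal (R1 / u0) * ∫⁻ τ in I, φ τ := by
  set s : Set ℝ := {u | u0 ≤ u ∧ √(c + u ^ 2) ∈ I} with hs
  set f : ℝ → ℝ := fun u => √(c + u ^ 2) with hf
  have hfm : Measurable f := by fun_prop
  have hsm : MeasurableSet s := measurableSet_Ici.inter (hfm hI)
  have hpos : ∀ u ∈ s, 0 < c + u ^ 2 := by
    intro u hu'
    have : 0 < u := hu.trans_le hu'.1
    positivity
  have hder : ∀ u ∈ s, HasDerivWithinAt f (u / √(c + u ^ 2)) s u := by
    intro u hu'
    have h1 : HasDerivAt (fun u : ℝ => c + u ^ 2) (2 * u) u := by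
      have := (hasDerivAt_pow 2 u).const_add c
      simpa using this
    have h2 := h1.sqrt (hpos u hu').ne'
    have h3 : 2 * u / (2 * √(c + u ^ 2)) = u / √(c + u ^ 2) := by
      rw [mul_div_mul_left _ _ (by norm_num : (2:ℝ) ≠ 0)]
    rw [h3] at h2
    exact h2.hasDerivWithinAt
  have hinj : InjOn f s := by
    intro u hu1 v hv1 huv
    have h1 : 0 < u := hu.trans_le hu1.1
    have h2 : 0 < v := hu.trans_le hv1.1
    have h3 : c + u ^ 2 = c + v ^ 2 := by
      have h4 : f u ^ 2 = f v ^ 2 := by rw [huv]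
      simp only [hf] at h4
      rw [Real.sq_sqrt (hpos u hu1).le, Real.sq_sqrt (hpos v hv1).le] at h4
      exact h4
    nlinarith
  have h := lintegral_image_eq_lintegral_abs_deriv_mul hsm hder hinj φ
  have him : f '' s ⊆ I := by
    rintro _ ⟨u, hu', rfl⟩
    exact hu'.2
  calc ∫⁻ u in s, φ (√(c + u ^ 2))
      ≤ ∫⁻ u in s, ENNReal.ofReal (R1 / u0) * (ENNReal.ofReal |u / √(c + u ^ 2)| * φ (f u)) := by
        apply setLIntegral_mono' hsm
        intro u hu'
        rw [← mul_assoc]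
        have h1 : 1 ≤ ENNReal.ofReal (R1 / u0) * ENNReal.ofReal |u / √(c + u ^ 2)| := by
          have hup : 0 < u := hu.trans_le hu'.1
          have hsq : 0 < √(c + u ^ 2) := Real.sqrt_pos.2 (hpos u hu')
          have hR1 : √(c + u ^ 2) ≤ R1 := hIR _ hu'.2
          have hR0 : 0 < R1 := hsq.trans_le hR1
          rw [← ENNReal.ofReal_mul (by positivity), ENNReal.one_le_ofReal,
            abs_of_pos (by positivity), div_mul_div_comm, one_le_div (by positivity)]
          have := hu'.1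
          calc u0 * √(c + u ^ 2) ≤ u * R1 := by gcongr
            _ = R1 * u := mul_comm _ _
        calc φ (√(c + u ^ 2)) = 1 * φ (f u) := by rw [one_mul]
          _ ≤ _ := by gcongr
    _ = ENNReal.ofReal (R1 / u0) * ∫⁻ u in s, ENNReal.ofReal |u / √(c + u ^ 2)| * φ (f u) :=
        lintegral_const_mul' _ _ ENNReal.ofReal_ne_top
    _ = ENNReal.ofReal (R1 / u0) * ∫⁻ τ in f '' s, φ τ := by rw [h]
    _ ≤ _ := by
        gcongr

theorem cv2 {c u0 R1 : ℝ} (hc : 0 ≤ c) (hu : 0 < u0) {φ : ℝ → ℝ≥0∞} (hφ : Measurable φ)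
    {I : Set ℝ} (hI : MeasurableSet I) (hIR : ∀ τ ∈ I, τ ≤ R1) :
    ∫⁻ u, {u | u0 ≤ |u| ∧ √(c + u ^ 2) ∈ I}.indicator (fun u => φ (√(c + u ^ 2))) u ≤
      ENNReal.ofReal (2 * R1 / u0) * ∫⁻ τ in I, φ τ := by
  set s : Set ℝ := {u | u0 ≤ u ∧ √(c + u ^ 2) ∈ I} with hs
  set f : ℝ → ℝ := fun u => √(c + u ^ 2) with hf
  have hfm : Measurable f := by fun_prop
  have hsm : MeasurableSet s := measurableSet_Ici.inter (hfm hI)
  have h1 := cv1 (φ := φ) hc hu hI hIR
  set Φ : ℝ → ℝ≥0∞ := s.indicator (fun u => φ (√(c + u ^ 2))) with hΦ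
  have hΦm : Measurable Φ := (hφ.comp hfm).indicator hsm
  have h2 : ∫⁻ u, Φ (-u) = ∫⁻ u, Φ u := lintegral_neg_eq_self Φ
  have h3 : ∫⁻ u, Φ u = ∫⁻ u in s, φ (√(c + u ^ 2)) := lintegral_indicator hsm _
  calc ∫⁻ u, {u | u0 ≤ |u| ∧ √(c + u ^ 2) ∈ I}.indicator (fun u => φ (√(c + u ^ 2))) u
      ≤ ∫⁻ u, (Φ u + Φ (-u)) := by
        apply lintegral_mono
        intro u
        simp only
        by_cases hu' : u ∈ {u | u0 ≤ |u| ∧ √(c + u ^ 2) ∈ I}
        · rw [indicator_of_mem hu']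
          rcases le_total 0 u with h | h
          · have h4 : u ∈ s := ⟨by rw [← abs_of_nonneg h]; exact hu'.1, hu'.2⟩
            simp only [hΦ]
            rw [indicator_of_mem h4]
            exact le_self_add
          · have h4 : -u ∈ s := by
              refine ⟨by rw [← abs_of_nonpos h]; exact hu'.1, ?_⟩
              rw [neg_sq]; exact hu'.2
            have h5 : Φ (-u) = φ (√(c + u ^ 2)) := by
              simp only [hΦ]
              rw [indicator_of_mem h4, neg_sq]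
            rw [h5]
            exact le_add_self
        · rw [indicator_of_notMem hu']; exact zero_le
    _ = (∫⁻ u, Φ u) + ∫⁻ u, Φ (-u) := lintegral_add_left hΦm _
    _ = 2 * ∫⁻ u in s, φ (√(c + u ^ 2)) := by rw [h2, h3, two_mul]
    _ ≤ 2 * (ENNReal.ofReal (R1 / u0) * ∫⁻ τ in I, φ τ) := by gcongr
    _ = _ := by
        rw [← mul_assoc, mul_div_assoc, ENNReal.ofReal_mul (by norm_num)]
        norm_num

/-- The integral of a radial function over a box. -/
theorem h_part (b : OrthonormalBasis (Fin 3) ℝ (E 3)) {A B u0 c0 c1 R1 : ℝ}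
    (hu : 0 < u0) {φ : ℝ → ℝ≥0∞} (hφ : Measurable φ)
    {I : Set ℝ} (hI : MeasurableSet I) (hIR : ∀ τ ∈ I, τ ≤ R1) {X : Set (E 3)}
    (hXm : MeasurableSet X)
    (hX : ∀ y ∈ X, |(inner ℝ y (b 0) : ℝ) - c0| ≤ A ∧ |(inner ℝ y (b 1) : ℝ) - c1| ≤ B ∧
      u0 ≤ |(inner ℝ y (b 2) : ℝ)| ∧ ‖y‖ ∈ I) :
    ∫⁻ y in X, φ ‖y‖ ≤ ENNReal.ofReal (8 * A * B * R1 / u0) * ∫⁻ τ in I, φ τ := by
  set K := ENNReal.ofReal (2 * R1 / u0) * ∫⁻ τ in I, φ τ with hK
  set W : Set (ℝ × ℝ × ℝ) := {q | |q.1 - c0| ≤ A ∧ |q.2.1 - c1| ≤ B ∧ u0 ≤ |q.2.2| ∧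
    √((q.1 ^ 2 + q.2.1 ^ 2) + q.2.2 ^ 2) ∈ I} with hW
  have m0 : Measurable (fun q : ℝ × ℝ × ℝ => √((q.1 ^ 2 + q.2.1 ^ 2) + q.2.2 ^ 2)) := by
    fun_prop
  have hWm : MeasurableSet W := by
    have m1 : Measurable (fun q : ℝ × ℝ × ℝ => |q.1 - c0|) := by fun_prop
    have m2 : Measurable (fun q : ℝ × ℝ × ℝ => |q.2.1 - c1|) := by fun_prop
    have m3 : Measurable (fun q : ℝ × ℝ × ℝ => |q.2.2|) := by fun_prop
    exact (measurableSet_le m1 measurable_const).inter
      ((measurableSet_le m2 measurable_const).inter ((measurableSet_le measurable_const m3).inter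
        (m0 hI)))
  set F : ℝ → ℝ → ℝ → ℝ≥0∞ := fun s t u =>
    W.indicator (fun q => φ (√((q.1 ^ 2 + q.2.1 ^ 2) + q.2.2 ^ 2))) (s, t, u) with hF
  have hFm : Measurable (fun q : ℝ × ℝ × ℝ => F q.1 q.2.1 q.2.2) := by
    have : (fun q : ℝ × ℝ × ℝ => F q.1 q.2.1 q.2.2) =
        W.indicator (fun q => φ (√((q.1 ^ 2 + q.2.1 ^ 2) + q.2.2 ^ 2))) := by
      funext q; rfl
    rw [this]
    exact (hφ.comp m0).indicator hWm
  have hnorm : ∀ y : E 3, √(((inner ℝ y (b 0) : ℝ) ^ 2 + (inner ℝ y (b 1) : ℝ) ^ 2) +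
      (inner ℝ y (b 2) : ℝ) ^ 2) = ‖y‖ := by
    intro y
    rw [norm_sq_coord b y, Real.sqrt_sq (norm_nonneg _)]
  have h1 : ∫⁻ y in X, φ ‖y‖ ≤
      ∫⁻ y : E 3, F (inner ℝ y (b 0)) (inner ℝ y (b 1)) (inner ℝ y (b 2)) := by
    rw [← lintegral_indicator hXm]
    apply lintegral_mono
    intro y
    by_cases hy : y ∈ X
    · rw [indicator_of_mem hy]
      obtain ⟨a1, a2, a3, a4⟩ := hX y hy
      have hmem : ((inner ℝ y (b 0) : ℝ), (inner ℝ y (b 1) : ℝ), (inner ℝ y (b 2) : ℝ)) ∈ W := by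
        refine ⟨a1, a2, a3, ?_⟩
        simp only
        rw [hnorm]; exact a4
      simp only [hF]
      rw [indicator_of_mem hmem]
      simp only
      rw [hnorm]
    · rw [indicator_of_notMem hy]; exact zero_le
  refine h1.trans ?_
  rw [lintegral_coord b hFm]
  have h2 : ∀ s t : ℝ, ∫⁻ u : ℝ, F s t u ≤
      (Icc (c0 - A) (c0 + A)).indicator (fun _ => (Icc (c1 - B) (c1 + B)).indicator
        (fun _ => K) t) s := by
    intro s t
    by_cases hs : |s - c0| ≤ A
    · by_cases ht : |t - c1| ≤ B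
      · have hs' : s ∈ Icc (c0 - A) (c0 + A) := by
          rw [abs_le] at hs; exact ⟨by linarith [hs.1], by linarith [hs.2]⟩
        have ht' : t ∈ Icc (c1 - B) (c1 + B) := by
          rw [abs_le] at ht; exact ⟨by linarith [ht.1], by linarith [ht.2]⟩
        rw [indicator_of_mem hs', indicator_of_mem ht']
        refine le_trans (lintegral_mono fun u => ?_)
          (cv2 (c := s ^ 2 + t ^ 2) (by positivity) hu hφ hI hIR)
        simp only [hF]
        by_cases hu' : (s, t, u) ∈ W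
        · have h4 : u ∈ {u : ℝ | u0 ≤ |u| ∧ √((s ^ 2 + t ^ 2) + u ^ 2) ∈ I} :=
            ⟨hu'.2.2.1, hu'.2.2.2⟩
          rw [indicator_of_mem hu', indicator_of_mem h4]
        · rw [indicator_of_notMem hu']; exact zero_le
      · have h0 : ∀ u, F s t u = 0 := by
          intro u
          simp only [hF]
          rw [indicator_of_notMem]
          intro h; exact ht h.2.1
        simp_rw [h0]
        simp
    · have h0 : ∀ u, F s t u = 0 := by
        intro u
        simp only [hF]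
        rw [indicator_of_notMem]
        intro h; exact hs h.1
      simp_rw [h0]
      simp
  calc ∫⁻ s : ℝ, ∫⁻ t : ℝ, ∫⁻ u : ℝ, F s t u
      ≤ ∫⁻ s : ℝ, ∫⁻ t : ℝ, (Icc (c0 - A) (c0 + A)).indicator
          (fun _ => (Icc (c1 - B) (c1 + B)).indicator (fun _ => K) t) s := by
        apply lintegral_mono
        intro s
        apply lintegral_mono
        intro t
        exact h2 s t
    _ ≤ ∫⁻ s : ℝ, (Icc (c0 - A) (c0 + A)).indicator (fun _ => K * ENNReal.ofReal (2 * B)) s := by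
        apply lintegral_mono
        intro s
        simp only
        by_cases hs : s ∈ Icc (c0 - A) (c0 + A)
        · simp only [indicator_of_mem hs]
          rw [lintegral_indicator_const measurableSet_Icc, Real.volume_Icc]
          apply le_of_eq
          congr 2
          ring
        · simp only [indicator_of_notMem hs]
          simp
    _ = K * ENNReal.ofReal (2 * B) * ENNReal.ofReal (2 * A) := by
        rw [lintegral_indicator_const measurableSet_Icc, Real.volume_Icc]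
        congr 2
        ring
    _ ≤ _ := by
        rcases le_or_gt B 0 with hB | hB
        · have e1 : ENNReal.ofReal (2 * B) = 0 := ENNReal.ofReal_of_nonpos (by linarith)
          rw [e1]; simp
        · rcases le_or_gt R1 0 with hR1 | hR1
          · have e1 : ENNReal.ofReal (2 * R1 / u0) = 0 :=
              ENNReal.ofReal_of_nonpos (div_nonpos_of_nonpos_of_nonneg (by linarith) hu.le)
            rw [hK, e1]; simp
          · rw [hK]
            have e1 : ENNReal.ofReal (2 * R1 / u0) * (∫⁻ τ in I, φ τ) * ENNReal.ofReal (2 * B) *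
                ENNReal.ofReal (2 * A) = (ENNReal.ofReal (2 * R1 / u0) * ENNReal.ofReal (2 * B) *
                ENNReal.ofReal (2 * A)) * ∫⁻ τ in I, φ τ := by ring
            rw [e1, ← ENNReal.ofReal_mul (by positivity), ← ENNReal.ofReal_mul (by positivity)]
            refine mul_le_mul' (ENNReal.ofReal_le_ofReal (le_of_eq ?_)) le_rfl
            ring

end Pool.Agent.NH22.RS
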