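import Pool.Agent.NH22.RS.D
import Pool.Agent.H624R3.AQ.Polar

set_option autoImplicit false

/-!
# Averages over dilations, and polar coordinates
-/

open MeasureTheory Set Filter Topology ENNReal NNReal Metric

namespace Pool.Agent.NH22.RS

open Pool.Agent.H742R2.Kk Pool.Agent.W767.Kc Pool.Agent.W767.Sd Pool.Agent.TH970.Kr

theorem shadow_gen {κ : ℝ} (hκ : 0 < κ) (hκ1 : κ ≤ 1) {A P : Set (E 3)} (hA : MeasurableSet A)
    (hP : MeasurableSet P) {g H : E 3 → ℝ≥0∞} (hg : Measurable g) (hH : Measurable H)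
    {V : ℝ≥0∞}
    (h1 : ∀ t ∈ Icc (1:ℝ) (1 + κ), ∀ y : E 3, t • y ∈ A → y ∈ P ∧ g (t • y) ≤ H y)
    (h2 : ∀ y : E 3, volume {t : ℝ | t ∈ Icc (1:ℝ) (1 + κ) ∧ t • y ∈ A} ≤ V) :
    ∫⁻ x in A, g x ≤ ENNReal.ofReal (8 / κ) * (V * ∫⁻ y in P, H y) := by
  have hsm : Measurable (fun q : ℝ × E 3 => q.1 • q.2) := measurable_fst.smul measurable_snd
  set J : ℝ → E 3 → ℝ≥0∞ := fun t y => A.indicator 1 (t • y) * (P.indicator H) y with hJ
  have hJm : Measurable (Function.uncurry J) :=
    ((measurable_one.indicator hA).comp hsm).mul ((hH.indicator hP).comp measurable_snd)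
  have h3 : ∀ t ∈ Icc (1:ℝ) (1 + κ), ∫⁻ x in A, g x ≤ 8 * ∫⁻ y, J t y := by
    intro t ht
    have ht0 : 0 < t := by linarith [ht.1]
    have h2 := lintegral_comp_smulV (f := A.indicator g) (hg.indicator hA) ht0.ne'
    have h3 : ∫⁻ x, A.indicator g x = ENNReal.ofReal (t ^ 3) * ∫⁻ y, A.indicator g (t • y) := by
      rw [h2, ← mul_assoc, ← ENNReal.ofReal_mul (by positivity)]
      have e1 : Module.finrank ℝ (E 3) = 3 := by simp
      rw [e1, abs_of_pos (by positivity), mul_inv_cancel₀ (by positivity), ENNReal.ofReal_one,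
        one_mul]
    rw [← lintegral_indicator hA, h3]
    have h4 : ENNReal.ofReal (t ^ 3) ≤ 8 := by
      calc ENNReal.ofReal (t ^ 3) ≤ ENNReal.ofReal (2 ^ 3) := by
            apply ENNReal.ofReal_le_ofReal
            have h5 : t ≤ 2 := by linarith [ht.2]
            gcongr
        _ = 8 := by norm_num
    refine mul_le_mul' h4 (lintegral_mono fun y => ?_)
    simp only [hJ]
    by_cases hy : t • y ∈ A
    · obtain ⟨h5, h6⟩ := h1 t ht y hy
      rw [indicator_of_mem hy, indicator_of_mem hy, indicator_of_mem h5]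
      simpa using h6
    · rw [indicator_of_notMem hy]; exact zero_le
  have h4 : ENNReal.ofReal κ * ∫⁻ x in A, g x ≤ 8 * (V * ∫⁻ y in P, H y) := by
    calc ENNReal.ofReal κ * ∫⁻ x in A, g x = ∫⁻ _ in Icc (1:ℝ) (1 + κ), ∫⁻ x in A, g x := by
          rw [lintegral_const, Measure.restrict_apply_univ, Real.volume_Icc, mul_comm]
          congr 2
          ring
      _ ≤ ∫⁻ t in Icc (1:ℝ) (1 + κ), 8 * ∫⁻ y, J t y := setLIntegral_mono' measurableSet_Icc h3
      _ = 8 * ∫⁻ t in Icc (1:ℝ) (1 + κ), ∫⁻ y, J t y :=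
          lintegral_const_mul _ hJm.lintegral_prod_right'
      _ = 8 * ∫⁻ y, ∫⁻ t in Icc (1:ℝ) (1 + κ), J t y := by
          rw [lintegral_lintegral_swap (f := J) hJm.aemeasurable]
      _ ≤ 8 * (V * ∫⁻ y in P, H y) := by
          gcongr 8 * ?_
          rw [← lintegral_indicator hP, ← lintegral_const_mul _ (hH.indicator hP)]
          apply lintegral_mono
          intro y
          simp only [hJ]
          have hm3 : Measurable (fun t : ℝ => A.indicator (1 : E 3 → ℝ≥0∞) (t • y)) :=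
            (measurable_one.indicator hA).comp (measurable_id.smul measurable_const)
          rw [lintegral_mul_const _ hm3]
          have hm4 : MeasurableSet {t : ℝ | t • y ∈ A} :=
            (measurable_id.smul measurable_const : Measurable (fun t : ℝ => t • y)) hA
          have h5 : ∫⁻ t in Icc (1:ℝ) (1 + κ), A.indicator (1 : E 3 → ℝ≥0∞) (t • y) =
              volume ({t : ℝ | t • y ∈ A} ∩ Icc (1:ℝ) (1 + κ)) := by
            rw [← Measure.restrict_apply hm4, ← lintegral_indicator_one hm4]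
            rfl
          rw [h5]
          gcongr
          refine le_trans (le_of_eq ?_) (h2 y)
          congr 1
          ext t
          simp only [mem_inter_iff, mem_ofPred_eq]
          tauto
  have hκ' : ENNReal.ofReal κ ≠ 0 := by simpa using hκ
  calc ∫⁻ x in A, g x = (ENNReal.ofReal κ)⁻¹ * (ENNReal.ofReal κ * ∫⁻ x in A, g x) := by
        rw [← mul_assoc, ENNReal.inv_mul_cancel hκ' ENNReal.ofReal_ne_top, one_mul]
    _ ≤ (ENNReal.ofReal κ)⁻¹ * (8 * (V * ∫⁻ y in P, H y)) := by gcongr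
    _ = _ := by
        rw [← mul_assoc, ← ENNReal.ofReal_inv_of_pos hκ]
        congr 1
        have e8 : (8 : ℝ≥0∞) = ENNReal.ofReal 8 := by norm_num
        rw [e8, ← ENNReal.ofReal_mul (by positivity)]
        congr 1
        field_simp

theorem ioiPow {n : ℕ} {f : ℝ → ℝ≥0∞} (hf : Measurable f) :
    ∫⁻ r : Ioi (0 : ℝ), f r.1 ∂(Measure.volumeIoiPow n) =
      ∫⁻ r in Ioi (0 : ℝ), ENNReal.ofReal (r ^ n) * f r := by
  have hm : Measurable (fun r : Ioi (0 : ℝ) => ENNReal.ofReal (r.1 ^ n)) := by fun_prop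
  have hf' : Measurable (fun r : Ioi (0 : ℝ) => f r.1) := hf.comp measurable_subtype_coe
  have h := lintegral_withDensity_eq_lintegral_mul
    (Measure.comap Subtype.val (volume : Measure ℝ)) hm hf'
  rw [Measure.volumeIoiPow, h]
  simp only [Pi.mul_apply]
  rw [lintegral_subtype_comap measurableSet_Ioi (fun r => ENNReal.ofReal (r ^ n) * f r)]

/-- Comparison of an average over spheres with the integral over a shell. -/
theorem polar_cmp {a1 a2 j1 j2 : ℝ} (ha : 0 < a1) (hj : 0 < j1) (hj2 : j1 ≤ j2)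
    {k : ℝ → ℝ≥0∞} (hk : Measurable k) {Γ : E 3 → ℝ≥0∞} (hΓ : Measurable Γ) :
    ∫⁻ y in {y : E 3 | ‖y‖ ∈ Icc j1 j2},
      ∫⁻ τ in Icc a1 a2, k τ * Γ (τ • (‖y‖⁻¹ • y)) ≤
    ENNReal.ofReal ((j2 - j1) * j2 ^ 2 / a1 ^ 2) *
      ∫⁻ x in {x : E 3 | ‖x‖ ∈ Icc a1 a2}, k ‖x‖ * Γ x := by
  set J : Set ℝ := Icc j1 j2 with hJ
  set I : Set ℝ := Icc a1 a2 with hI
  have hJm : MeasurableSet J := measurableSet_Icc
  have hIm : MeasurableSet I := measurableSet_Icc
  set g : E 3 → ℝ≥0∞ := fun y => ∫⁻ τ in I, k τ * Γ (τ • (‖y‖⁻¹ • y)) with hg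
  have hgm : Measurable g := by
    have h1 : Measurable (fun p : E 3 × ℝ => k p.2 * Γ (p.2 • (‖p.1‖⁻¹ • p.1))) := by
      apply (hk.comp measurable_snd).mul
      apply hΓ.comp
      exact measurable_snd.smul (measurable_fst.norm.inv.smul measurable_fst)
    exact h1.lintegral_prod_right'
  have hhom : ∀ (c : ℝ) (x : E 3), 0 < c → g (c • x) = g x := by
    intro c x hc
    have e1 : ‖c • x‖⁻¹ • (c • x) = ‖x‖⁻¹ • x := by
      rw [norm_smul, Real.norm_of_nonneg hc.le, mul_inv, smul_smul]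
      congr 1
      field_simp
    simp only [hg]
    rw [e1]
  set φ : ℝ → ℝ≥0∞ := J.indicator 1 with hφ
  have hφm : Measurable φ := measurable_one.indicator hJm
  have hdim : Module.finrank ℝ (E 3) - 1 = 2 := by simp
  have hSJ : MeasurableSet {y : E 3 | ‖y‖ ∈ J} := measurable_norm hJm
  have hSI : MeasurableSet {y : E 3 | ‖y‖ ∈ I} := measurable_norm hIm
  have h1 := Pool.Agent.H624R3.AQ.hom_radial (volume : Measure (E 3)) g hgm hhom φ hφm
  rw [hdim] at h1
  have h2 : ∫⁻ y in {y : E 3 | ‖y‖ ∈ J}, g y = ∫⁻ x, g x * φ ‖x‖ := by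
    rw [← lintegral_indicator hSJ]
    apply lintegral_congr
    intro y
    simp only [hφ]
    by_cases hy : y ∈ {y : E 3 | ‖y‖ ∈ J}
    · have hy' : ‖y‖ ∈ J := hy
      rw [indicator_of_mem hy, indicator_of_mem hy']
      simp
    · have hy' : ‖y‖ ∉ J := hy
      rw [indicator_of_notMem hy, indicator_of_notMem hy']
      simp
  have h3 : ∫⁻ r : Ioi (0 : ℝ), φ r.1 ∂(Measure.volumeIoiPow 2) ≤
      ENNReal.ofReal ((j2 - j1) * j2 ^ 2) := by
    rw [ioiPow hφm]
    calc ∫⁻ r in Ioi (0 : ℝ), ENNReal.ofReal (r ^ 2) * φ r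
        ≤ ∫⁻ r : ℝ, J.indicator (fun _ => ENNReal.ofReal (j2 ^ 2)) r := by
          refine (setLIntegral_le_lintegral _ _).trans (lintegral_mono fun r => ?_)
          simp only [hφ]
          by_cases hr : r ∈ J
          · rw [indicator_of_mem hr, indicator_of_mem hr]
            simp only [Pi.one_apply, mul_one]
            apply ENNReal.ofReal_le_ofReal
            have h5 : 0 < r := hj.trans_le hr.1
            have h6 : r ≤ j2 := hr.2
            gcongr
          · rw [indicator_of_notMem hr, indicator_of_notMem hr, mul_zero]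
      _ = ENNReal.ofReal ((j2 - j1) * j2 ^ 2) := by
          rw [lintegral_indicator_const hJm, Real.volume_Icc, mul_comm,
            ← ENNReal.ofReal_mul (by linarith)]
  have hf : Measurable (fun x : E 3 => I.indicator 1 ‖x‖ * (k ‖x‖ * Γ x)) :=
    ((measurable_one.indicator hIm).comp measurable_norm).mul
      ((hk.comp measurable_norm).mul hΓ)
  have h4 : ∫⁻ x in {x : E 3 | ‖x‖ ∈ I}, k ‖x‖ * Γ x =
      ∫⁻ x : E 3, I.indicator 1 ‖x‖ * (k ‖x‖ * Γ x) := by
    rw [← lintegral_indicator hSI]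
    apply lintegral_congr
    intro y
    by_cases hy : y ∈ {y : E 3 | ‖y‖ ∈ I}
    · have hy' : ‖y‖ ∈ I := hy
      rw [indicator_of_mem hy, indicator_of_mem hy']
      simp
    · have hy' : ‖y‖ ∉ I := hy
      rw [indicator_of_notMem hy, indicator_of_notMem hy']
      simp
  have h5 : ENNReal.ofReal (a1 ^ 2) * (∫⁻ θ : sphere (0 : E 3) 1, g θ.1
      ∂(volume : Measure (E 3)).toSphere) ≤ ∫⁻ x in {x : E 3 | ‖x‖ ∈ I}, k ‖x‖ * Γ x := by
    rw [h4, Pool.Agent.H624R3.AQ.polar (volume : Measure (E 3)) _ hf, hdim,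
      ← lintegral_const_mul' _ _ ENNReal.ofReal_ne_top]
    apply lintegral_mono
    intro θ
    simp only
    have hθ : ‖θ.1‖ = 1 := by simp
    have hF : Measurable (fun r : ℝ => I.indicator 1 ‖r • θ.1‖ * (k ‖r • θ.1‖ * Γ (r • θ.1))) :=
      hf.comp (measurable_id.smul measurable_const)
    rw [ioiPow (f := fun r : ℝ => I.indicator 1 ‖r • θ.1‖ * (k ‖r • θ.1‖ * Γ (r • θ.1))) hF]
    simp only [hg]
    rw [hθ, inv_one, one_smul, ← lintegral_const_mul' _ _ ENNReal.ofReal_ne_top]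
    have hsub : I ⊆ Ioi (0:ℝ) := fun r hr => ha.trans_le hr.1
    refine le_trans ?_ (lintegral_mono_set hsub)
    apply setLIntegral_mono' hIm
    intro r hr
    have hr0 : 0 < r := ha.trans_le hr.1
    rw [norm_smul, hθ, mul_one, Real.norm_of_nonneg hr0.le, indicator_of_mem hr, Pi.one_apply,
      one_mul]
    gcongr
    exact hr.1
  rw [h2, h1]
  calc (∫⁻ θ : sphere (0 : E 3) 1, g θ.1 ∂(volume : Measure (E 3)).toSphere) *
        ∫⁻ r : Ioi (0 : ℝ), φ r.1 ∂(Measure.volumeIoiPow 2)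
      ≤ (∫⁻ θ : sphere (0 : E 3) 1, g θ.1 ∂(volume : Measure (E 3)).toSphere) *
        ENNReal.ofReal ((j2 - j1) * j2 ^ 2) := by gcongr
    _ = ENNReal.ofReal ((j2 - j1) * j2 ^ 2 / a1 ^ 2) * (ENNReal.ofReal (a1 ^ 2) *
        (∫⁻ θ : sphere (0 : E 3) 1, g θ.1 ∂(volume : Measure (E 3)).toSphere)) := by
        rw [← mul_assoc, ← ENNReal.ofReal_mul (by
          have : 0 ≤ j2 - j1 := by linarith
          positivity)]
        rw [mul_comm]
        congr 2
        field_simp
    _ ≤ _ := by gcongr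

end Pool.Agent.NH22.RS
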