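import Pool.Agent.NH22.RS.E

set_option autoImplicit false

/-!
# The basic estimate for one piece of a tube
-/

open MeasureTheory Set Filter Topology ENNReal NNReal Metric

namespace Pool.Agent.NH22.RS

open Pool.Agent.H742R2.Kk Pool.Agent.W767.Kc Pool.Agent.W767.Sd Pool.Agent.TH970.Kr

theorem holder3 {α : Type*} [MeasurableSpace α] (μ : Measure α) {f g : α → ℝ≥0∞}
    (hf : Measurable f) (hg : Measurable g) :
    (∫⁻ x, f x * g x ∂μ) ^ 3 ≤ (∫⁻ x, f x ^ 3 ∂μ) * (∫⁻ x, g x ^ (3 / 2 : ℝ) ∂μ) ^ 2 := by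
  have hpq : Real.HolderConjugate 3 (3 / 2) := by
    rw [Real.holderConjugate_iff]; norm_num
  have h := ENNReal.lintegral_mul_le_Lp_mul_Lq μ hpq hf.aemeasurable hg.aemeasurable
  have h2 := pow_le_pow_left' h 3
  have e1 : ∀ x, f x ^ (3:ℝ) = f x ^ 3 := fun x => by exact_mod_cast ENNReal.rpow_natCast (f x) 3
  simp only [Pi.mul_apply, e1] at h2
  refine h2.trans (le_of_eq ?_)
  rw [mul_pow, ← ENNReal.rpow_natCast, ← ENNReal.rpow_mul, ← ENNReal.rpow_natCast,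
    ← ENNReal.rpow_mul]
  congr 1
  · norm_num
  · rw [← ENNReal.rpow_natCast]
    norm_num

/-- `G` dominates `g` along dilations by factors between `1/2` and `2`. -/
def RadD (g G : E 3 → ℝ≥0∞) : Prop := ∀ x : E 3, ∀ t ∈ Icc (1 / 2 : ℝ) 2, g (t • x) ≤ G x

/-- The average of `G` along rays. -/
noncomputable def HH (h : ℝ → ℝ≥0∞) (G : E 3 → ℝ≥0∞) (a1 a2 : ℝ) (y : E 3) : ℝ≥0∞ :=
  (∫⁻ τ in Icc a1 a2, h τ ^ 3 * G (τ • (‖y‖⁻¹ • y)) ^ 3) ^ (1 / 2 : ℝ)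

theorem measurable_HH {h : ℝ → ℝ≥0∞} {G : E 3 → ℝ≥0∞} (hh : Measurable h) (hG : Measurable G)
    (a1 a2 : ℝ) : Measurable (HH h G a1 a2) := by
  unfold HH
  apply Measurable.pow_const
  have h1 : Measurable (fun p : E 3 × ℝ => h p.2 ^ 3 * G (p.2 • (‖p.1‖⁻¹ • p.1)) ^ 3) := by
    apply ((hh.comp measurable_snd).pow_const 3).mul
    apply Measurable.pow_const
    apply hG.comp
    exact measurable_snd.smul (measurable_fst.norm.inv.smul measurable_fst)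
  exact h1.lintegral_prod_right'

theorem HH_sq (h : ℝ → ℝ≥0∞) (G : E 3 → ℝ≥0∞) (a1 a2 : ℝ) (y : E 3) :
    HH h G a1 a2 y ^ 2 = ∫⁻ τ in Icc a1 a2, h τ ^ 3 * G (τ • (‖y‖⁻¹ • y)) ^ 3 := by
  unfold HH
  rw [← ENNReal.rpow_natCast, ← ENNReal.rpow_mul]
  norm_num

theorem norm_int {c y : E 3} {ρ : ℝ} (hy : ‖y - c‖ ≤ ρ) : ‖y‖ ∈ Icc (‖c‖ - ρ) (‖c‖ + ρ) := by
  constructor
  · have h : ‖c‖ ≤ ‖y‖ + ‖y - c‖ := by
      calc ‖c‖ = ‖y - (y - c)‖ := by congr 1; abel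
        _ ≤ _ := norm_sub_le _ _
    linarith
  · have h : ‖y‖ ≤ ‖y - c‖ + ‖c‖ := by
      calc ‖y‖ = ‖(y - c) + c‖ := by congr 1; abel
        _ ≤ _ := norm_add_le _ _
    linarith

/-- The integral of the square of the average. -/
theorem int_HH {c : E 3} {ρ : ℝ} (hρ : 0 < ρ) (hρc : 8 * ρ ≤ ‖c‖) {h : ℝ → ℝ≥0∞}
    {G : E 3 → ℝ≥0∞} (hh : Measurable h) (hG : Measurable G) :
    ∫⁻ y in closedBall c (3 * ρ), HH h G (‖c‖ - ρ) (‖c‖ + ρ) y ^ 2 ≤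
      ENNReal.ofReal (15 * ρ) * ∫⁻ x in closedBall c (7 * ρ), (h ‖x‖ * G x) ^ 3 := by
  set R := ‖c‖ with hR
  set Γ : E 3 → ℝ≥0∞ := (closedBall c (7 * ρ)).indicator (fun x => G x ^ 3) with hΓ
  have hbm : MeasurableSet (closedBall c (7 * ρ)) := isClosed_closedBall.measurableSet
  have hΓm : Measurable Γ := (hG.pow_const 3).indicator hbm
  have h1 : ∫⁻ y in closedBall c (3 * ρ), HH h G (R - ρ) (R + ρ) y ^ 2 ≤
      ∫⁻ y in {y : E 3 | ‖y‖ ∈ Icc (R - 3 * ρ) (R + 3 * ρ)},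
        ∫⁻ τ in Icc (R - ρ) (R + ρ), h τ ^ 3 * Γ (τ • (‖y‖⁻¹ • y)) := by
    have hsub : closedBall c (3 * ρ) ⊆ {y : E 3 | ‖y‖ ∈ Icc (R - 3 * ρ) (R + 3 * ρ)} := by
      intro y hy
      rw [mem_closedBall, dist_eq_norm] at hy
      exact norm_int hy
    refine le_trans ?_ (lintegral_mono_set hsub)
    apply setLIntegral_mono' isClosed_closedBall.measurableSet
    intro y hy
    rw [HH_sq]
    apply setLIntegral_mono' measurableSet_Icc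
    intro τ hτ
    have hy' : ‖y‖ ∈ Icc (R - 3 * ρ) (R + 3 * ρ) := hsub hy
    have hy0 : 0 < ‖y‖ := by linarith [hy'.1]
    rw [mem_closedBall, dist_eq_norm] at hy
    have hmem : τ • (‖y‖⁻¹ • y) ∈ closedBall c (7 * ρ) := by
      rw [mem_closedBall, dist_eq_norm]
      have e1 : τ • (‖y‖⁻¹ • y) - c = (τ * ‖y‖⁻¹ - 1) • y + (y - c) := by
        rw [smul_smul, sub_smul, one_smul]; abel
      rw [e1]
      refine (norm_add_le _ _).trans ?_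
      have h2 : ‖(τ * ‖y‖⁻¹ - 1) • y‖ ≤ 4 * ρ := by
        rw [norm_smul, Real.norm_eq_abs]
        have e2 : |τ * ‖y‖⁻¹ - 1| * ‖y‖ = |τ - ‖y‖| := by
          rw [← abs_of_pos hy0, ← abs_mul, abs_of_pos hy0]
          congr 1
          field_simp
        rw [e2, abs_le]
        constructor <;> linarith [hτ.1, hτ.2, hy'.1, hy'.2]
      linarith
    simp only [hΓ]
    rw [indicator_of_mem hmem]
  refine h1.trans ((polar_cmp (a1 := R - ρ) (a2 := R + ρ) (j1 := R - 3 * ρ) (j2 := R + 3 * ρ)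
    (by linarith) (by linarith) (by linarith) (hh.pow_const 3) hΓm).trans ?_)
  refine mul_le_mul' (ENNReal.ofReal_le_ofReal ?_) ?_
  · have h2 : 0 < R - ρ := by linarith
    rw [div_le_iff₀ (by positivity)]
    have h3 : R + 3 * ρ ≤ 11 / 7 * (R - ρ) := by linarith
    calc (R + 3 * ρ - (R - 3 * ρ)) * (R + 3 * ρ) ^ 2
        ≤ (6 * ρ) * (11 / 7 * (R - ρ)) ^ 2 := by
          have h4 : (0:ℝ) ≤ R + 3 * ρ := by linarith
          apply mul_le_mul (by linarith) (pow_le_pow_left₀ h4 h3 2) (by positivity) (by positivity)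
      _ ≤ 15 * ρ * (R - ρ) ^ 2 := by
          have : 0 ≤ ρ * (R - ρ) ^ 2 := by positivity
          nlinarith
  · calc ∫⁻ x in {x : E 3 | ‖x‖ ∈ Icc (R - ρ) (R + ρ)}, h ‖x‖ ^ 3 * Γ x
        ≤ ∫⁻ x, h ‖x‖ ^ 3 * Γ x := setLIntegral_le_lintegral _ _
      _ = ∫⁻ x in closedBall c (7 * ρ), (h ‖x‖ * G x) ^ 3 := by
          rw [← lintegral_indicator hbm]
          apply lintegral_congr
          intro x
          simp only [hΓ]
          by_cases hx : x ∈ closedBall c (7 * ρ)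
          · rw [indicator_of_mem hx, indicator_of_mem hx, mul_pow]
          · rw [indicator_of_notMem hx, indicator_of_notMem hx, mul_zero]

theorem gt_le {c : E 3} {ρ : ℝ} (hρ : 0 < ρ) (hρc : 8 * ρ ≤ ‖c‖) {h : ℝ → ℝ≥0∞}
    {g G : E 3 → ℝ≥0∞} (hh : Measurable h) (hgG : RadD g G) {t : ℝ} (ht : 1 ≤ t)
    {y : E 3} (hy : ‖t • y - c‖ ≤ ρ) :
    ((∫⁻ τ in Icc (‖c‖ - ρ) (‖c‖ + ρ), h τ ^ 3) * g (t • y) ^ 3) ^ (1 / 2 : ℝ) ≤
      HH h G (‖c‖ - ρ) (‖c‖ + ρ) y := by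
  unfold HH
  apply ENNReal.rpow_le_rpow _ (by norm_num)
  have hh3 : Measurable (fun τ => h τ ^ 3) := hh.pow_const 3
  rw [← lintegral_mul_const _ hh3]
  apply setLIntegral_mono' measurableSet_Icc
  intro τ hτ
  have h1 := norm_int hy
  have ht0 : 0 < t := by linarith
  have hty : 0 < ‖t • y‖ := by linarith [h1.1]
  have hy0 : 0 < ‖y‖ := by
    rw [norm_smul, Real.norm_of_nonneg ht0.le] at hty
    exact pos_of_mul_pos_right hty ht0.le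
  have hτ0 : 0 < τ := by linarith [hτ.1]
  have h2 : t • y = (‖t • y‖ / τ) • (τ • (‖y‖⁻¹ • y)) := by
    rw [smul_smul, smul_smul, norm_smul, Real.norm_of_nonneg ht0.le]
    congr 1
    field_simp
  have h3 : g (t • y) ≤ G (τ • (‖y‖⁻¹ • y)) := by
    rw [h2]
    apply hgG
    constructor
    · rw [div_le_div_iff₀ (by norm_num) hτ0]
      linarith [h1.1, h1.2, hτ.1, hτ.2]
    · rw [div_le_iff₀ hτ0]
      linarith [h1.1, h1.2, hτ.1, hτ.2]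
  gcongr

/-- The basic estimate for one piece. -/
theorem piece {c : E 3} {ρ δ κ V : ℝ} (hδ : 0 < δ) (hρ : 0 < ρ) (hρc : 8 * ρ ≤ ‖c‖) (hκ : 0 ≤ κ)
    (hV : 0 ≤ V) {h : ℝ → ℝ≥0∞} {g G : E 3 → ℝ≥0∞} (hh : Measurable h) (hg : Measurable g)
    (hG : Measurable G) (hgG : RadD g G) {A P : Set (E 3)} (hA : MeasurableSet A)
    (hP : MeasurableSet P) (hAc : ∀ y ∈ A, ‖y - c‖ ≤ ρ)
    (h1 : ∀ t ∈ Icc (1:ℝ) (1 + ρ / ‖c‖), ∀ y : E 3, t • y ∈ A → y ∈ P)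
    (h2 : ∀ y : E 3, volume {t : ℝ | t ∈ Icc (1:ℝ) (1 + ρ / ‖c‖) ∧ t • y ∈ A} ≤
      ENNReal.ofReal V)
    (h3 : ∫⁻ y in A, h ‖y‖ ^ 3 ≤ ENNReal.ofReal κ *
      ∫⁻ τ in Icc (‖c‖ - ρ) (‖c‖ + ρ), h τ ^ 3) :
    ((ENNReal.ofReal δ ^ 2)⁻¹ * ∫⁻ y in A, h ‖y‖ * g y) ^ 3 ≤
      ENNReal.ofReal ((δ ^ 6)⁻¹ * κ * (8 * ‖c‖ / ρ * V) ^ 2) *
        (∫⁻ y in P, HH h G (‖c‖ - ρ) (‖c‖ + ρ) y) ^ 2 := by
  set R := ‖c‖ with hR
  have hR0 : 0 < R := by linarith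
  set m1 := ∫⁻ τ in Icc (R - ρ) (R + ρ), h τ ^ 3 with hm1
  set H := HH h G (R - ρ) (R + ρ) with hH
  have hHm : Measurable H := measurable_HH hh hG _ _
  have hgt : Measurable (fun x => (m1 * g x ^ 3) ^ (1 / 2 : ℝ)) :=
    ((hg.pow_const 3).const_mul m1).pow_const _
  have hs := shadow_gen (κ := ρ / R) (by positivity) (by rw [div_le_one hR0]; linarith) hA hP
    hgt hHm (V := ENNReal.ofReal V) (fun t ht y hy =>
      ⟨h1 t ht y hy, gt_le hρ hρc hh hgG ht.1 (hAc _ hy)⟩) h2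
  have hs2 : ∫⁻ x in A, (m1 * g x ^ 3) ^ (1 / 2 : ℝ) ≤
      ENNReal.ofReal (8 * R / ρ * V) * ∫⁻ y in P, H y := by
    refine hs.trans (le_of_eq ?_)
    rw [← mul_assoc, ← ENNReal.ofReal_mul (by positivity)]
    congr 2
    field_simp
  have hm : (∫⁻ x in A, (m1 * g x ^ 3) ^ (1 / 2 : ℝ)) = m1 ^ (1 / 2 : ℝ) *
      ∫⁻ x in A, g x ^ (3 / 2 : ℝ) := by
    have hg32 : Measurable (fun x => g x ^ (3 / 2 : ℝ)) := hg.pow_const _
    rw [← lintegral_const_mul _ hg32]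
    apply lintegral_congr
    intro x
    rw [ENNReal.mul_rpow_of_nonneg _ _ (by norm_num), ← ENNReal.rpow_natCast, ← ENNReal.rpow_mul]
    norm_num
  have hsq : m1 = (m1 ^ (1 / 2 : ℝ)) ^ 2 := by
    rw [← ENNReal.rpow_natCast, ← ENNReal.rpow_mul]
    norm_num
  have hho := holder3 (volume.restrict A) (f := fun y => h ‖y‖) (hh.comp measurable_norm) hg
  set P6 : ℝ≥0∞ := ((ENNReal.ofReal δ ^ 2)⁻¹) ^ 3 with hP6
  have hP6e : P6 = ENNReal.ofReal ((δ ^ 6)⁻¹) := by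
    rw [hP6, ← ENNReal.ofReal_pow hδ.le, ← ENNReal.ofReal_inv_of_pos (by positivity),
      ← ENNReal.ofReal_pow (by positivity)]
    congr 1
    field_simp
  calc ((ENNReal.ofReal δ ^ 2)⁻¹ * ∫⁻ y in A, h ‖y‖ * g y) ^ 3
      = P6 * (∫⁻ y in A, h ‖y‖ * g y) ^ 3 := mul_pow _ _ _
    _ ≤ P6 * ((∫⁻ y in A, h ‖y‖ ^ 3) * (∫⁻ y in A, g y ^ (3 / 2 : ℝ)) ^ 2) := by gcongr
    _ ≤ P6 * ((ENNReal.ofReal κ * m1) * (∫⁻ y in A, g y ^ (3 / 2 : ℝ)) ^ 2) := by gcongr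
    _ = P6 * (ENNReal.ofReal κ * (m1 ^ (1 / 2 : ℝ) * ∫⁻ y in A, g y ^ (3 / 2 : ℝ)) ^ 2) := by
        nth_rewrite 1 [hsq]
        rw [mul_pow]
        ring
    _ = P6 * (ENNReal.ofReal κ * (∫⁻ x in A, (m1 * g x ^ 3) ^ (1 / 2 : ℝ)) ^ 2) := by rw [hm]
    _ ≤ P6 * (ENNReal.ofReal κ * (ENNReal.ofReal (8 * R / ρ * V) * ∫⁻ y in P, H y) ^ 2) := by
        gcongr
    _ = _ := by
        rw [mul_pow, hP6e, ← mul_assoc, ← mul_assoc, ← ENNReal.ofReal_mul (by positivity),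
          ← ENNReal.ofReal_pow (by positivity), ← ENNReal.ofReal_mul (by positivity)]

end Pool.Agent.NH22.RS
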