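import Pool.Agent.NH22.RS.F
import Pool.Agent.TH970.Kr.Base3

set_option autoImplicit false

/-!
# Tubes in a ball: the transversal and the tangential levels
-/

open MeasureTheory Set Filter Topology ENNReal NNReal Metric

namespace Pool.Agent.NH22.RS

open Pool.Agent.H742R2.Kk Pool.Agent.W767.Kc Pool.Agent.W767.Sd Pool.Agent.TH970.Kr

/-- The infinite tube. -/
def Tb (δ : ℝ) (e b : E 3) : Set (E 3) := {y | ‖pr e y - pr e b‖ ≤ δ}

theorem isClosed_Tb (δ : ℝ) (e b : E 3) : IsClosed (Tb δ e b) := by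
  have c1 : Continuous (fun y : E 3 => ‖pr e y - pr e b‖) := by
    unfold pr
    fun_prop
  exact isClosed_le c1 continuous_const

theorem norm_sq_pr {e : E 3} (he : ‖e‖ = 1) (y : E 3) :
    ‖pr e y‖ ^ 2 + (inner ℝ y e : ℝ) ^ 2 = ‖y‖ ^ 2 := by
  rw [pr, norm_sub_sq_real, inner_smul_right, norm_smul, he, mul_one, Real.norm_eq_abs, sq_abs]
  ring

theorem fib {κ δ : ℝ} (hκ1 : κ ≤ 1) (hδ : 0 < δ) {a w : E 3} (ha : 2 * δ ≤ ‖a‖) :
    volume {t : ℝ | t ∈ Icc (1:ℝ) (1 + κ) ∧ ‖t • w - a‖ ≤ δ} ≤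
      ENNReal.ofReal (16 * δ / ‖a‖) := by
  have ha0 : 0 < ‖a‖ := by linarith
  set S := {t : ℝ | t ∈ Icc (1:ℝ) (1 + κ) ∧ ‖t • w - a‖ ≤ δ} with hS
  rcases S.eq_empty_or_nonempty with h0 | ⟨t0, ht0⟩
  · rw [h0, measure_empty]; exact zero_le
  have hz : ‖a‖ / 4 ≤ ‖w‖ := by
    have h1 : ‖a‖ ≤ ‖t0 • w‖ + ‖t0 • w - a‖ := by
      calc ‖a‖ = ‖t0 • w - (t0 • w - a)‖ := by congr 1; abel
        _ ≤ _ := norm_sub_le _ _
    have h2 := ht0.2
    rw [norm_smul, Real.norm_of_nonneg (by linarith [ht0.1.1])] at h1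
    have h3 : t0 * ‖w‖ ≤ 2 * ‖w‖ := by
      gcongr
      linarith [ht0.1.2]
    linarith
  have hsub : S ⊆ Icc (t0 - 8 * δ / ‖a‖) (t0 + 8 * δ / ‖a‖) := by
    intro t ht
    have h1 : |t - t0| * ‖w‖ ≤ 2 * δ := by
      calc |t - t0| * ‖w‖ = ‖(t - t0) • w‖ := by rw [norm_smul, Real.norm_eq_abs]
        _ = ‖(t • w - a) - (t0 • w - a)‖ := by rw [sub_smul]; congr 1; abel
        _ ≤ ‖t • w - a‖ + ‖t0 • w - a‖ := norm_sub_le _ _
        _ ≤ 2 * δ := by linarith [ht.2, ht0.2]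
    have h2 : |t - t0| * (‖a‖ / 4) ≤ 2 * δ := by
      refine le_trans ?_ h1
      gcongr
    have h3 : |t - t0| ≤ 8 * δ / ‖a‖ := by
      rw [le_div_iff₀ ha0]; linarith
    rw [abs_le] at h3
    exact ⟨by linarith [h3.1], by linarith [h3.2]⟩
  refine (measure_mono hsub).trans ?_
  rw [Real.volume_Icc]
  apply ENNReal.ofReal_le_ofReal
  apply le_of_eq
  ring

/-- Points whose dilates lie in the tube and in the ball. -/
theorem dil_mem {c e n b y : E 3} {ρ δ t : ℝ} (hρ : 0 < ρ) (hρc : 8 * ρ ≤ ‖c‖)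
    (hn : ‖n‖ = 1) (hen : inner ℝ e n = (0:ℝ)) (hbn : inner ℝ (pr e b) n = (0:ℝ))
    (ht : t ∈ Icc (1:ℝ) (1 + ρ / ‖c‖)) (hy : t • y ∈ Tb δ e b) (hyc : ‖t • y - c‖ ≤ ρ) :
    ‖y - c‖ ≤ 3 * ρ ∧ |(inner ℝ y n : ℝ)| ≤ δ ∧ ‖pr e y‖ ≤ ‖pr e b‖ + δ ∧
      |(inner ℝ y e : ℝ)| ≤ |(inner ℝ (t • y) e : ℝ)| := by
  have hR0 : 0 < ‖c‖ := by linarith
  have ht0 : 0 < t := by linarith [ht.1]
  have hy' : ‖pr e (t • y) - pr e b‖ ≤ δ := hy
  rw [pr_smul] at hy'
  refine ⟨?_, ?_, ?_, ?_⟩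
  · have e1 : y - c = (t • y - c) - (t - 1) • y := by rw [sub_smul, one_smul]; abel
    rw [e1]
    refine (norm_sub_le _ _).trans ?_
    have h1 := norm_int hyc
    have h2 : ‖y‖ ≤ ‖t • y‖ := by
      rw [norm_smul, Real.norm_of_nonneg ht0.le]
      exact le_mul_of_one_le_left (norm_nonneg _) ht.1
    have h3 : ‖(t - 1) • y‖ ≤ 2 * ρ := by
      rw [norm_smul, Real.norm_of_nonneg (by linarith [ht.1])]
      calc (t - 1) * ‖y‖ ≤ (ρ / ‖c‖) * (‖c‖ + ρ) := by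
            apply mul_le_mul (by linarith [ht.2]) (h2.trans h1.2) (norm_nonneg _) (by positivity)
        _ ≤ (ρ / ‖c‖) * (2 * ‖c‖) := by gcongr; linarith
        _ = 2 * ρ := by field_simp
    linarith
  · have e1 : (inner ℝ (t • pr e y - pr e b) n : ℝ) = t * inner ℝ y n := by
      rw [inner_sub_left, hbn, sub_zero, real_inner_smul_left, inner_pr_eq hen]
    have h3 : |(inner ℝ (t • pr e y - pr e b) n : ℝ)| ≤ δ := by
      refine (abs_real_inner_le_norm _ _).trans ?_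
      rw [hn, mul_one]; exact hy'
    rw [e1, abs_mul, abs_of_pos ht0] at h3
    have h4 : 1 * |(inner ℝ y n : ℝ)| ≤ t * |(inner ℝ y n : ℝ)| := by gcongr; exact ht.1
    linarith
  · have h3 : ‖t • pr e y‖ ≤ ‖t • pr e y - pr e b‖ + ‖pr e b‖ := by
      calc ‖t • pr e y‖ = ‖(t • pr e y - pr e b) + pr e b‖ := by rw [sub_add_cancel]
        _ ≤ _ := norm_add_le _ _
    rw [norm_smul, Real.norm_of_nonneg ht0.le] at h3
    have h4 : 1 * ‖pr e y‖ ≤ t * ‖pr e y‖ := by gcongr; exact ht.1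
    linarith
  · rw [real_inner_smul_left, abs_mul, abs_of_pos ht0]
    exact le_mul_of_one_le_left (abs_nonneg _) ht.1

/-- A common constant. -/
noncomputable def C0 : ℝ := 72 * 36864 * 221184 * 180

theorem coord_close {e b v y : E 3} {δ : ℝ} (hv : ‖v‖ = 1) (hev : inner ℝ e v = (0:ℝ))
    (hy : y ∈ Tb δ e b) : |(inner ℝ y v : ℝ) - inner ℝ (pr e b) v| ≤ δ := by
  have e1 : (inner ℝ y v : ℝ) - inner ℝ (pr e b) v = inner ℝ (pr e y - pr e b) v := by
    rw [inner_sub_left, inner_pr_eq (y := y) hev]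
  rw [e1]
  refine (abs_real_inner_le_norm _ _).trans ?_
  rw [hv, mul_one]; exact hy

theorem inner_close {c e y : E 3} {ρ : ℝ} (he : ‖e‖ = 1) (hy : ‖y - c‖ ≤ ρ) :
    |(inner ℝ y e : ℝ) - inner ℝ c e| ≤ ρ := by
  rw [← inner_sub_left]
  refine (abs_real_inner_le_norm _ _).trans ?_
  rw [he, mul_one]; exact hy

theorem lev_N {c : E 3} {ρ δ α : ℝ} (hδ : 0 < δ) (hδρ : δ ≤ ρ) (hρc : 8 * ρ ≤ ‖c‖)
    (hα : δ / ρ ≤ α) {h : ℝ → ℝ≥0∞} {g G : E 3 → ℝ≥0∞} (hh : Measurable h) (hg : Measurable g)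
    (hG : Measurable G) (hgG : RadD g G) :
    ∃ M : E 3 → ℝ≥0∞, Measurable M ∧
      (∀ e b : E 3, ‖e‖ = 1 → ‖c‖ / 4 ≤ |(inner ℝ c e : ℝ)| → α ≤ ‖pr e b‖ / ‖c‖ + δ / ρ →
        ‖pr e b‖ / ‖c‖ + δ / ρ ≤ 2 * α →
        ((ENNReal.ofReal δ ^ 2)⁻¹ * ∫⁻ y in Tb δ e b ∩ closedBall c ρ, h ‖y‖ * g y) ^ 3 ≤ M e) ∧
      ∫⁻ x in closedBall (0 : E 3) 1, M (‖x‖⁻¹ • x) ≤
        ENNReal.ofReal (C0 * Real.log (1 + 48 * ρ / δ)) *
          ∫⁻ x in closedBall c (7 * ρ), (h ‖x‖ * G x) ^ 3 := by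
  have hρ : 0 < ρ := hδ.trans_le hδρ
  set R := ‖c‖ with hR
  have hR0 : 0 < R := by linarith
  have hα0 : 0 < α := lt_of_lt_of_le (by positivity) hα
  set H := HH h G (R - ρ) (R + ρ) with hH
  have hHm : Measurable H := measurable_HH hh hG _ _
  obtain ⟨M0, hM0m, hM0, hM0i⟩ := L2_N (c := c) (ρ := 3 * ρ) (d := δ) (s := 2 * α * R)
    (by positivity) (by rw [← hR]; linarith) hδ (by positivity) hHm
  refine ⟨fun e => ENNReal.ofReal ((δ ^ 6)⁻¹ * (72 * δ ^ 2) *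
    (8 * R / ρ * (24 * δ / (α * R))) ^ 2) * M0 e, hM0m.const_mul _, ?_, ?_⟩
  · intro e b he hce hx1 hx2
    obtain ⟨n, hn, hen, hbn⟩ := exists_normal (p := pr e b) he (inner_pr he)
    obtain ⟨bs, hb0, hb1⟩ := exists_basis he hn hen
    set A : Set (E 3) := Tb δ e b ∩ closedBall c ρ with hA
    have hAm : MeasurableSet A := ((isClosed_Tb δ e b).inter isClosed_closedBall).measurableSet
    have hAc : ∀ y ∈ A, ‖y - c‖ ≤ ρ := fun y hy => by
      have := hy.2; rwa [mem_closedBall, dist_eq_norm] at this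
    have hp := piece (A := A) (P := XN c (3 * ρ) δ (2 * α * R) e n) (κ := 72 * δ ^ 2)
      (V := 24 * δ / (α * R)) hδ hρ hρc (by positivity) (by positivity) hh hg hG hgG hAm
      (measurableSet_XN _ _ _ _ _ _) hAc (by
        intro t ht y hy
        obtain ⟨a1, a2, a3, -⟩ := dil_mem hρ hρc hn hen hbn ht hy.1 (hAc _ hy)
        refine ⟨a1, a2, a3.trans ?_⟩
        have h4 : δ ≤ δ / ρ * R := by
          rw [div_mul_eq_mul_div, le_div_iff₀ hρ]
          gcongr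
          linarith
        have h5 : ‖pr e b‖ = ‖pr e b‖ / R * R := by field_simp
        calc ‖pr e b‖ + δ ≤ ‖pr e b‖ / R * R + δ / ρ * R := by linarith
          _ = (‖pr e b‖ / R + δ / ρ) * R := by ring
          _ ≤ 2 * α * R := by gcongr) (by
        intro y
        have hsub : {t : ℝ | t ∈ Icc (1:ℝ) (1 + ρ / R) ∧ t • y ∈ A} ⊆
            {t : ℝ | t ∈ Icc (1:ℝ) (1 + ρ / R) ∧ ‖t • pr e y - pr e b‖ ≤ δ} := by
          rintro t ⟨ht, hty⟩
          refine ⟨ht, ?_⟩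
          have := hty.1
          rwa [Tb, mem_ofPred_eq, pr_smul] at this
        rcases lt_or_ge ‖pr e b‖ (2 * (δ / ρ) * R) with h4 | h4
        · have hsub2 : {t : ℝ | t ∈ Icc (1:ℝ) (1 + ρ / R) ∧ t • y ∈ A} ⊆
            Icc (1:ℝ) (1 + ρ / R) := fun t ht => ht.1
          refine (measure_mono hsub2).trans ?_
          rw [Real.volume_Icc]
          apply ENNReal.ofReal_le_ofReal
          have h5 : ‖pr e b‖ / R ≤ 2 * (δ / ρ) := by
            rw [div_le_iff₀ hR0]; exact h4.le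
          have h6 : α * ρ ≤ 3 * δ := by
            have : α ≤ 3 * (δ / ρ) := by linarith
            calc α * ρ ≤ 3 * (δ / ρ) * ρ := by gcongr
              _ = 3 * δ := by field_simp
          rw [add_sub_cancel_left, div_le_div_iff₀ hR0 (by positivity)]
          calc ρ * (α * R) = (α * ρ) * R := by ring
            _ ≤ (3 * δ) * R := by gcongr
            _ ≤ _ := by nlinarith [mul_pos hδ hR0]
        · have h8 : 8 ≤ R / ρ := by rw [le_div_iff₀ hρ]; exact hρc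
          have h5 : 2 * δ ≤ ‖pr e b‖ := by
            have : 2 * (δ / ρ) * R = 2 * δ * (R / ρ) := by ring
            nlinarith
          have hκ1 : ρ / R ≤ 1 := by rw [div_le_one hR0]; linarith
          refine (measure_mono hsub).trans ((fib hκ1 hδ h5).trans (ENNReal.ofReal_le_ofReal ?_))
          have h6 : 0 < ‖pr e b‖ := by linarith
          rw [div_le_div_iff₀ h6 (by positivity)]
          have h7 : α * R ≤ 3 / 2 * ‖pr e b‖ := by
            have h9 : α * R ≤ (‖pr e b‖ / R + δ / ρ) * R := by gcongr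
            have h10 : (‖pr e b‖ / R + δ / ρ) * R = ‖pr e b‖ + δ / ρ * R := by
              field_simp
            linarith
          calc 16 * δ * (α * R) ≤ 16 * δ * (3 / 2 * ‖pr e b‖) := by gcongr
            _ = _ := by ring) (by
        have e0 : (bs.reindex (Equiv.swap 0 2)) 0 = bs 2 := by simp
        have e1 : (bs.reindex (Equiv.swap 0 2)) 1 = n := by
          rw [← hb1]; simp [Equiv.swap_apply_of_ne_of_ne]
        have e2 : (bs.reindex (Equiv.swap 0 2)) 2 = e := by rw [← hb0]; simp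
        have hev : inner ℝ e (bs 2) = (0:ℝ) := by
          rw [← hb0]; exact bs.inner_eq_zero (by decide)
        have hpart := h_part (bs.reindex (Equiv.swap 0 2)) (A := δ) (B := δ) (u0 := R / 8)
          (c0 := inner ℝ (pr e b) (bs 2)) (c1 := inner ℝ (pr e b) n) (R1 := R + ρ)
          (by positivity) (hh.pow_const 3) (I := Icc (R - ρ) (R + ρ)) measurableSet_Icc
          (fun τ hτ => hτ.2) hAm (by
            intro y hy
            rw [e0, e1, e2]
            refine ⟨coord_close (bs.norm_eq_one 2) hev hy.1, coord_close hn hen hy.1, ?_,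
              norm_int (hAc y hy)⟩
            have h4 := inner_close he (hAc y hy)
            have h5 : |(inner ℝ c e : ℝ)| ≤ |(inner ℝ y e : ℝ) - inner ℝ c e| +
                |(inner ℝ y e : ℝ)| := by
              have e3 : (inner ℝ c e : ℝ) = inner ℝ y e - (inner ℝ y e - inner ℝ c e) := by ring
              calc |(inner ℝ c e : ℝ)| = |(inner ℝ y e : ℝ) - (inner ℝ y e - inner ℝ c e)| := by
                    rw [← e3]
                _ ≤ |(inner ℝ y e : ℝ)| + |(inner ℝ y e : ℝ) - inner ℝ c e| := abs_sub _ _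
                _ = _ := add_comm _ _
            linarith)
        refine hpart.trans (mul_le_mul' (ENNReal.ofReal_le_ofReal ?_) le_rfl)
        rw [div_le_iff₀ (by positivity)]
        calc 8 * δ * δ * (R + ρ) ≤ 8 * δ * δ * (9 / 8 * R) := by gcongr; linarith
          _ = 72 * δ ^ 2 * (R / 8) := by ring)
    exact hp.trans (mul_le_mul' le_rfl (hM0 e n he hn hen))
  · have hmd : Measurable (fun x : E 3 => M0 (‖x‖⁻¹ • x)) :=
      hM0m.comp (measurable_norm.inv.smul measurable_id)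
    rw [lintegral_const_mul _ hmd]
    refine (mul_le_mul' le_rfl (hM0i.trans (mul_le_mul' le_rfl (int_HH hρ hρc hh hG)))).trans ?_
    have hlog : 0 ≤ Real.log (1 + 16 * (3 * ρ) / δ) := Real.log_nonneg (by
      have : 0 ≤ 16 * (3 * ρ) / δ := by positivity
      linarith)
    rw [← mul_assoc, ← mul_assoc, ← ENNReal.ofReal_mul (by positivity),
      ← ENNReal.ofReal_mul (by positivity)]
    refine mul_le_mul' (ENNReal.ofReal_le_ofReal (le_of_eq ?_)) le_rfl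
    rw [← hR]
    have e1 : 16 * (3 * ρ) / δ = 48 * ρ / δ := by ring
    rw [e1, C0]
    field_simp
    ring

theorem lev_T {c : E 3} {ρ δ lam : ℝ} (hδ : 0 < δ) (hδρ : δ ≤ ρ) (hρc : 8 * ρ ≤ ‖c‖)
    (hlam : δ / ρ ≤ lam) {h : ℝ → ℝ≥0∞} {g G : E 3 → ℝ≥0∞} (hh : Measurable h)
    (hg : Measurable g) (hG : Measurable G) (hgG : RadD g G) :
    ∃ M : E 3 → ℝ≥0∞, Measurable M ∧
      (∀ (e b : E 3) (A : Set (E 3)), ‖e‖ = 1 → |(inner ℝ c e : ℝ)| < ‖c‖ / 4 → MeasurableSet A →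
        (∀ y ∈ A, y ∈ Tb δ e b ∧ ‖y - c‖ ≤ ρ ∧ |(inner ℝ y e : ℝ)| ≤ 2 * lam * ‖c‖) →
        (A.Nonempty → ∫⁻ y in A, h ‖y‖ ^ 3 ≤ ENNReal.ofReal (18 * δ ^ 2 / lam) *
          ∫⁻ τ in Icc (‖c‖ - ρ) (‖c‖ + ρ), h τ ^ 3) →
        ((ENNReal.ofReal δ ^ 2)⁻¹ * ∫⁻ y in A, h ‖y‖ * g y) ^ 3 ≤ M e) ∧
      ∫⁻ x in closedBall (0 : E 3) 1, M (‖x‖⁻¹ • x) ≤
        ENNReal.ofReal (C0 * Real.log (1 + 48 * ρ / δ)) *
          ∫⁻ x in closedBall c (7 * ρ), (h ‖x‖ * G x) ^ 3 := by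
  have hρ : 0 < ρ := hδ.trans_le hδρ
  set R := ‖c‖ with hR
  have hR0 : 0 < R := by linarith
  have hlam0 : 0 < lam := lt_of_lt_of_le (by positivity) hlam
  set H := HH h G (R - ρ) (R + ρ) with hH
  have hHm : Measurable H := measurable_HH hh hG _ _
  have h2l : 2 * δ ≤ 2 * lam * R := by
    have h4 : δ ≤ lam * R := by
      calc δ = δ / ρ * ρ := by field_simp
        _ ≤ lam * R := by gcongr; linarith
    linarith
  obtain ⟨M0, hM0m, hM0, hM0i⟩ := L2_T (c := c) (ρ := 3 * ρ) (d := δ) (l := 2 * lam * R)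
    (by positivity) (by rw [← hR]; linarith) hδ h2l hHm
  refine ⟨fun e => ENNReal.ofReal ((δ ^ 6)⁻¹ * (18 * δ ^ 2 / lam) *
    (8 * R / ρ * (26 * δ / R)) ^ 2) * M0 e, hM0m.const_mul _, ?_, ?_⟩
  · intro e b A he hce hAm hA hhp
    rcases A.eq_empty_or_nonempty with h0 | hne
    · rw [h0]; simp
    obtain ⟨n, hn, hen, hbn⟩ := exists_normal (p := pr e b) he (inner_pr he)
    have hAc : ∀ y ∈ A, ‖y - c‖ ≤ ρ := fun y hy => (hA y hy).2.1
    have hbR : 5 / 8 * R ≤ ‖pr e b‖ := by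
      obtain ⟨y, hy⟩ := hne
      have h1 := norm_int (hAc y hy)
      have h2 := inner_close he (hAc y hy)
      have h3 : |(inner ℝ y e : ℝ)| ≤ 3 / 8 * R := by
        have e3 : (inner ℝ y e : ℝ) = (inner ℝ y e - inner ℝ c e) + inner ℝ c e := by ring
        calc |(inner ℝ y e : ℝ)| = |((inner ℝ y e : ℝ) - inner ℝ c e) + inner ℝ c e| := by
              rw [← e3]
          _ ≤ |(inner ℝ y e : ℝ) - inner ℝ c e| + |(inner ℝ c e : ℝ)| := abs_add_le _ _
          _ ≤ _ := by linarith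
      have h4 := norm_sq_pr he y
      have h5 : (inner ℝ y e : ℝ) ^ 2 ≤ (3 / 8 * R) ^ 2 := by
        rw [← sq_abs]
        exact pow_le_pow_left₀ (abs_nonneg _) h3 2
      have h6 : (7 / 8 * R) ^ 2 ≤ ‖y‖ ^ 2 := by
        apply pow_le_pow_left₀ (by positivity)
        linarith [h1.1]
      have h7 : (3 / 4 * R) ^ 2 ≤ ‖pr e y‖ ^ 2 := by nlinarith
      have h8 : 3 / 4 * R ≤ ‖pr e y‖ :=
        (pow_le_pow_iff_left₀ (by positivity) (norm_nonneg _) (by norm_num)).1 h7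
      have h9 : ‖pr e y - pr e b‖ ≤ δ := (hA y hy).1
      have h10 : ‖pr e y‖ ≤ ‖pr e y - pr e b‖ + ‖pr e b‖ := by
        calc ‖pr e y‖ = ‖(pr e y - pr e b) + pr e b‖ := by rw [sub_add_cancel]
          _ ≤ _ := norm_add_le _ _
      linarith
    have hp := piece (A := A) (P := XT c (3 * ρ) δ (2 * lam * R) e n) (κ := 18 * δ ^ 2 / lam)
      (V := 26 * δ / R) hδ hρ hρc (by positivity) (by positivity) hh hg hG hgG hAm
      (measurableSet_XT _ _ _ _ _ _) hAc (by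
        intro t ht y hy
        obtain ⟨a1, a2, -, a4⟩ := dil_mem hρ hρc hn hen hbn ht (hA _ hy).1 (hAc _ hy)
        exact ⟨a1, a2, a4.trans (hA _ hy).2.2⟩) (by
        intro y
        have hsub : {t : ℝ | t ∈ Icc (1:ℝ) (1 + ρ / R) ∧ t • y ∈ A} ⊆
            {t : ℝ | t ∈ Icc (1:ℝ) (1 + ρ / R) ∧ ‖t • pr e y - pr e b‖ ≤ δ} := by
          rintro t ⟨ht, hty⟩
          refine ⟨ht, ?_⟩
          have := (hA _ hty).1
          rwa [Tb, mem_ofPred_eq, pr_smul] at this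
        have h5 : 2 * δ ≤ ‖pr e b‖ := by linarith
        have hκ1 : ρ / R ≤ 1 := by rw [div_le_one hR0]; linarith
        refine (measure_mono hsub).trans ((fib hκ1 hδ h5).trans (ENNReal.ofReal_le_ofReal ?_))
        have h6 : 0 < ‖pr e b‖ := by linarith
        rw [div_le_div_iff₀ h6 hR0]
        calc 16 * δ * R = 16 * δ * (8 / 5 * (5 / 8 * R)) := by ring
          _ ≤ 16 * δ * (8 / 5 * ‖pr e b‖) := by gcongr
          _ ≤ _ := by nlinarith [mul_pos hδ h6]) (hhp hne)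
    exact hp.trans (mul_le_mul' le_rfl (hM0 e n he hn hen))
  · have hmd : Measurable (fun x : E 3 => M0 (‖x‖⁻¹ • x)) :=
      hM0m.comp (measurable_norm.inv.smul measurable_id)
    rw [lintegral_const_mul _ hmd]
    refine (mul_le_mul' le_rfl (hM0i.trans (mul_le_mul' le_rfl (int_HH hρ hρc hh hG)))).trans ?_
    have hlog : 0 ≤ Real.log (1 + 16 * (3 * ρ) / δ) := Real.log_nonneg (by
      have : 0 ≤ 16 * (3 * ρ) / δ := by positivity
      linarith)
    rw [← mul_assoc, ← mul_assoc, ← ENNReal.ofReal_mul (by positivity),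
      ← ENNReal.ofReal_mul (by positivity)]
    refine mul_le_mul' (ENNReal.ofReal_le_ofReal ?_) le_rfl
    rw [← hR]
    have e1 : 16 * (3 * ρ) / δ = 48 * ρ / δ := by ring
    rw [e1] at hlog ⊢
    have e2 : (δ ^ 6)⁻¹ * (18 * δ ^ 2 / lam) * (8 * R / ρ * (26 * δ / R)) ^ 2 *
        (9216 * (3 * ρ * δ ^ 2 * (2 * lam * R / R)) * Real.log (1 + 48 * ρ / δ)) * (15 * ρ) =
        (18 * 208 ^ 2 * 9216 * 90) * Real.log (1 + 48 * ρ / δ) := by
      field_simp
      ring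
    rw [e2, C0]
    exact mul_le_mul_of_nonneg_right (by norm_num) hlog

end Pool.Agent.NH22.RS
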