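import Pool.Agent.NH22.RS.G

set_option autoImplicit false

/-!
# The estimate for tubes in one ball
-/

open MeasureTheory Set Filter Topology ENNReal NNReal Metric

namespace Pool.Agent.NH22.RS

open Pool.Agent.H742R2.Kk Pool.Agent.W767.Kc Pool.Agent.W767.Sd Pool.Agent.TH970.Kr

/-- The radial part on a tangential level. -/
theorem h_level {c : E 3} {ρ δ lam : ℝ} (hδ : 0 < δ) (hρ : 0 < ρ) (hρc : 8 * ρ ≤ ‖c‖)
    (hlam : 0 < lam) {h : ℝ → ℝ≥0∞} (hh : Measurable h) {e b : E 3} (he : ‖e‖ = 1)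
    {A : Set (E 3)} (hAm : MeasurableSet A)
    (hA : ∀ y ∈ A, y ∈ Tb δ e b ∧ ‖y - c‖ ≤ ρ ∧ lam * ‖c‖ ≤ |(inner ℝ y e : ℝ)|) :
    ∫⁻ y in A, h ‖y‖ ^ 3 ≤ ENNReal.ofReal (18 * δ ^ 2 / lam) *
      ∫⁻ τ in Icc (‖c‖ - ρ) (‖c‖ + ρ), h τ ^ 3 := by
  set R := ‖c‖ with hR
  have hR0 : 0 < R := by linarith
  obtain ⟨n, hn, hen, hbn⟩ := exists_normal (p := pr e b) he (inner_pr he)
  obtain ⟨bs, hb0, hb1⟩ := exists_basis he hn hen
  have e0 : (bs.reindex (Equiv.swap 0 2)) 0 = bs 2 := by simp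
  have e1 : (bs.reindex (Equiv.swap 0 2)) 1 = n := by
    rw [← hb1]; simp [Equiv.swap_apply_of_ne_of_ne]
  have e2 : (bs.reindex (Equiv.swap 0 2)) 2 = e := by rw [← hb0]; simp
  have hev : inner ℝ e (bs 2) = (0:ℝ) := by
    rw [← hb0]; exact bs.inner_eq_zero (by decide)
  have hpart := h_part (bs.reindex (Equiv.swap 0 2)) (A := δ) (B := δ) (u0 := lam * R)
    (c0 := inner ℝ (pr e b) (bs 2)) (c1 := inner ℝ (pr e b) n) (R1 := R + ρ)
    (by positivity) (hh.pow_const 3) (I := Icc (R - ρ) (R + ρ)) measurableSet_Icc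
    (fun τ hτ => hτ.2) hAm (by
      intro y hy
      rw [e0, e1, e2]
      exact ⟨coord_close (bs.norm_eq_one 2) hev (hA y hy).1, coord_close hn hen (hA y hy).1,
        (hA y hy).2.2, norm_int (hA y hy).2.1⟩)
  refine hpart.trans (mul_le_mul' (ENNReal.ofReal_le_ofReal ?_) le_rfl)
  rw [div_le_div_iff₀ (by positivity) hlam]
  calc 8 * δ * δ * (R + ρ) * lam ≤ 8 * δ * δ * (9 / 8 * R) * lam := by gcongr; linarith
    _ = 9 * (δ ^ 2 * (lam * R)) := by ring
    _ ≤ 18 * (δ ^ 2 * (lam * R)) := by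
        have : 0 ≤ δ ^ 2 * (lam * R) := by positivity
        linarith
    _ = _ := by ring

/-- The radial part near the tangent plane. -/
theorem h_bottom {c : E 3} {ρ δ : ℝ} (hδ : 0 < δ) (hδρ : δ ≤ ρ) (hρc : 8 * ρ ≤ ‖c‖)
    {h : ℝ → ℝ≥0∞} (hh : Measurable h) {e b : E 3} (he : ‖e‖ = 1)
    (hbR : 5 / 8 * ‖c‖ ≤ ‖pr e b‖)
    {A : Set (E 3)} (hAm : MeasurableSet A)
    (hA : ∀ y ∈ A, y ∈ Tb δ e b ∧ ‖y - c‖ ≤ ρ) :
    ∫⁻ y in A, h ‖y‖ ^ 3 ≤ ENNReal.ofReal (18 * δ ^ 2 / (δ / ρ)) *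
      ∫⁻ τ in Icc (‖c‖ - ρ) (‖c‖ + ρ), h τ ^ 3 := by
  have hρ : 0 < ρ := hδ.trans_le hδρ
  set R := ‖c‖ with hR
  have hR0 : 0 < R := by linarith
  obtain ⟨n, hn, hen, hbn⟩ := exists_normal (p := pr e b) he (inner_pr he)
  obtain ⟨bs, hb0, hb1⟩ := exists_basis he hn hen
  have hev : inner ℝ e (bs 2) = (0:ℝ) := by
    rw [← hb0]; exact bs.inner_eq_zero (by decide)
  have hv : |(inner ℝ (pr e b) (bs 2) : ℝ)| = ‖pr e b‖ := by
    have h1 := norm_sq_coord bs (pr e b)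
    rw [hb0, hb1, hbn, real_inner_comm, inner_pr he] at h1
    have h2 : (inner ℝ (pr e b) (bs 2) : ℝ) ^ 2 = ‖pr e b‖ ^ 2 := by linarith
    rw [← sq_abs] at h2
    exact (pow_left_inj₀ (abs_nonneg _) (norm_nonneg _) (by norm_num)).1 h2
  have hpart := h_part bs (A := ρ) (B := δ) (u0 := R / 2)
    (c0 := inner ℝ c e) (c1 := inner ℝ (pr e b) n) (R1 := R + ρ)
    (by positivity) (hh.pow_const 3) (I := Icc (R - ρ) (R + ρ)) measurableSet_Icc
    (fun τ hτ => hτ.2) hAm (by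
      intro y hy
      rw [hb0, hb1]
      refine ⟨inner_close he (hA y hy).2, coord_close hn hen (hA y hy).1, ?_,
        norm_int (hA y hy).2⟩
      have h4 := coord_close (bs.norm_eq_one 2) hev (hA y hy).1
      have h5 : |(inner ℝ (pr e b) (bs 2) : ℝ)| ≤ |(inner ℝ y (bs 2) : ℝ) -
          inner ℝ (pr e b) (bs 2)| + |(inner ℝ y (bs 2) : ℝ)| := by
        have e3 : (inner ℝ (pr e b) (bs 2) : ℝ) = inner ℝ y (bs 2) -
          (inner ℝ y (bs 2) - inner ℝ (pr e b) (bs 2)) := by ring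
        calc |(inner ℝ (pr e b) (bs 2) : ℝ)| = |(inner ℝ y (bs 2) : ℝ) -
              (inner ℝ y (bs 2) - inner ℝ (pr e b) (bs 2))| := by rw [← e3]
          _ ≤ |(inner ℝ y (bs 2) : ℝ)| + |(inner ℝ y (bs 2) : ℝ) -
              inner ℝ (pr e b) (bs 2)| := abs_sub _ _
          _ = _ := add_comm _ _
      linarith)
  refine hpart.trans (mul_le_mul' (ENNReal.ofReal_le_ofReal ?_) le_rfl)
  have e1 : 18 * δ ^ 2 / (δ / ρ) = 18 * ρ * δ := by field_simp
  rw [e1, div_le_iff₀ (by positivity)]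
  calc 8 * ρ * δ * (R + ρ) ≤ 8 * ρ * δ * (9 / 8 * R) := by gcongr; linarith
    _ = 18 * ρ * δ * (R / 2) := by ring

theorem pr_b_large {c e b y : E 3} {ρ δ : ℝ} (hδρ : δ ≤ ρ) (hρ : 0 < ρ) (hρc : 8 * ρ ≤ ‖c‖)
    (he : ‖e‖ = 1) (hce : |(inner ℝ c e : ℝ)| < ‖c‖ / 4) (hy : y ∈ Tb δ e b)
    (hyc : ‖y - c‖ ≤ ρ) : 5 / 8 * ‖c‖ ≤ ‖pr e b‖ := by
  set R := ‖c‖ with hR
  have hR0 : 0 < R := by linarith
  have h1 := norm_int hyc
  have h2 := inner_close he hyc
  have h3 : |(inner ℝ y e : ℝ)| ≤ 3 / 8 * R := by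
    have e3 : (inner ℝ y e : ℝ) = (inner ℝ y e - inner ℝ c e) + inner ℝ c e := by ring
    calc |(inner ℝ y e : ℝ)| = |((inner ℝ y e : ℝ) - inner ℝ c e) + inner ℝ c e| := by
          rw [← e3]
      _ ≤ |(inner ℝ y e : ℝ) - inner ℝ c e| + |(inner ℝ c e : ℝ)| := abs_add_le _ _
      _ ≤ _ := by linarith
  have h4 := norm_sq_pr he y
  have h5 : (inner ℝ y e : ℝ) ^ 2 ≤ (3 / 8 * R) ^ 2 := by
    rw [← sq_abs]
    exact pow_le_pow_left₀ (abs_nonneg _) h3 2
  have h6 : (7 / 8 * R) ^ 2 ≤ ‖y‖ ^ 2 := by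
    apply pow_le_pow_left₀ (by positivity)
    linarith [h1.1]
  have h7 : (3 / 4 * R) ^ 2 ≤ ‖pr e y‖ ^ 2 := by nlinarith
  have h8 : 3 / 4 * R ≤ ‖pr e y‖ :=
    (pow_le_pow_iff_left₀ (by positivity) (norm_nonneg _) (by norm_num)).1 h7
  have h9 : ‖pr e y - pr e b‖ ≤ δ := hy
  have h10 : ‖pr e y‖ ≤ ‖pr e y - pr e b‖ + ‖pr e b‖ := by
    calc ‖pr e y‖ = ‖(pr e y - pr e b) + pr e b‖ := by rw [sub_add_cancel]
      _ ≤ _ := norm_add_le _ _
  linarith

/-- The estimate for one ball. -/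
theorem one_ball {c : E 3} {ρ δ : ℝ} (hδ : 0 < δ) (hδρ : δ ≤ ρ) (hρc : 8 * ρ ≤ ‖c‖) {I0 : ℕ}
    (hI0 : 1 ≤ 2 ^ I0 * (δ / ρ)) {h : ℝ → ℝ≥0∞} {g G : E 3 → ℝ≥0∞} (hh : Measurable h)
    (hg : Measurable g) (hG : Measurable G) (hgG : RadD g G) :
    ∃ M : E 3 → ℝ≥0∞, Measurable M ∧
      (∀ e b : E 3, ‖e‖ = 1 →
        ((ENNReal.ofReal δ ^ 2)⁻¹ * ∫⁻ y in Tb δ e b ∩ closedBall c ρ, h ‖y‖ * g y) ^ 3 ≤ M e) ∧
      ∫⁻ x in closedBall (0 : E 3) 1, M (‖x‖⁻¹ • x) ≤
        ENNReal.ofReal (2 * C0 * ((I0:ℝ) + 2) ^ 3 * Real.log (1 + 48 * ρ / δ)) *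
          ∫⁻ x in closedBall c (7 * ρ), (h ‖x‖ * G x) ^ 3 := by
  have hρ : 0 < ρ := hδ.trans_le hδρ
  set R := ‖c‖ with hR
  have hR0 : 0 < R := by linarith
  have hq : 0 < δ / ρ := by positivity
  have hlev : ∀ j : ℕ, δ / ρ ≤ 2 ^ j * (δ / ρ) := fun j =>
    le_mul_of_one_le_left hq.le (one_le_pow₀ (by norm_num))
  choose MN hMN1 hMN2 hMN3 using fun j : ℕ => lev_N (c := c) hδ hδρ hρc (hlev j) hh hg hG hgG
  choose MT hMT1 hMT2 hMT3 using fun j : ℕ => lev_T (c := c) hδ hδρ hρc (hlev j) hh hg hG hgG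
  have hmd : Measurable (fun x : E 3 => ‖x‖⁻¹ • x) := measurable_norm.inv.smul measurable_id
  set N : ℝ≥0∞ := ((I0 + 1 : ℕ) : ℝ≥0∞) with hN
  refine ⟨fun e => ∑ j ∈ Finset.range (I0 + 2), MN j e +
    N ^ 2 * ∑ j ∈ Finset.range (I0 + 1), MT j e,
    (Finset.measurable_sum _ (fun j _ => hMN1 j)).add
      ((Finset.measurable_sum _ (fun j _ => hMT1 j)).const_mul _), ?_, ?_⟩
  · intro e b he
    set A : Set (E 3) := Tb δ e b ∩ closedBall c ρ with hA
    have hAm : MeasurableSet A := ((isClosed_Tb δ e b).inter isClosed_closedBall).measurableSet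
    have hAc : ∀ y ∈ A, ‖y - c‖ ≤ ρ := fun y hy => by
      have := hy.2; rwa [mem_closedBall, dist_eq_norm] at this
    rcases A.eq_empty_or_nonempty with h0 | hne
    · rw [h0]; simp
    rcases le_or_gt (R / 4) |(inner ℝ c e : ℝ)| with hce | hce
    · refine le_trans ?_ le_self_add
      have hx : ‖pr e b‖ / R + δ / ρ ≤ 2 ^ (I0 + 1 + 1) * (δ / ρ) := by
        obtain ⟨y, hy⟩ := hne
        have h1 := norm_int (hAc y hy)
        have h2 : ‖pr e y‖ ≤ ‖y‖ := perp_le he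
        have h3 : ‖pr e y - pr e b‖ ≤ δ := hy.1
        have h4 : ‖pr e b‖ ≤ ‖pr e y - pr e b‖ + ‖pr e y‖ := by
          calc ‖pr e b‖ = ‖pr e y - (pr e y - pr e b)‖ := by congr 1; abel
            _ ≤ ‖pr e y‖ + ‖pr e y - pr e b‖ := norm_sub_le _ _
            _ = _ := add_comm _ _
        have h5 : ‖pr e b‖ / R ≤ 2 := by
          rw [div_le_iff₀ hR0]; linarith [h1.2]
        have h6 : δ / ρ ≤ 1 := by rw [div_le_one hρ]; exact hδρ
        have h7 : (2:ℝ) ^ (I0 + 1 + 1) * (δ / ρ) = 4 * (2 ^ I0 * (δ / ρ)) := by ring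
        rw [h7]; linarith
      have hx0 : δ / ρ ≤ ‖pr e b‖ / R + δ / ρ := by
        have : 0 ≤ ‖pr e b‖ / R := by positivity
        linarith
      obtain ⟨j, hj, hj1, hj2⟩ := dyad (I0 + 1) hx0 hx
      refine (hMN2 j e b he hce hj1 hj2).trans ?_
      exact Finset.single_le_sum (f := fun j => MN j e) (fun _ _ => zero_le)
        (Finset.mem_range.2 (by omega))
    · refine le_trans ?_ le_add_self
      have hbR : 5 / 8 * R ≤ ‖pr e b‖ := by
        obtain ⟨y, hy⟩ := hne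
        exact pr_b_large hδρ hρ hρc he hce hy.1 (hAc y hy)
      set L : ℕ → Set (E 3) := fun j => if j = 0 then {y | |(inner ℝ y e : ℝ)| ≤ 2 * (δ / ρ) * R}
        else {y | 2 ^ j * (δ / ρ) * R ≤ |(inner ℝ y e : ℝ)| ∧
          |(inner ℝ y e : ℝ)| ≤ 2 * (2 ^ j * (δ / ρ)) * R} with hL
      have cin : Continuous (fun y : E 3 => |(inner ℝ y e : ℝ)|) := by fun_prop
      have hLm : ∀ j, MeasurableSet (L j) := by
        intro j
        simp only [hL]
        split_ifs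
        · exact (isClosed_le cin continuous_const).measurableSet
        · exact ((isClosed_le continuous_const cin).inter
            (isClosed_le cin continuous_const)).measurableSet
      have hcov : ∀ y ∈ A, ∃ j ∈ Finset.range (I0 + 1), y ∈ L j := by
        intro y hy
        rcases le_or_gt |(inner ℝ y e : ℝ)| (2 * (δ / ρ) * R) with h1 | h1
        · exact ⟨0, Finset.mem_range.2 (by omega), by simpa [hL] using h1⟩
        · have h2 : |(inner ℝ y e : ℝ)| ≤ R := by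
            have h4 := inner_close he (hAc y hy)
            have e3 : (inner ℝ y e : ℝ) = (inner ℝ y e - inner ℝ c e) + inner ℝ c e := by ring
            calc |(inner ℝ y e : ℝ)| = |((inner ℝ y e : ℝ) - inner ℝ c e) + inner ℝ c e| := by
                  rw [← e3]
              _ ≤ |(inner ℝ y e : ℝ) - inner ℝ c e| + |(inner ℝ c e : ℝ)| := abs_add_le _ _
              _ ≤ _ := by linarith
          have h3 : |(inner ℝ y e : ℝ)| ≤ 2 ^ (I0 + 1) * (δ / ρ * R) := by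
            have h5 : (1:ℝ) * R ≤ (2 ^ I0 * (δ / ρ)) * R := by gcongr
            have h6 : (2:ℝ) ^ (I0 + 1) * (δ / ρ * R) = 2 * ((2 ^ I0 * (δ / ρ)) * R) := by ring
            rw [h6]; linarith
          have h3' : δ / ρ * R ≤ |(inner ℝ y e : ℝ)| := by
            have : 0 ≤ δ / ρ * R := by positivity
            linarith
          obtain ⟨j, hj, hj1, hj2⟩ := dyad I0 h3' h3
          refine ⟨j, Finset.mem_range.2 (by omega), ?_⟩
          simp only [hL]
          split_ifs with h0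
          · exfalso
            subst h0
            rw [pow_zero, one_mul] at hj2
            linarith
          · refine ⟨?_, ?_⟩
            · rw [mul_assoc]; exact hj1
            · have e4 : 2 * (2 ^ j * (δ / ρ)) * R = 2 * (2 ^ j * (δ / ρ * R)) := by ring
              rw [e4]; exact hj2
      have hsm : ∀ j, MeasurableSet (A ∩ L j) := fun j => hAm.inter (hLm j)
      have hFm : Measurable (fun y : E 3 => h ‖y‖ * g y) := (hh.comp measurable_norm).mul hg
      have h1 : ∫⁻ y in A, h ‖y‖ * g y ≤ ∑ j ∈ Finset.range (I0 + 1),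
          ∫⁻ y in A ∩ L j, h ‖y‖ * g y := by
        rw [← lintegral_indicator hAm]
        simp_rw [← lintegral_indicator (hsm _)]
        rw [← lintegral_finsetSum _ (fun i _ => hFm.indicator (hsm i))]
        apply lintegral_mono
        intro y
        by_cases hy : y ∈ A
        · obtain ⟨j, hj, hyj⟩ := hcov y hy
          have hmem : y ∈ A ∩ L j := ⟨hy, hyj⟩
          rw [indicator_of_mem hy]
          calc h ‖y‖ * g y = (A ∩ L j).indicator (fun y => h ‖y‖ * g y) y :=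
                (indicator_of_mem hmem (fun y => h ‖y‖ * g y)).symm
            _ ≤ _ := Finset.single_le_sum (f := fun j =>
                (A ∩ L j).indicator (fun y => h ‖y‖ * g y) y) (fun _ _ => zero_le) hj
        · rw [indicator_of_notMem hy]; exact zero_le
      calc ((ENNReal.ofReal δ ^ 2)⁻¹ * ∫⁻ y in A, h ‖y‖ * g y) ^ 3
          ≤ (∑ j ∈ Finset.range (I0 + 1), (ENNReal.ofReal δ ^ 2)⁻¹ *
              ∫⁻ y in A ∩ L j, h ‖y‖ * g y) ^ 3 := by
            rw [← Finset.mul_sum]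
            gcongr
        _ ≤ ((Finset.range (I0 + 1)).card : ℝ≥0∞) ^ (3 - 1) * ∑ j ∈ Finset.range (I0 + 1),
              ((ENNReal.ofReal δ ^ 2)⁻¹ * ∫⁻ y in A ∩ L j, h ‖y‖ * g y) ^ 3 :=
            sum_pow_le _ _ (by norm_num)
        _ ≤ N ^ 2 * ∑ j ∈ Finset.range (I0 + 1), MT j e := by
            rw [Finset.card_range, ← hN]
            gcongr with j hj
            apply hMT2 j e b (A ∩ L j) he hce (hsm j)
            · rintro y ⟨hyA, hyL⟩
              refine ⟨hyA.1, hAc y hyA, ?_⟩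
              simp only [hL] at hyL
              split_ifs at hyL with h0
              · subst h0
                rw [pow_zero, one_mul]; exact hyL
              · exact hyL.2
            · intro _
              by_cases h0 : j = 0
              · have hb := h_bottom (A := A ∩ L j) hδ hδρ hρc hh he hbR (hsm j)
                  (fun y hy => ⟨hy.1.1, hAc y hy.1⟩)
                rw [h0, pow_zero, one_mul]
                rw [h0] at hb
                exact hb
              · apply h_level (A := A ∩ L j) hδ hρ hρc (by positivity) hh he (hsm j)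
                rintro y ⟨hyA, hyL⟩
                refine ⟨hyA.1, hAc y hyA, ?_⟩
                simp only [hL, if_neg h0] at hyL
                exact hyL.1
  · have hMNd : ∀ j ∈ Finset.range (I0 + 2), Measurable (fun x : E 3 => MN j (‖x‖⁻¹ • x)) :=
      fun j _ => (hMN1 j).comp hmd
    have hMTd : ∀ j ∈ Finset.range (I0 + 1), Measurable (fun x : E 3 => MT j (‖x‖⁻¹ • x)) :=
      fun j _ => (hMT1 j).comp hmd
    set Q : ℝ≥0∞ := ENNReal.ofReal (C0 * Real.log (1 + 48 * ρ / δ)) *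
      ∫⁻ x in closedBall c (7 * ρ), (h ‖x‖ * G x) ^ 3 with hQ
    have hC : (0:ℝ) ≤ C0 := by unfold C0; norm_num
    have hlog : 0 ≤ Real.log (1 + 48 * ρ / δ) := Real.log_nonneg (by
      have : 0 ≤ 48 * ρ / δ := by positivity
      linarith)
    rw [lintegral_add_left (Finset.measurable_sum _ hMNd), lintegral_finsetSum _ hMNd,
      lintegral_const_mul _ (Finset.measurable_sum _ hMTd), lintegral_finsetSum _ hMTd]
    calc (∑ j ∈ Finset.range (I0 + 2), ∫⁻ x in closedBall (0 : E 3) 1, MN j (‖x‖⁻¹ • x)) +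
          N ^ 2 * (∑ j ∈ Finset.range (I0 + 1), ∫⁻ x in closedBall (0 : E 3) 1, MT j (‖x‖⁻¹ • x))
        ≤ (∑ j ∈ Finset.range (I0 + 2), Q) + N ^ 2 * (∑ j ∈ Finset.range (I0 + 1), Q) := by
          gcongr with j hj j hj
          · exact hMN3 j
          · exact hMT3 j
      _ = (((I0 + 2 : ℕ) : ℝ≥0∞) + N ^ 2 * N) * Q := by
          rw [Finset.sum_const, Finset.sum_const, Finset.card_range, Finset.card_range,
            nsmul_eq_mul, nsmul_eq_mul, ← hN]
          ring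
      _ ≤ ENNReal.ofReal (2 * ((I0:ℝ) + 2) ^ 3) * Q := by
          gcongr
          have e1 : ((I0 + 2 : ℕ) : ℝ≥0∞) = ENNReal.ofReal ((I0:ℝ) + 2) := by
            rw [← ENNReal.ofReal_natCast]; congr 1; push_cast; ring
          have e2 : N = ENNReal.ofReal ((I0:ℝ) + 1) := by
            rw [hN, ← ENNReal.ofReal_natCast]; congr 1; push_cast; ring
          have hI : (0:ℝ) ≤ I0 := I0.cast_nonneg
          rw [e1, e2, ← pow_succ, ← ENNReal.ofReal_pow (by positivity),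
            ← ENNReal.ofReal_add (by positivity) (by positivity)]
          apply ENNReal.ofReal_le_ofReal
          have h1 : ((I0:ℝ) + 1) ^ (2 + 1) ≤ (I0 + 2) ^ 3 := by
            have : ((I0:ℝ) + 1) ^ 3 ≤ (I0 + 2) ^ 3 := by gcongr; norm_num
            exact this
          have h2 : (I0:ℝ) + 2 ≤ (I0 + 2) ^ 3 := by
            calc (I0:ℝ) + 2 = (I0 + 2) ^ 1 := (pow_one _).symm
              _ ≤ _ := pow_le_pow_right₀ (by linarith) (by norm_num)
          linarith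
      _ = _ := by
          rw [hQ, ← mul_assoc, ← ENNReal.ofReal_mul (by positivity)]
          congr 2
          ring

end Pool.Agent.NH22.RS
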