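import Pool.Agent.NH22.RS.H

set_option autoImplicit false

/-!
# Balls centred at the points of a lattice
-/

open MeasureTheory Set Filter Topology ENNReal NNReal Metric

namespace Pool.Agent.NH22.RS

open Pool.Agent.H742R2.Kk Pool.Agent.W767.Kc Pool.Agent.W767.Sd Pool.Agent.TH970.Kr

/-- The points of the lattice. -/
noncomputable def cz (ρ : ℝ) (z : Fin 3 → ℤ) : E 3 := WithLp.toLp 2 (fun i => ρ * (z i : ℝ))

theorem cz_apply (ρ : ℝ) (z : Fin 3 → ℤ) (i : Fin 3) : cz ρ z i = ρ * (z i : ℝ) := rfl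

theorem cz_cover {ρ : ℝ} (hρ : 0 < ρ) (y : E 3) : ∃ z, ‖y - cz ρ z‖ ≤ ρ := by
  refine ⟨fun i => round (y i / ρ), ?_⟩
  have h1 : ∀ i, |y i - cz ρ (fun i => round (y i / ρ)) i| ≤ ρ / 2 := by
    intro i
    rw [cz_apply]
    have h2 := abs_sub_round (y i / ρ)
    have e1 : y i - ρ * (round (y i / ρ) : ℝ) = ρ * (y i / ρ - round (y i / ρ)) := by
      field_simp
    rw [e1, abs_mul, abs_of_pos hρ]
    calc ρ * |y i / ρ - round (y i / ρ)| ≤ ρ * (1 / 2) := by gcongr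
      _ = ρ / 2 := by ring
  have h2 : ‖y - cz ρ (fun i => round (y i / ρ))‖ ^ 2 ≤ ρ ^ 2 := by
    rw [EuclideanSpace.norm_sq_eq, Fin.sum_univ_three]
    have h3 : ∀ i, ‖(y - cz ρ (fun i => round (y i / ρ))) i‖ ^ 2 ≤ (ρ / 2) ^ 2 := by
      intro i
      rw [PiLp.sub_apply, Real.norm_eq_abs]
      exact pow_le_pow_left₀ (abs_nonneg _) (h1 i) 2
    have a0 := h3 0
    have a1 := h3 1
    have a2 := h3 2
    nlinarith [sq_nonneg ρ]
  exact (pow_le_pow_iff_left₀ (norm_nonneg _) hρ.le (by norm_num)).1 h2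

theorem cz_count {ρ : ℝ} (hρ : 0 < ρ) (x : E 3) (K : ℕ) :
    ∃ J : Finset (Fin 3 → ℤ), J.card ≤ (2 * K + 1) ^ 3 ∧
      ∀ z, ‖cz ρ z - x‖ ≤ K * ρ → z ∈ J := by
  refine ⟨Fintype.piFinset (fun i => Finset.Icc ⌈x i / ρ - K⌉ ⌊x i / ρ + K⌋), ?_, ?_⟩
  · rw [Fintype.card_piFinset]
    have h1 : ∀ i ∈ (Finset.univ : Finset (Fin 3)),
        (Finset.Icc ⌈x i / ρ - K⌉ ⌊x i / ρ + K⌋).card ≤ 2 * K + 1 := by
      intro i _
      rw [Int.card_Icc]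
      have h2 : ⌊x i / ρ + K⌋ + 1 - ⌈x i / ρ - K⌉ ≤ ((2 * K + 1 : ℕ) : ℤ) := by
        have h3 : (⌊x i / ρ + K⌋ : ℝ) ≤ x i / ρ + K := Int.floor_le _
        have h4 : x i / ρ - K ≤ (⌈x i / ρ - K⌉ : ℝ) := Int.le_ceil _
        have h5 : ((⌊x i / ρ + K⌋ + 1 - ⌈x i / ρ - K⌉ : ℤ) : ℝ) ≤ ((2 * K + 1 : ℕ) : ℝ) := by
          push_cast
          linarith
        exact_mod_cast h5
      omega
    calc ∏ i, (Finset.Icc ⌈x i / ρ - K⌉ ⌊x i / ρ + K⌋).card ≤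
        ∏ _i : Fin 3, (2 * K + 1) := Finset.prod_le_prod' h1
      _ = (2 * K + 1) ^ 3 := by simp
  · intro z hz
    rw [Fintype.mem_piFinset]
    intro i
    have h1 : |ρ * (z i : ℝ) - x i| ≤ K * ρ := by
      have h2 := PiLp.norm_apply_le (cz ρ z - x) i
      rw [PiLp.sub_apply, cz_apply, Real.norm_eq_abs] at h2
      exact h2.trans hz
    rw [abs_le] at h1
    rw [Finset.mem_Icc]
    constructor
    · rw [Int.ceil_le, sub_le_iff_le_add, div_le_iff₀ hρ]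
      nlinarith [h1.1]
    · rw [Int.le_floor, ← sub_le_iff_le_add, le_div_iff₀ hρ]
      nlinarith [h1.2]

/-- The sum of the integrals over the balls of the lattice. -/
theorem cz_sum {ρ : ℝ} (hρ : 0 < ρ) {Φ : E 3 → ℝ≥0∞} (hΦ : Measurable Φ) (K : ℕ) :
    ∑' z : Fin 3 → ℤ, ∫⁻ x in closedBall (cz ρ z) (K * ρ), Φ x ≤
      (((2 * K + 1) ^ 3 : ℕ) : ℝ≥0∞) * ∫⁻ x, Φ x := by
  have hm : ∀ z, MeasurableSet (closedBall (cz ρ z) (K * ρ)) :=
    fun z => isClosed_closedBall.measurableSet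
  simp_rw [← lintegral_indicator (hm _)]
  rw [← lintegral_tsum (fun z => (hΦ.indicator (hm z)).aemeasurable),
    ← lintegral_const_mul _ hΦ]
  apply lintegral_mono
  intro x
  simp only
  obtain ⟨J, hJc, hJ⟩ := cz_count hρ x K
  rw [tsum_eq_sum (s := J)]
  · calc ∑ z ∈ J, (closedBall (cz ρ z) (K * ρ)).indicator Φ x ≤ ∑ _z ∈ J, Φ x := by
          apply Finset.sum_le_sum
          intro z _
          exact indicator_le_self _ _ _
      _ = (J.card : ℝ≥0∞) * Φ x := by rw [Finset.sum_const, nsmul_eq_mul]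
      _ ≤ _ := by
          gcongr
  · intro z hz
    apply indicator_of_notMem
    intro hx
    apply hz
    apply hJ
    rw [mem_closedBall, dist_eq_norm] at hx
    rw [norm_sub_rev]; exact hx

/-- The estimate at one scale. -/
theorem one_scale {ρ δ : ℝ} (hδ : 0 < δ) (hδρ : δ ≤ ρ) {I0 : ℕ}
    (hI0 : 1 ≤ 2 ^ I0 * (δ / ρ)) {h : ℝ → ℝ≥0∞} {g G : E 3 → ℝ≥0∞} (hh : Measurable h)
    (hg : Measurable g) (hG : Measurable G) (hgG : RadD g G) :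
    ∃ M : E 3 → ℝ≥0∞, Measurable M ∧
      (∀ (e b z0 : E 3) (X : Set (E 3)), ‖e‖ = 1 → MeasurableSet X →
        (∀ y ∈ X, y ∈ Tb δ e b ∧ ‖y - z0‖ ≤ 20 * ρ ∧ 9 * ρ ≤ ‖y‖) →
        ((ENNReal.ofReal δ ^ 2)⁻¹ * ∫⁻ y in X, h ‖y‖ * g y) ^ 3 ≤ M e) ∧
      ∫⁻ x in closedBall (0 : E 3) 1, M (‖x‖⁻¹ • x) ≤
        ENNReal.ofReal ((43 ^ 3) ^ 2 * 15 ^ 3 * (2 * C0 * ((I0:ℝ) + 2) ^ 3 *
          Real.log (1 + 48 * ρ / δ))) * ∫⁻ x, (h ‖x‖ * G x) ^ 3 := by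
  have hρ : 0 < ρ := hδ.trans_le hδρ
  have hC : (0:ℝ) ≤ C0 := by unfold C0; norm_num
  have hlog : 0 ≤ Real.log (1 + 48 * ρ / δ) := Real.log_nonneg (by
    have : 0 ≤ 48 * ρ / δ := by positivity
    linarith)
  set Kc : ℝ≥0∞ := ENNReal.ofReal (2 * C0 * ((I0:ℝ) + 2) ^ 3 * Real.log (1 + 48 * ρ / δ)) with hKc
  have hball : ∀ z : Fin 3 → ℤ, ∃ M : E 3 → ℝ≥0∞, Measurable M ∧
      (8 * ρ ≤ ‖cz ρ z‖ → ∀ e b : E 3, ‖e‖ = 1 →
        ((ENNReal.ofReal δ ^ 2)⁻¹ * ∫⁻ y in Tb δ e b ∩ closedBall (cz ρ z) ρ, h ‖y‖ * g y) ^ 3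
          ≤ M e) ∧
      ∫⁻ x in closedBall (0 : E 3) 1, M (‖x‖⁻¹ • x) ≤
        Kc * ∫⁻ x in closedBall (cz ρ z) ((7:ℕ) * ρ), (h ‖x‖ * G x) ^ 3 := by
    intro z
    by_cases hz : 8 * ρ ≤ ‖cz ρ z‖
    · obtain ⟨M, h1, h2, h3⟩ := one_ball hδ hδρ hz hI0 hh hg hG hgG
      exact ⟨M, h1, fun _ => h2, by rw [Nat.cast_ofNat]; exact h3⟩
    · refine ⟨fun _ => 0, measurable_const, fun h => absurd h hz, ?_⟩
      simp
  choose M hM1 hM2 hM3 using hball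
  have hmd : Measurable (fun x : E 3 => ‖x‖⁻¹ • x) := measurable_norm.inv.smul measurable_id
  have hFm : Measurable (fun y : E 3 => h ‖y‖ * g y) := (hh.comp measurable_norm).mul hg
  have hFm' : Measurable (fun y : E 3 => (h ‖y‖ * G y) ^ 3) :=
    ((hh.comp measurable_norm).mul hG).pow_const 3
  refine ⟨fun e => (((2 * 21 + 1) ^ 3 : ℕ) : ℝ≥0∞) ^ 2 * ∑' z, M z e,
    (Measurable.tsum hM1).const_mul _, ?_, ?_⟩
  · intro e b z0 X he hXm hX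
    obtain ⟨J, hJc, hJ⟩ := cz_count hρ z0 21
    classical
    set J' := J.filter (fun z => 8 * ρ ≤ ‖cz ρ z‖) with hJ'
    have hcov : ∀ y ∈ X, ∃ z ∈ J', y ∈ closedBall (cz ρ z) ρ := by
      intro y hy
      obtain ⟨z, hz⟩ := cz_cover hρ y
      obtain ⟨-, h2, h3⟩ := hX y hy
      refine ⟨z, ?_, by rw [mem_closedBall, dist_eq_norm]; exact hz⟩
      rw [hJ', Finset.mem_filter]
      constructor
      · apply hJ
        have e1 : cz ρ z - z0 = (y - z0) - (y - cz ρ z) := by abel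
        rw [e1]
        refine (norm_sub_le _ _).trans ?_
        push_cast
        linarith
      · have h4 : ‖y‖ ≤ ‖y - cz ρ z‖ + ‖cz ρ z‖ := by
          calc ‖y‖ = ‖(y - cz ρ z) + cz ρ z‖ := by rw [sub_add_cancel]
            _ ≤ _ := norm_add_le _ _
        linarith
    have hsm : ∀ z, MeasurableSet (X ∩ closedBall (cz ρ z) ρ) := fun z =>
      hXm.inter isClosed_closedBall.measurableSet
    have h1 : ∫⁻ y in X, h ‖y‖ * g y ≤ ∑ z ∈ J',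
        ∫⁻ y in X ∩ closedBall (cz ρ z) ρ, h ‖y‖ * g y := by
      rw [← lintegral_indicator hXm]
      simp_rw [← lintegral_indicator (hsm _)]
      rw [← lintegral_finsetSum _ (fun i _ => hFm.indicator (hsm i))]
      apply lintegral_mono
      intro y
      by_cases hy : y ∈ X
      · obtain ⟨z, hz, hyz⟩ := hcov y hy
        have hmem : y ∈ X ∩ closedBall (cz ρ z) ρ := ⟨hy, hyz⟩
        rw [indicator_of_mem hy]
        calc h ‖y‖ * g y = (X ∩ closedBall (cz ρ z) ρ).indicator (fun y => h ‖y‖ * g y) y :=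
              (indicator_of_mem hmem (fun y => h ‖y‖ * g y)).symm
          _ ≤ _ := Finset.single_le_sum (f := fun z =>
              (X ∩ closedBall (cz ρ z) ρ).indicator (fun y => h ‖y‖ * g y) y)
              (fun _ _ => zero_le) hz
      · rw [indicator_of_notMem hy]; exact zero_le
    calc ((ENNReal.ofReal δ ^ 2)⁻¹ * ∫⁻ y in X, h ‖y‖ * g y) ^ 3
        ≤ (∑ z ∈ J', (ENNReal.ofReal δ ^ 2)⁻¹ *
            ∫⁻ y in X ∩ closedBall (cz ρ z) ρ, h ‖y‖ * g y) ^ 3 := by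
          rw [← Finset.mul_sum]
          gcongr
      _ ≤ (J'.card : ℝ≥0∞) ^ (3 - 1) * ∑ z ∈ J',
            ((ENNReal.ofReal δ ^ 2)⁻¹ * ∫⁻ y in X ∩ closedBall (cz ρ z) ρ, h ‖y‖ * g y) ^ 3 :=
          sum_pow_le _ _ (by norm_num)
      _ ≤ (((2 * 21 + 1) ^ 3 : ℕ) : ℝ≥0∞) ^ 2 * ∑ z ∈ J', M z e := by
          have h5 : J'.card ≤ (2 * 21 + 1) ^ 3 := (Finset.card_filter_le _ _).trans hJc
          refine mul_le_mul' (pow_le_pow_left' (by exact_mod_cast h5) 2)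
            (Finset.sum_le_sum fun z hz => ?_)
          rw [hJ', Finset.mem_filter] at hz
          refine le_trans ?_ (hM2 z hz.2 e b he)
          gcongr
          exact fun y hy => (hX y hy).1
      _ ≤ _ := mul_le_mul' le_rfl (ENNReal.sum_le_tsum J')
  · have hMd : ∀ z, Measurable (fun x : E 3 => M z (‖x‖⁻¹ • x)) := fun z => (hM1 z).comp hmd
    rw [lintegral_const_mul _ (Measurable.tsum hMd), lintegral_tsum (fun z => (hMd z).aemeasurable)]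
    calc (((2 * 21 + 1) ^ 3 : ℕ) : ℝ≥0∞) ^ 2 *
          ∑' z, ∫⁻ x in closedBall (0 : E 3) 1, M z (‖x‖⁻¹ • x)
        ≤ (((2 * 21 + 1) ^ 3 : ℕ) : ℝ≥0∞) ^ 2 *
          ∑' z, Kc * ∫⁻ x in closedBall (cz ρ z) ((7:ℕ) * ρ), (h ‖x‖ * G x) ^ 3 := by
          gcongr with z
          exact hM3 z
      _ = (((2 * 21 + 1) ^ 3 : ℕ) : ℝ≥0∞) ^ 2 *
          (Kc * ∑' z, ∫⁻ x in closedBall (cz ρ z) ((7:ℕ) * ρ), (h ‖x‖ * G x) ^ 3) := by
          rw [ENNReal.tsum_mul_left]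
      _ ≤ (((2 * 21 + 1) ^ 3 : ℕ) : ℝ≥0∞) ^ 2 *
          (Kc * ((((2 * 7 + 1) ^ 3 : ℕ) : ℝ≥0∞) * ∫⁻ x, (h ‖x‖ * G x) ^ 3)) := by
          gcongr
          exact cz_sum hρ hFm' 7
      _ = _ := by
          have e1 : (((2 * 21 + 1) ^ 3 : ℕ) : ℝ≥0∞) ^ 2 = ENNReal.ofReal ((43 ^ 3) ^ 2) := by
            rw [ENNReal.ofReal_pow (by norm_num)]
            congr 1
            norm_num
          have e2 : (((2 * 7 + 1) ^ 3 : ℕ) : ℝ≥0∞) = ENNReal.ofReal (15 ^ 3) := by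
            norm_num
          rw [e1, e2, hKc, ENNReal.ofReal_mul (p := (43 ^ 3) ^ 2 * 15 ^ 3) (by norm_num),
            ENNReal.ofReal_mul (p := (43 ^ 3) ^ 2) (by norm_num)]
          ring

end Pool.Agent.NH22.RS
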