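import Pool.Agent.NH22.RS.I

set_option autoImplicit false

/-!
# The maximal estimate in three dimensions for functions separable in polar coordinates
-/

open MeasureTheory Set Filter Topology ENNReal NNReal Metric

namespace Pool.Agent.NH22.RS

open Pool.Agent.H742R2.Kk Pool.Agent.W767.Kc Pool.Agent.W767.Sd Pool.Agent.TH970.Kr

/-- The core. -/
theorem core {δ : ℝ} (hδ : 0 < δ) {F G' : E 3 → ℝ≥0∞} (hF : Measurable F)
    (hFG : ∀ x, F x ≤ G' x) {X : Set (E 3)} (hX : X ⊆ closedBall (0 : E 3) (9 * δ)) :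
    ((ENNReal.ofReal δ ^ 2)⁻¹ * ∫⁻ y in X, F y) ^ 3 ≤
      ENNReal.ofReal ((729 * V3) ^ 2) * ∫⁻ y, G' y ^ 3 := by
  have hV := V3_nonneg
  have hvol : volume (closedBall (0 : E 3) (9 * δ)) =
      ENNReal.ofReal δ ^ 3 * ENNReal.ofReal (729 * V3) := by
    rw [Measure.addHaar_closedBall' volume (0 : E 3) (by positivity), V3_eq,
      ← ENNReal.ofReal_pow hδ.le, ← ENNReal.ofReal_mul (by positivity),
      ← ENNReal.ofReal_mul (by positivity)]
    congr 1
    simp only [finrank_euclideanSpace, Fintype.card_fin]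
    ring
  set P : ℝ≥0∞ := ENNReal.ofReal δ with hP
  have hP0 : P ≠ 0 := by simpa [hP] using hδ
  have hPt : P ≠ ∞ := ENNReal.ofReal_ne_top
  have h1 : (∫⁻ y in closedBall (0 : E 3) (9 * δ), F y) ^ 3 ≤
      (∫⁻ y, G' y ^ 3) * (P ^ 3 * ENNReal.ofReal (729 * V3)) ^ 2 := by
    have h := holder3 (volume.restrict (closedBall (0 : E 3) (9 * δ))) (f := F) (g := fun _ => 1)
      hF measurable_const
    simp only [mul_one, ENNReal.one_rpow, lintegral_const, Measure.restrict_apply_univ, one_mul]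
      at h
    rw [hvol] at h
    refine h.trans (mul_le_mul' ?_ le_rfl)
    refine (setLIntegral_le_lintegral _ _).trans (lintegral_mono fun y => ?_)
    have := hFG y
    simp only
    gcongr
  calc ((P ^ 2)⁻¹ * ∫⁻ y in X, F y) ^ 3
      ≤ ((P ^ 2)⁻¹ * ∫⁻ y in closedBall (0 : E 3) (9 * δ), F y) ^ 3 := by
        gcongr
    _ = ((P ^ 2)⁻¹) ^ 3 * (∫⁻ y in closedBall (0 : E 3) (9 * δ), F y) ^ 3 := mul_pow _ _ _
    _ ≤ ((P ^ 2)⁻¹) ^ 3 * ((∫⁻ y, G' y ^ 3) * (P ^ 3 * ENNReal.ofReal (729 * V3)) ^ 2) := by gcongr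
    _ = (((P ^ 2)⁻¹) ^ 3 * (P ^ 2) ^ 3) * (ENNReal.ofReal (729 * V3) ^ 2 * ∫⁻ y, G' y ^ 3) := by
        ring
    _ = _ := by
        rw [← mul_pow, ENNReal.inv_mul_cancel (pow_ne_zero _ hP0) (ENNReal.pow_ne_top hPt),
          one_pow, one_mul, ENNReal.ofReal_pow (by positivity)]

/-- A constant. -/
noncomputable def C3 : ℝ := V3 * (729 * V3) ^ 2 + (43 ^ 3) ^ 2 * 15 ^ 3 * (2 * C0 * 3)

theorem C3_nonneg : 0 ≤ C3 := by
  have := V3_nonneg
  unfold C3 C0
  positivity

/-- The maximal estimate for functions that are separable in polar coordinates. -/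
theorem sep_aux {δ : ℝ} (hδ : 0 < δ) (hδ1 : δ ≤ 1) {I0 : ℕ} (hI0 : 1 ≤ 2 ^ I0 * δ)
    {h : ℝ → ℝ≥0∞} {g G : E 3 → ℝ≥0∞} (hh : Measurable h) (hg : Measurable g)
    (hG : Measurable G) (hgG : RadD g G) :
    PM 2 δ (ENNReal.ofReal (((I0:ℝ) + 2) ^ 2 * (C3 * ((I0:ℝ) + 2) ^ 5)))
      (fun y => h ‖y‖ * g y) (fun y => h ‖y‖ * G y) := by
  set F : E 3 → ℝ≥0∞ := fun y => h ‖y‖ * g y with hF
  set G' : E 3 → ℝ≥0∞ := fun y => h ‖y‖ * G y with hG'
  have hFm : Measurable F := (hh.comp measurable_norm).mul hg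
  have hG'm : Measurable G' := (hh.comp measurable_norm).mul hG
  have hFG : ∀ x, F x ≤ G' x := by
    intro x
    simp only [hF, hG']
    have := hgG x 1 (by norm_num)
    rw [one_smul] at this
    gcongr
  set I := ∫⁻ y, G' y ^ 3 with hI
  have hsc : ∀ k : ℕ, ∃ M : E 3 → ℝ≥0∞, Measurable M ∧
      (∀ (e b z0 : E 3) (X : Set (E 3)), ‖e‖ = 1 → MeasurableSet X →
        (∀ y ∈ X, y ∈ Tb δ e b ∧ ‖y - z0‖ ≤ 20 * (2 ^ k * δ) ∧ 9 * (2 ^ k * δ) ≤ ‖y‖) →
        ((ENNReal.ofReal δ ^ 2)⁻¹ * ∫⁻ y in X, F y) ^ 3 ≤ M e) ∧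
      ∫⁻ x in closedBall (0 : E 3) 1, M (‖x‖⁻¹ • x) ≤
        ENNReal.ofReal ((43 ^ 3) ^ 2 * 15 ^ 3 * (2 * C0 * ((k:ℝ) + 2) ^ 3 *
          Real.log (1 + 48 * (2 ^ k * δ) / δ))) * I := by
    intro k
    have h1 : (1:ℝ) ≤ 2 ^ k := one_le_pow₀ (by norm_num)
    apply one_scale hδ (by nlinarith) _ hh hg hG hgG
    have e1 : (2:ℝ) ^ k * (δ / (2 ^ k * δ)) = 1 := by field_simp
    rw [e1]
  choose M hM1 hM2 hM3 using hsc
  have hmd : Measurable (fun x : E 3 => ‖x‖⁻¹ • x) := measurable_norm.inv.smul measurable_id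
  set N : ℝ≥0∞ := ((I0 + 2 : ℕ) : ℝ≥0∞) with hN
  refine ⟨fun e => N ^ 2 * (ENNReal.ofReal ((729 * V3) ^ 2) * I +
    ∑ k ∈ Finset.range (I0 + 1), M k e),
    (measurable_const.add (Finset.measurable_sum _ (fun k _ => hM1 k))).const_mul _, ?_, ?_⟩
  · intro e b he
    set T := cyl δ 1 e b with hT
    have hTm : MeasurableSet T := (isClosed_cyl δ 1 e b).measurableSet
    -- the regions
    set W : ℕ → Set (E 3) := fun k => if k = 0 then {y | ‖y‖ ≤ 9 * δ} else
      if k = I0 + 1 then {y | 9 * (2 ^ I0 * δ) ≤ ‖y‖} else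
        {y | 9 * (2 ^ (k - 1) * δ) ≤ ‖y‖ ∧ ‖y‖ ≤ 18 * (2 ^ (k - 1) * δ)} with hW
    have cn : Continuous (fun y : E 3 => ‖y‖) := continuous_norm
    have hWm : ∀ k, MeasurableSet (W k) := by
      intro k
      simp only [hW]
      split_ifs
      · exact (isClosed_le cn continuous_const).measurableSet
      · exact (isClosed_le continuous_const cn).measurableSet
      · exact ((isClosed_le continuous_const cn).inter
          (isClosed_le cn continuous_const)).measurableSet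
    have hcov : ∀ y : E 3, ∃ k ∈ Finset.range (I0 + 2), y ∈ W k := by
      intro y
      rcases le_or_gt ‖y‖ (9 * δ) with h1 | h1
      · exact ⟨0, Finset.mem_range.2 (by omega), by simpa [hW] using h1⟩
      · rcases le_or_gt (9 * (2 ^ I0 * δ)) ‖y‖ with h2 | h2
        · refine ⟨I0 + 1, Finset.mem_range.2 (by omega), ?_⟩
          simp only [hW]
          rw [if_neg (by omega), if_pos trivial]
          exact h2
        · have hI1 : I0 ≠ 0 := by
            rintro rfl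
            rw [pow_zero, one_mul] at h2
            linarith
          obtain ⟨K, rfl⟩ : ∃ K, I0 = K + 1 := ⟨I0 - 1, by omega⟩
          have h3 : ‖y‖ ≤ 2 ^ (K + 1) * (9 * δ) := by
            have e1 : (2:ℝ) ^ (K + 1) * (9 * δ) = 9 * (2 ^ (K + 1) * δ) := by ring
            rw [e1]; exact h2.le
          obtain ⟨j, hj, hj1, hj2⟩ := dyad K h1.le h3
          refine ⟨j + 1, Finset.mem_range.2 (by omega), ?_⟩
          simp only [hW]
          rw [if_neg (by omega), if_neg (by omega), Nat.add_sub_cancel]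
          refine ⟨?_, ?_⟩
          · linarith
          · linarith
    have hsm : ∀ k, MeasurableSet (T ∩ W k) := fun k => hTm.inter (hWm k)
    have hTb : ∀ y ∈ T, y ∈ Tb δ e b := by
      intro y hy
      exact mem_cyl_pr hy
    have h1 : ∫⁻ y in T, F y ≤ ∑ k ∈ Finset.range (I0 + 2), ∫⁻ y in T ∩ W k, F y := by
      rw [← lintegral_indicator hTm]
      simp_rw [← lintegral_indicator (hsm _)]
      rw [← lintegral_finsetSum _ (fun i _ => hFm.indicator (hsm i))]
      apply lintegral_mono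
      intro y
      by_cases hy : y ∈ T
      · obtain ⟨k, hk, hyk⟩ := hcov y
        have hmem : y ∈ T ∩ W k := ⟨hy, hyk⟩
        rw [indicator_of_mem hy]
        calc F y = (T ∩ W k).indicator F y := (indicator_of_mem hmem _).symm
          _ ≤ _ := Finset.single_le_sum (f := fun k => (T ∩ W k).indicator F y)
              (fun _ _ => zero_le) hk
      · rw [indicator_of_notMem hy]; exact zero_le
    calc ((ENNReal.ofReal δ ^ 2)⁻¹ * ∫⁻ y in T, F y) ^ (2 + 1)
        ≤ (∑ k ∈ Finset.range (I0 + 2), (ENNReal.ofReal δ ^ 2)⁻¹ *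
            ∫⁻ y in T ∩ W k, F y) ^ 3 := by
          rw [← Finset.mul_sum]
          gcongr
      _ ≤ ((Finset.range (I0 + 2)).card : ℝ≥0∞) ^ (3 - 1) * ∑ k ∈ Finset.range (I0 + 2),
            ((ENNReal.ofReal δ ^ 2)⁻¹ * ∫⁻ y in T ∩ W k, F y) ^ 3 :=
          sum_pow_le _ _ (by norm_num)
      _ ≤ N ^ 2 * (ENNReal.ofReal ((729 * V3) ^ 2) * I +
            ∑ k ∈ Finset.range (I0 + 1), M k e) := by
          rw [Finset.card_range, ← hN, Finset.sum_range_succ' _ (I0 + 1)]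
          refine mul_le_mul' le_rfl ?_
          rw [add_comm]
          refine add_le_add ?_ (Finset.sum_le_sum fun k hk => ?_)
          · apply core hδ hFm hFG
            rintro y ⟨-, hy⟩
            rw [mem_closedBall_zero_iff]
            simpa [hW] using hy
          · rw [Finset.mem_range] at hk
            by_cases hkI : k = I0
            · subst hkI
              apply hM2 k e b b (T ∩ W (k + 1)) he (hsm _)
              rintro y ⟨hyT, hyW⟩
              refine ⟨hTb y hyT, ?_, ?_⟩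
              · have h2 : ‖y - b‖ ≤ 2 := by
                  have h3 := hyT.1
                  have h4 := hyT.2
                  calc ‖y - b‖ = ‖((y - b) - (inner ℝ (y - b) e : ℝ) • e) +
                        (inner ℝ (y - b) e : ℝ) • e‖ := by rw [sub_add_cancel]
                    _ ≤ ‖(y - b) - (inner ℝ (y - b) e : ℝ) • e‖ +
                        ‖(inner ℝ (y - b) e : ℝ) • e‖ := norm_add_le _ _
                    _ ≤ δ + 1 := by
                        refine add_le_add h4 ?_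
                        rw [norm_smul, he, mul_one, Real.norm_eq_abs]
                        exact h3
                    _ ≤ 2 := by linarith
                linarith
              · simp only [hW] at hyW
                rw [if_neg (by omega), if_pos trivial] at hyW
                exact hyW
            · apply hM2 k e b 0 (T ∩ W (k + 1)) he (hsm _)
              rintro y ⟨hyT, hyW⟩
              simp only [hW] at hyW
              rw [if_neg (by omega), if_neg (by omega), Nat.add_sub_cancel] at hyW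
              refine ⟨hTb y hyT, ?_, hyW.1⟩
              rw [sub_zero]
              have : 0 < 2 ^ k * δ := by positivity
              linarith [hyW.2]
  · have hMd : ∀ k ∈ Finset.range (I0 + 1), Measurable (fun x : E 3 => M k (‖x‖⁻¹ • x)) :=
      fun k _ => (hM1 k).comp hmd
    have hC : (0:ℝ) ≤ C0 := by unfold C0; norm_num
    have hI00 : (0:ℝ) ≤ I0 := I0.cast_nonneg
    have hV := V3_nonneg
    change ∫⁻ x in closedBall (0 : E 3) 1, N ^ 2 * (ENNReal.ofReal ((729 * V3) ^ 2) * I +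
      ∑ k ∈ Finset.range (I0 + 1), M k (‖x‖⁻¹ • x)) ≤ _
    have hsum : Measurable (fun x : E 3 => ENNReal.ofReal ((729 * V3) ^ 2) * I +
        ∑ k ∈ Finset.range (I0 + 1), M k (‖x‖⁻¹ • x)) :=
      measurable_const.add (Finset.measurable_fun_sum _ hMd)
    rw [lintegral_const_mul _ hsum,
      lintegral_add_left measurable_const, lintegral_finsetSum _ hMd, lintegral_const,
      Measure.restrict_apply_univ, V3_eq]
    have hterm : ∀ k ∈ Finset.range (I0 + 1), ∫⁻ x in closedBall (0 : E 3) 1, M k (‖x‖⁻¹ • x) ≤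
        ENNReal.ofReal ((43 ^ 3) ^ 2 * 15 ^ 3 * (2 * C0 * 3 * ((I0:ℝ) + 2) ^ 4)) * I := by
      intro k hk
      rw [Finset.mem_range] at hk
      refine (hM3 k).trans (mul_le_mul' (ENNReal.ofReal_le_ofReal ?_) le_rfl)
      have hk' : (k:ℝ) ≤ I0 := by exact_mod_cast Nat.lt_succ_iff.1 hk
      have hk0 : (0:ℝ) ≤ k := k.cast_nonneg
      have hlog : Real.log (1 + 48 * (2 ^ k * δ) / δ) ≤ 3 * (k + 2) := by
        have e1 : 48 * (2 ^ k * δ) / δ = 48 * 2 ^ k := by field_simp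
        have h1 : (1:ℝ) ≤ 2 ^ k := one_le_pow₀ (by norm_num)
        rw [e1]
        calc Real.log (1 + 48 * 2 ^ k) ≤ Real.log (2 ^ (k + 6)) := by
              apply Real.log_le_log (by positivity)
              rw [pow_add]
              nlinarith
          _ = (k + 6) * Real.log 2 := by rw [Real.log_pow]; push_cast; ring
          _ ≤ (k + 6) * 1 := by
              gcongr
              have := Real.log_two_lt_d9
              linarith
          _ ≤ _ := by linarith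
      calc (43 ^ 3) ^ 2 * 15 ^ 3 * (2 * C0 * ((k:ℝ) + 2) ^ 3 *
          Real.log (1 + 48 * (2 ^ k * δ) / δ))
          ≤ (43 ^ 3) ^ 2 * 15 ^ 3 * (2 * C0 * ((k:ℝ) + 2) ^ 3 * (3 * (k + 2))) := by gcongr
        _ = (43 ^ 3) ^ 2 * 15 ^ 3 * (2 * C0 * 3 * ((k:ℝ) + 2) ^ 4) := by ring
        _ ≤ _ := by gcongr
    calc N ^ 2 * (ENNReal.ofReal ((729 * V3) ^ 2) * I * ENNReal.ofReal V3 +
          ∑ k ∈ Finset.range (I0 + 1), ∫⁻ x in closedBall (0 : E 3) 1, M k (‖x‖⁻¹ • x))
        ≤ N ^ 2 * (ENNReal.ofReal ((729 * V3) ^ 2) * I * ENNReal.ofReal V3 +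
          ∑ k ∈ Finset.range (I0 + 1),
            ENNReal.ofReal ((43 ^ 3) ^ 2 * 15 ^ 3 * (2 * C0 * 3 * ((I0:ℝ) + 2) ^ 4)) * I) := by
          gcongr with k hk
          exact hterm k hk
      _ = N ^ 2 * ((ENNReal.ofReal (V3 * (729 * V3) ^ 2) + ENNReal.ofReal ((I0:ℝ) + 1) *
            ENNReal.ofReal ((43 ^ 3) ^ 2 * 15 ^ 3 * (2 * C0 * 3 * ((I0:ℝ) + 2) ^ 4))) * I) := by
          rw [Finset.sum_const, Finset.card_range, nsmul_eq_mul, ENNReal.ofReal_mul hV]
          have e1 : ((I0 + 1 : ℕ) : ℝ≥0∞) = ENNReal.ofReal ((I0:ℝ) + 1) := by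
            rw [← ENNReal.ofReal_natCast]; congr 1; push_cast; ring
          rw [e1]
          ring
      _ ≤ N ^ 2 * (ENNReal.ofReal (C3 * ((I0:ℝ) + 2) ^ 5) * I) := by
          gcongr N ^ 2 * (?_ * I)
          rw [← ENNReal.ofReal_mul (by positivity), ← ENNReal.ofReal_add (by positivity)
            (by positivity)]
          apply ENNReal.ofReal_le_ofReal
          have h1 : (1:ℝ) ≤ ((I0:ℝ) + 2) ^ 5 := one_le_pow₀ (by linarith)
          have h2 : ((I0:ℝ) + 1) * ((43 ^ 3) ^ 2 * 15 ^ 3 * (2 * C0 * 3 * ((I0:ℝ) + 2) ^ 4)) ≤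
              ((I0:ℝ) + 2) * ((43 ^ 3) ^ 2 * 15 ^ 3 * (2 * C0 * 3 * ((I0:ℝ) + 2) ^ 4)) := by
            gcongr
            norm_num
          have h3 : V3 * (729 * V3) ^ 2 ≤ V3 * (729 * V3) ^ 2 * ((I0:ℝ) + 2) ^ 5 :=
            le_mul_of_one_le_right (by positivity) h1
          calc V3 * (729 * V3) ^ 2 + ((I0:ℝ) + 1) *
                ((43 ^ 3) ^ 2 * 15 ^ 3 * (2 * C0 * 3 * ((I0:ℝ) + 2) ^ 4))
              ≤ V3 * (729 * V3) ^ 2 * ((I0:ℝ) + 2) ^ 5 + ((I0:ℝ) + 2) *
                ((43 ^ 3) ^ 2 * 15 ^ 3 * (2 * C0 * 3 * ((I0:ℝ) + 2) ^ 4)) := add_le_add h3 h2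
            _ = _ := by unfold C3; ring
      _ = _ := by
          have eN : N ^ 2 = ENNReal.ofReal (((I0:ℝ) + 2) ^ 2) := by
            rw [hN, ← ENNReal.ofReal_natCast, ← ENNReal.ofReal_pow (by positivity)]
            congr 1
            push_cast
            ring
          rw [eN, ← mul_assoc, ← ENNReal.ofReal_mul (by positivity)]

theorem sep3 : ∃ C : ℝ, 0 < C ∧ ∀ ρ : ℝ, 0 < ρ → ρ ≤ 1 → ∀ (h : ℝ → ℝ≥0∞) (g G : E 3 → ℝ≥0∞),
    Measurable h → Measurable g → Measurable G → RadD g G →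
      PM 2 ρ (ENNReal.ofReal (C * (1 + Real.log (1 / ρ)) ^ 7))
        (fun y => h ‖y‖ * g y) (fun y => h ‖y‖ * G y) := by
  have hC := C3_nonneg
  refine ⟨3 ^ 7 * C3 + 1, by positivity, ?_⟩
  intro ρ hρ hρ1 h g G hh hg hG hgG
  have hlog : 0 ≤ Real.log (1 / ρ) := Real.log_nonneg (by rw [le_div_iff₀ hρ]; linarith)
  set L : ℝ := 1 + Real.log (1 / ρ) with hL
  have hL1 : 1 ≤ L := by linarith
  obtain ⟨I0, hI0, hN⟩ := exists_I0 hρ hρ1
  obtain ⟨M, hM1, hM2, hM3⟩ := sep_aux hρ hρ1 hI0 hh hg hG hgG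
  refine ⟨M, hM1, hM2, hM3.trans ?_⟩
  refine mul_le_mul' (ENNReal.ofReal_le_ofReal ?_) le_rfl
  push_cast at hN
  have hI : (0:ℝ) ≤ I0 := I0.cast_nonneg
  calc ((I0:ℝ) + 2) ^ 2 * (C3 * ((I0:ℝ) + 2) ^ 5)
      = C3 * ((I0:ℝ) + 2) ^ 7 := by ring
    _ ≤ C3 * (3 * L) ^ 7 := by gcongr
    _ = 3 ^ 7 * C3 * L ^ 7 := by ring
    _ ≤ _ := by
        gcongr
        linarith

end Pool.Agent.NH22.RS
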