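import Pool.Agent.NH22.RS.J

set_option autoImplicit false

/-!
# Functions whose profiles along the rays are similarly ordered: one ball
-/

open MeasureTheory Set Filter Topology ENNReal NNReal Metric

namespace Pool.Agent.NH22.RS

open Pool.Agent.H742R2.Kk Pool.Agent.W767.Kc Pool.Agent.W767.Sd Pool.Agent.TH970.Kr

open Function in
theorem vol_sub {α : Type*} [MeasurableSpace α] (μ : Measure α) (u : α → ℝ) (s : ℝ≥0∞) :
    μ {x | μ {x' | u x' ≤ u x} < s} ≤ s := by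
  set m : ℝ → ℝ≥0∞ := fun c => μ {x' | u x' ≤ c} with hm
  have hmono : Monotone m := by
    intro c c' hc
    exact measure_mono fun x hx => le_trans hx hc
  by_cases hmax : ∃ a, m a < s ∧ ∀ c, m c < s → c ≤ a
  · obtain ⟨a, ha, hc⟩ := hmax
    calc μ {x | m (u x) < s} ≤ m a := measure_mono fun x hx => hc _ hx
      _ ≤ s := ha.le
  · push Not at hmax
    set t : Set ℚ := {q : ℚ | m q < s} with ht
    have hsub : {x | m (u x) < s} ⊆ ⋃ q ∈ t, {x | u x ≤ (q : ℝ)} := by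
      intro x hx
      obtain ⟨c, hc1, hc2⟩ := hmax (u x) hx
      obtain ⟨q, hq1, hq2⟩ := exists_rat_btwn hc2
      simp only [mem_iUnion]
      exact ⟨q, (hmono hq2.le).trans_lt hc1, hq1.le⟩
    have hdir : DirectedOn ((· ⊆ ·) on fun q : ℚ => {x | u x ≤ (q : ℝ)}) t := by
      intro q hq q' hq'
      rcases le_total q q' with h | h
      · refine ⟨q', hq', ?_, Subset.rfl⟩
        intro x (hx : u x ≤ q)
        exact hx.trans (by exact_mod_cast h)
      · refine ⟨q, hq, Subset.rfl, ?_⟩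
        intro x (hx : u x ≤ q')
        exact hx.trans (by exact_mod_cast h)
    calc μ {x | m (u x) < s} ≤ μ (⋃ q ∈ t, {x | u x ≤ (q : ℝ)}) := measure_mono hsub
      _ = ⨆ q ∈ t, μ {x | u x ≤ (q : ℝ)} :=
          measure_biUnion_eq_iSup (Set.to_countable t) hdir
      _ ≤ s := iSup₂_le fun q hq => le_of_lt hq

theorem meas_VV (μ : Measure ℝ) {u : ℝ → ℝ} (hu : Measurable u) :
    Measurable (fun x => μ {x' | u x' ≤ u x}) := by
  have h : Monotone (fun c : ℝ => μ {x' | u x' ≤ c}) := by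
    intro c c' hc
    exact measure_mono fun x hx => le_trans hx hc
  exact h.measurable.comp hu

/-- Comparison of an average over spheres with the integral over a shell. -/
theorem polar_cmp' {a1 a2 j2 : ℝ} (ha : 0 < a1) {J : Set ℝ} (hJm : MeasurableSet J)
    (hJ : ∀ r ∈ J, 0 < r ∧ r ≤ j2) {Γ : E 3 → ℝ≥0∞} (hΓ : Measurable Γ) :
    ∫⁻ y in {y : E 3 | ‖y‖ ∈ J}, ∫⁻ τ in Icc a1 a2, Γ (τ • (‖y‖⁻¹ • y)) ≤
    volume J * ENNReal.ofReal (j2 ^ 2 / a1 ^ 2) *
      ∫⁻ x in {x : E 3 | ‖x‖ ∈ Icc a1 a2}, Γ x := by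
  set I : Set ℝ := Icc a1 a2 with hI
  have hIm : MeasurableSet I := measurableSet_Icc
  set g : E 3 → ℝ≥0∞ := fun y => ∫⁻ τ in I, Γ (τ • (‖y‖⁻¹ • y)) with hg
  have hgm : Measurable g := by
    have h1 : Measurable (fun p : E 3 × ℝ => Γ (p.2 • (‖p.1‖⁻¹ • p.1))) := by
      apply hΓ.comp
      exact measurable_snd.smul (measurable_fst.norm.inv.smul measurable_fst)
    exact h1.lintegral_prod_right'
  have hhom : ∀ (c : ℝ) (x : E 3), 0 < c → g (c • x) = g x := by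
    intro c x hc
    have e1 : ‖c • x‖⁻¹ • (c • x) = ‖x‖⁻¹ • x := by
      rw [norm_smul, Real.norm_of_nonneg hc.le, mul_inv, smul_smul]
      congr 1
      field_simp
    simp only [hg]
    rw [e1]
  set φ : ℝ → ℝ≥0∞ := J.indicator 1 with hφ
  have hφm : Measurable φ := measurable_one.indicator hJm
  have hdim : Module.finrank ℝ (E 3) - 1 = 2 := by simp
  have hSJ : MeasurableSet {y : E 3 | ‖y‖ ∈ J} := measurable_norm hJm
  have hSI : MeasurableSet {y : E 3 | ‖y‖ ∈ I} := measurable_norm hIm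
  have h1 := Pool.Agent.H624R3.AQ.hom_radial (volume : Measure (E 3)) g hgm hhom φ hφm
  rw [hdim] at h1
  have h2 : ∫⁻ y in {y : E 3 | ‖y‖ ∈ J}, g y = ∫⁻ x, g x * φ ‖x‖ := by
    rw [← lintegral_indicator hSJ]
    apply lintegral_congr
    intro y
    simp only [hφ]
    by_cases hy : y ∈ {y : E 3 | ‖y‖ ∈ J}
    · have hy' : ‖y‖ ∈ J := hy
      rw [indicator_of_mem hy, indicator_of_mem hy']
      simp
    · have hy' : ‖y‖ ∉ J := hy
      rw [indicator_of_notMem hy, indicator_of_notMem hy']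
      simp
  have h3 : ∫⁻ r : Ioi (0 : ℝ), φ r.1 ∂(Measure.volumeIoiPow 2) ≤
      ENNReal.ofReal (j2 ^ 2) * volume J := by
    rw [ioiPow hφm]
    calc ∫⁻ r in Ioi (0 : ℝ), ENNReal.ofReal (r ^ 2) * φ r
        ≤ ∫⁻ r : ℝ, J.indicator (fun _ => ENNReal.ofReal (j2 ^ 2)) r := by
          refine (setLIntegral_le_lintegral _ _).trans (lintegral_mono fun r => ?_)
          simp only [hφ]
          by_cases hr : r ∈ J
          · rw [indicator_of_mem hr, indicator_of_mem hr]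
            simp only [Pi.one_apply, mul_one]
            apply ENNReal.ofReal_le_ofReal
            obtain ⟨h5, h6⟩ := hJ r hr
            gcongr
          · rw [indicator_of_notMem hr, indicator_of_notMem hr, mul_zero]
      _ = _ := lintegral_indicator_const hJm _
  have hf : Measurable (fun x : E 3 => I.indicator 1 ‖x‖ * Γ x) :=
    ((measurable_one.indicator hIm).comp measurable_norm).mul hΓ
  have h4 : ∫⁻ x in {x : E 3 | ‖x‖ ∈ I}, Γ x =
      ∫⁻ x : E 3, I.indicator 1 ‖x‖ * Γ x := by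
    rw [← lintegral_indicator hSI]
    apply lintegral_congr
    intro y
    by_cases hy : y ∈ {y : E 3 | ‖y‖ ∈ I}
    · have hy' : ‖y‖ ∈ I := hy
      rw [indicator_of_mem hy, indicator_of_mem hy']
      simp
    · have hy' : ‖y‖ ∉ I := hy
      rw [indicator_of_notMem hy, indicator_of_notMem hy']
      simp
  have h5 : ENNReal.ofReal (a1 ^ 2) * (∫⁻ θ : sphere (0 : E 3) 1, g θ.1
      ∂(volume : Measure (E 3)).toSphere) ≤ ∫⁻ x in {x : E 3 | ‖x‖ ∈ I}, Γ x := by
    rw [h4, Pool.Agent.H624R3.AQ.polar (volume : Measure (E 3)) _ hf, hdim,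
      ← lintegral_const_mul' _ _ ENNReal.ofReal_ne_top]
    apply lintegral_mono
    intro θ
    simp only
    have hθ : ‖θ.1‖ = 1 := by simp
    have hF : Measurable (fun r : ℝ => I.indicator 1 ‖r • θ.1‖ * Γ (r • θ.1)) :=
      hf.comp (measurable_id.smul measurable_const)
    rw [ioiPow (f := fun r : ℝ => I.indicator 1 ‖r • θ.1‖ * Γ (r • θ.1)) hF]
    simp only [hg]
    rw [hθ, inv_one, one_smul, ← lintegral_const_mul' _ _ ENNReal.ofReal_ne_top]
    have hsub : I ⊆ Ioi (0:ℝ) := fun r hr => ha.trans_le hr.1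
    refine le_trans ?_ (lintegral_mono_set hsub)
    apply setLIntegral_mono' hIm
    intro r hr
    have hr0 : 0 < r := ha.trans_le hr.1
    rw [norm_smul, hθ, mul_one, Real.norm_of_nonneg hr0.le, indicator_of_mem hr, Pi.one_apply,
      one_mul]
    gcongr
    exact hr.1
  rw [h2, h1]
  calc (∫⁻ θ : sphere (0 : E 3) 1, g θ.1 ∂(volume : Measure (E 3)).toSphere) *
        ∫⁻ r : Ioi (0 : ℝ), φ r.1 ∂(Measure.volumeIoiPow 2)
      ≤ (∫⁻ θ : sphere (0 : E 3) 1, g θ.1 ∂(volume : Measure (E 3)).toSphere) *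
        (ENNReal.ofReal (j2 ^ 2) * volume J) := by gcongr
    _ = volume J * ENNReal.ofReal (j2 ^ 2 / a1 ^ 2) * (ENNReal.ofReal (a1 ^ 2) *
        (∫⁻ θ : sphere (0 : E 3) 1, g θ.1 ∂(volume : Measure (E 3)).toSphere)) := by
        have e1 : ENNReal.ofReal (j2 ^ 2) = ENNReal.ofReal (j2 ^ 2 / a1 ^ 2) *
            ENNReal.ofReal (a1 ^ 2) := by
          rw [← ENNReal.ofReal_mul (by positivity)]
          congr 1
          field_simp
        rw [e1]
        ring
    _ ≤ _ := by gcongr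

/-- The radial part on the transversal level. -/
theorem h_NT {c : E 3} {ρ δ : ℝ} (hδ : 0 < δ) (hρ : 0 < ρ) (hρc : 8 * ρ ≤ ‖c‖)
    {h : ℝ → ℝ≥0∞} (hh : Measurable h) {e b : E 3} (he : ‖e‖ = 1)
    (hce : ‖c‖ / 4 ≤ |(inner ℝ c e : ℝ)|)
    {A : Set (E 3)} (hAm : MeasurableSet A)
    (hA : ∀ y ∈ A, y ∈ Tb δ e b ∧ ‖y - c‖ ≤ ρ) :
    ∫⁻ y in A, h ‖y‖ ^ 3 ≤ ENNReal.ofReal (72 * δ ^ 2) *
      ∫⁻ τ in Icc (‖c‖ - ρ) (‖c‖ + ρ), h τ ^ 3 := by
  set R := ‖c‖ with hR
  have hR0 : 0 < R := by linarith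
  obtain ⟨n, hn, hen, hbn⟩ := exists_normal (p := pr e b) he (inner_pr he)
  obtain ⟨bs, hb0, hb1⟩ := exists_basis he hn hen
  have e0 : (bs.reindex (Equiv.swap 0 2)) 0 = bs 2 := by simp
  have e1 : (bs.reindex (Equiv.swap 0 2)) 1 = n := by
    rw [← hb1]; simp [Equiv.swap_apply_of_ne_of_ne]
  have e2 : (bs.reindex (Equiv.swap 0 2)) 2 = e := by rw [← hb0]; simp
  have hev : inner ℝ e (bs 2) = (0:ℝ) := by
    rw [← hb0]; exact bs.inner_eq_zero (by decide)
  have hpart := h_part (bs.reindex (Equiv.swap 0 2)) (A := δ) (B := δ) (u0 := R / 8)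
    (c0 := inner ℝ (pr e b) (bs 2)) (c1 := inner ℝ (pr e b) n) (R1 := R + ρ)
    (by positivity) (hh.pow_const 3) (I := Icc (R - ρ) (R + ρ)) measurableSet_Icc
    (fun τ hτ => hτ.2) hAm (by
      intro y hy
      rw [e0, e1, e2]
      refine ⟨coord_close (bs.norm_eq_one 2) hev (hA y hy).1, coord_close hn hen (hA y hy).1, ?_,
        norm_int (hA y hy).2⟩
      have h4 := inner_close he (hA y hy).2
      have h5 : |(inner ℝ c e : ℝ)| ≤ |(inner ℝ y e : ℝ) - inner ℝ c e| +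
          |(inner ℝ y e : ℝ)| := by
        have e3 : (inner ℝ c e : ℝ) = inner ℝ y e - (inner ℝ y e - inner ℝ c e) := by ring
        calc |(inner ℝ c e : ℝ)| = |(inner ℝ y e : ℝ) - (inner ℝ y e - inner ℝ c e)| := by
              rw [← e3]
          _ ≤ |(inner ℝ y e : ℝ)| + |(inner ℝ y e : ℝ) - inner ℝ c e| := abs_sub _ _
          _ = _ := add_comm _ _
      linarith)
  refine hpart.trans (mul_le_mul' (ENNReal.ofReal_le_ofReal ?_) le_rfl)
  rw [div_le_iff₀ (by positivity)]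
  calc 8 * δ * δ * (R + ρ) ≤ 8 * δ * δ * (9 / 8 * R) := by gcongr; linarith
    _ = 72 * δ ^ 2 * (R / 8) := by ring

/-- The measure of the part of a tube with `‖y‖` in a set `S`. -/
theorem vol_radial {c : E 3} {ρ δ : ℝ} (hδ : 0 < δ) (hδρ : δ ≤ ρ) (hρc : 8 * ρ ≤ ‖c‖)
    {S : Set ℝ} (hS : MeasurableSet S) {e b : E 3} (he : ‖e‖ = 1) :
    volume (Tb δ e b ∩ closedBall c ρ ∩ {y | ‖y‖ ∈ S}) ≤ ENNReal.ofReal (72 * ρ * δ) *
      volume (S ∩ Icc (‖c‖ - ρ) (‖c‖ + ρ)) := by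
  have hρ : 0 < ρ := hδ.trans_le hδρ
  set A : Set (E 3) := Tb δ e b ∩ closedBall c ρ ∩ {y | ‖y‖ ∈ S} with hA
  have hAm : MeasurableSet A :=
    ((isClosed_Tb δ e b).inter isClosed_closedBall).measurableSet.inter (measurable_norm hS)
  have hAc : ∀ y ∈ A, y ∈ Tb δ e b ∧ ‖y - c‖ ≤ ρ := fun y hy => by
    have := hy.1.2
    rw [mem_closedBall, dist_eq_norm] at this
    exact ⟨hy.1.1, this⟩
  rcases A.eq_empty_or_nonempty with h0 | hne
  · rw [h0]; simp
  set h : ℝ → ℝ≥0∞ := S.indicator 1 with hh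
  have hhm : Measurable h := measurable_one.indicator hS
  have e1 : ∫⁻ y in A, h ‖y‖ ^ 3 = volume A := by
    rw [← setLIntegral_one]
    apply setLIntegral_congr_fun hAm
    intro y hy
    have : ‖y‖ ∈ S := hy.2
    simp only [hh]
    rw [indicator_of_mem this]
    simp
  have e2 : ∫⁻ τ in Icc (‖c‖ - ρ) (‖c‖ + ρ), h τ ^ 3 =
      volume (S ∩ Icc (‖c‖ - ρ) (‖c‖ + ρ)) := by
    have h3 : ∀ τ, h τ ^ 3 = S.indicator 1 τ := by
      intro τ
      simp only [hh]
      by_cases hτ : τ ∈ S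
      · rw [indicator_of_mem hτ]; simp
      · rw [indicator_of_notMem hτ]; simp
    simp_rw [h3]
    rw [lintegral_indicator_one hS, Measure.restrict_apply hS]
  rw [← e1, ← e2]
  rcases le_or_gt (‖c‖ / 4) |(inner ℝ c e : ℝ)| with hce | hce
  · refine (h_NT hδ hρ hρc hhm he hce hAm hAc).trans
      (mul_le_mul' (ENNReal.ofReal_le_ofReal ?_) le_rfl)
    nlinarith
  · obtain ⟨y, hy⟩ := hne
    have hbR := pr_b_large hδρ hρ hρc he hce (hAc y hy).1 (hAc y hy).2
    refine (h_bottom hδ hδρ hρc hhm he hbR hAm hAc).trans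
      (mul_le_mul' (ENNReal.ofReal_le_ofReal ?_) le_rfl)
    have e3 : 18 * δ ^ 2 / (δ / ρ) = 18 * ρ * δ := by field_simp
    rw [e3]
    nlinarith [mul_pos hρ hδ]

end Pool.Agent.NH22.RS
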