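import Pool.Agent.NH22.RS.K

set_option autoImplicit false

/-!
# Functions whose profiles along the rays are similarly ordered: the estimate in one ball
-/

open MeasureTheory Set Filter Topology ENNReal NNReal Metric

namespace Pool.Agent.NH22.RS

open Pool.Agent.H742R2.Kk Pool.Agent.W767.Kc Pool.Agent.W767.Sd Pool.Agent.TH970.Kr

/-- Up to the factor `K`, `F` does not increase along a ray (within a factor two) if the quantity
`a ‖x‖` does not increase. -/
def CoR (K : ℝ≥0∞) (a : ℝ → ℝ) (F : E 3 → ℝ≥0∞) : Prop :=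
  ∀ x : E 3, ∀ t ∈ Icc (1 / 2 : ℝ) 2, a (t * ‖x‖) ≤ a ‖x‖ → F (t • x) ≤ K * F x

theorem levels {ρ : ℝ} {v : ℝ≥0∞} (hv : v < ENNReal.ofReal (4 * ρ)) (J : ℕ) :
    v < ENNReal.ofReal (4 * ρ / 2 ^ J) ∨ ∃ j < J, ENNReal.ofReal (4 * ρ / 2 ^ (j + 1)) ≤ v ∧
      v < ENNReal.ofReal (4 * ρ / 2 ^ j) := by
  induction J with
  | zero => left; simpa using hv
  | succ J ih =>
    rcases ih with h | ⟨j, hj, h⟩
    · rcases lt_or_ge v (ENNReal.ofReal (4 * ρ / 2 ^ (J + 1))) with h2 | h2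
      · left; exact h2
      · right; exact ⟨J, by omega, h2, h⟩
    · right; exact ⟨j, by omega, h⟩

/-- The average of `F ^ 3` along the ray through `x`. -/
noncomputable def PP (F : E 3 → ℝ≥0∞) (a1 a2 : ℝ) (x : E 3) : ℝ≥0∞ :=
  ∫⁻ τ in Icc a1 a2, F (τ • (‖x‖⁻¹ • x)) ^ 3

theorem measurable_PP {F : E 3 → ℝ≥0∞} (hF : Measurable F) (a1 a2 : ℝ) :
    Measurable (PP F a1 a2) := by
  have h1 : Measurable (fun p : E 3 × ℝ => F (p.2 • (‖p.1‖⁻¹ • p.1)) ^ 3) := by
    apply Measurable.pow_const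
    apply hF.comp
    exact measurable_snd.smul (measurable_fst.norm.inv.smul measurable_fst)
  exact h1.lintegral_prod_right'

theorem PP_hom {F : E 3 → ℝ≥0∞} {a1 a2 : ℝ} {t : ℝ} (ht : 0 < t) (x : E 3) :
    PP F a1 a2 (t • x) = PP F a1 a2 x := by
  have e1 : ‖t • x‖⁻¹ • (t • x) = ‖x‖⁻¹ • x := by
    rw [norm_smul, Real.norm_of_nonneg ht.le, mul_inv, smul_smul]
    congr 1
    field_simp
  unfold PP
  rw [e1]

theorem V_mul_le {c : E 3} {ρ : ℝ} (hρ : 0 < ρ) (hρc : 8 * ρ ≤ ‖c‖) {a : ℝ → ℝ}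
    (ha : Measurable a) {F : E 3 → ℝ≥0∞} (hF : Measurable F) {K : ℝ≥0∞} (hCo : CoR K a F)
    {x : E 3} (hx : ‖x - c‖ ≤ ρ) :
    (volume.restrict (Icc (‖c‖ - ρ) (‖c‖ + ρ))) {r' | -a r' ≤ -a ‖x‖} * F x ^ 3 ≤
      K ^ 3 * PP F (‖c‖ - ρ) (‖c‖ + ρ) x := by
  set R := ‖c‖ with hR
  set I : Set ℝ := Icc (R - ρ) (R + ρ) with hI
  set S : Set ℝ := {r' | -a r' ≤ -a ‖x‖} with hS
  have hSm : MeasurableSet S := measurableSet_le ha.neg measurable_const
  have hxn := norm_int hx
  have hx0 : 0 < ‖x‖ := by linarith [hxn.1]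
  have hmP : Measurable (fun τ : ℝ => F (τ • (‖x‖⁻¹ • x)) ^ 3) :=
    (hF.comp (measurable_id.smul measurable_const)).pow_const 3
  calc (volume.restrict I) S * F x ^ 3 = ∫⁻ _ in S, F x ^ 3 ∂(volume.restrict I) := by
        rw [setLIntegral_const, mul_comm]
    _ ≤ ∫⁻ τ in S, K ^ 3 * F (τ • (‖x‖⁻¹ • x)) ^ 3 ∂(volume.restrict I) := by
        rw [Measure.restrict_restrict hSm]
        apply setLIntegral_mono' (hSm.inter measurableSet_Icc)
        rintro τ ⟨hτS, hτI⟩
        have hτ0 : 0 < τ := by linarith [hτI.1]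
        rw [← mul_pow]
        apply pow_le_pow_left'
        have h2 : x = (‖x‖ / τ) • (τ • (‖x‖⁻¹ • x)) := by
          rw [smul_smul, smul_smul]
          have e1 : ‖x‖ / τ * τ * ‖x‖⁻¹ = 1 := by field_simp
          rw [e1, one_smul]
        have hn : ‖τ • (‖x‖⁻¹ • x)‖ = τ := by
          rw [norm_smul, norm_smul, norm_inv, norm_norm, inv_mul_cancel₀ hx0.ne', mul_one,
            Real.norm_of_nonneg hτ0.le]
        have h3 := hCo (τ • (‖x‖⁻¹ • x)) (‖x‖ / τ) (by
          constructor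
          · rw [div_le_div_iff₀ (by norm_num) hτ0]
            linarith [hxn.1, hxn.2, hτI.1, hτI.2]
          · rw [div_le_iff₀ hτ0]
            linarith [hxn.1, hxn.2, hτI.1, hτI.2]) (by
          rw [hn]
          have e1 : ‖x‖ / τ * τ = ‖x‖ := by field_simp
          rw [e1]
          have : -a τ ≤ -a ‖x‖ := hτS
          linarith)
        rw [← h2] at h3
        exact h3
    _ ≤ ∫⁻ τ, K ^ 3 * F (τ • (‖x‖⁻¹ • x)) ^ 3 ∂(volume.restrict I) :=
        setLIntegral_le_lintegral _ _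
    _ = _ := by rw [lintegral_const_mul _ hmP]; rfl

/-- The estimate in one ball for one level. -/
theorem ball_level {c : E 3} {ρ δ : ℝ} (hδ : 0 < δ) (hδρ : δ ≤ ρ) (hρc : 8 * ρ ≤ ‖c‖) {I0 : ℕ}
    (hI0 : 1 ≤ 2 ^ I0 * (δ / ρ)) {a : ℝ → ℝ}
    (ha : Measurable a) {F : E 3 → ℝ≥0∞} (hF : Measurable F) {K : ℝ≥0∞}
    (hCo : CoR K a F) (j : ℕ) :
    ∃ M : E 3 → ℝ≥0∞, Measurable M ∧
      (∀ e b : E 3, ‖e‖ = 1 →
        ((ENNReal.ofReal δ ^ 2)⁻¹ * ∫⁻ y in Tb δ e b ∩ closedBall c ρ ∩ {y | ‖y‖ ∈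
          {r | ENNReal.ofReal (4 * ρ / 2 ^ (j + 1)) ≤
            (volume.restrict (Icc (‖c‖ - ρ) (‖c‖ + ρ))) {r' | -a r' ≤ -a r} ∧
            (volume.restrict (Icc (‖c‖ - ρ) (‖c‖ + ρ))) {r' | -a r' ≤ -a r} <
              ENNReal.ofReal (4 * ρ / 2 ^ j)} ∩ Icc (‖c‖ - ρ) (‖c‖ + ρ)}, F y) ^ 3 ≤ M e) ∧
      ∫⁻ x in closedBall (0 : E 3) 1, M (‖x‖⁻¹ • x) ≤
        ENNReal.ofReal (2 * C0 * ((I0:ℝ) + 2) ^ 3 * Real.log (1 + 48 * ρ / δ)) *
          (4 * K ^ 3 * ∫⁻ x in closedBall c (9 * ρ), F x ^ 3) := by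
  have hρ : 0 < ρ := hδ.trans_le hδρ
  set R := ‖c‖ with hR
  have hR0 : 0 < R := by linarith
  set I : Set ℝ := Icc (R - ρ) (R + ρ) with hI
  set μ : Measure ℝ := volume.restrict I with hμ
  set V : ℝ → ℝ≥0∞ := fun r => μ {r' | -a r' ≤ -a r} with hV
  have hVm : Measurable V := meas_VV μ ha.neg
  set Rj : Set ℝ := {r | ENNReal.ofReal (4 * ρ / 2 ^ (j + 1)) ≤ V r ∧
    V r < ENNReal.ofReal (4 * ρ / 2 ^ j)} ∩ I with hRj
  have hRjm : MeasurableSet Rj :=
    ((measurableSet_le measurable_const hVm).inter (measurableSet_lt hVm measurable_const)).inter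
      measurableSet_Icc
  set h : ℝ → ℝ≥0∞ := Rj.indicator 1 with hh
  have hhm : Measurable h := measurable_one.indicator hRjm
  set g : E 3 → ℝ≥0∞ := fun x => (K ^ 3 * ENNReal.ofReal (2 ^ (j + 1) / (4 * ρ)) *
    PP F (R - ρ) (R + ρ) x) ^ (1 / 3 : ℝ) with hg
  have hgm : Measurable g := ((measurable_PP hF _ _).const_mul _).pow_const _
  have hgR : RadD g g := by
    intro x t ht
    simp only [hg]
    rw [PP_hom (by linarith [ht.1])]
  have hcube : ∀ z : ℝ≥0∞, (z ^ (1 / 3 : ℝ)) ^ 3 = z := by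
    intro z
    rw [← ENNReal.rpow_natCast, ← ENNReal.rpow_mul]
    norm_num
  obtain ⟨M, hM1, hM2, hM3⟩ := one_ball hδ hδρ hρc hI0 hhm hgm hgm hgR
  refine ⟨M, hM1, ?_, ?_⟩
  · intro e b he
    refine le_trans ?_ (hM2 e b he)
    set A : Set (E 3) := Tb δ e b ∩ closedBall c ρ with hA
    have hAm : MeasurableSet A := ((isClosed_Tb δ e b).inter isClosed_closedBall).measurableSet
    have hAm2 : MeasurableSet (A ∩ {y | ‖y‖ ∈ Rj}) := hAm.inter (measurable_norm hRjm)
    refine pow_le_pow_left' (mul_le_mul' le_rfl ?_) 3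
    refine le_trans ?_ (lintegral_mono_set (inter_subset_left : A ∩ {y | ‖y‖ ∈ Rj} ⊆ A))
    apply setLIntegral_mono' hAm2
    rintro y ⟨hyA, hyR⟩
    have hyc : ‖y - c‖ ≤ ρ := by
      have := hyA.2; rwa [mem_closedBall, dist_eq_norm] at this
    have hyR' : ‖y‖ ∈ Rj := hyR
    have h1 := V_mul_le hρ hρc ha hF hCo hyc
    have h2 : ENNReal.ofReal (4 * ρ / 2 ^ (j + 1)) * F y ^ 3 ≤ K ^ 3 * PP F (R - ρ) (R + ρ) y :=
      (mul_le_mul' hyR'.1.1 le_rfl).trans h1
    have h3 : F y ^ 3 ≤ K ^ 3 * ENNReal.ofReal (2 ^ (j + 1) / (4 * ρ)) *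
        PP F (R - ρ) (R + ρ) y := by
      have e1 : ENNReal.ofReal (2 ^ (j + 1) / (4 * ρ)) * ENNReal.ofReal (4 * ρ / 2 ^ (j + 1)) = 1 := by
        rw [← ENNReal.ofReal_mul (by positivity)]
        have : (2:ℝ) ^ (j + 1) / (4 * ρ) * (4 * ρ / 2 ^ (j + 1)) = 1 := by field_simp
        rw [this, ENNReal.ofReal_one]
      calc F y ^ 3 = (ENNReal.ofReal (2 ^ (j + 1) / (4 * ρ)) *
            ENNReal.ofReal (4 * ρ / 2 ^ (j + 1))) * F y ^ 3 := by rw [e1, one_mul]
        _ = ENNReal.ofReal (2 ^ (j + 1) / (4 * ρ)) *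
            (ENNReal.ofReal (4 * ρ / 2 ^ (j + 1)) * F y ^ 3) := by ring
        _ ≤ ENNReal.ofReal (2 ^ (j + 1) / (4 * ρ)) * (K ^ 3 * PP F (R - ρ) (R + ρ) y) := by gcongr
        _ = _ := by ring
    simp only [hh]
    rw [indicator_of_mem hyR', Pi.one_apply, one_mul]
    have h4 : F y = (F y ^ 3) ^ (1 / 3 : ℝ) := by
      rw [← ENNReal.rpow_natCast, ← ENNReal.rpow_mul]
      norm_num
    rw [h4]
    exact ENNReal.rpow_le_rpow h3 (by norm_num)
  · refine hM3.trans (mul_le_mul' le_rfl ?_)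
    set Γ : E 3 → ℝ≥0∞ := (closedBall c (9 * ρ)).indicator (fun x => F x ^ 3) with hΓ
    have hbm : MeasurableSet (closedBall c (9 * ρ)) := isClosed_closedBall.measurableSet
    have hΓm : Measurable Γ := (hF.pow_const 3).indicator hbm
    set Q : ℝ≥0∞ := K ^ 3 * ENNReal.ofReal (2 ^ (j + 1) / (4 * ρ)) with hQ
    have hGm : Measurable (fun y : E 3 => ∫⁻ τ in I, Γ (τ • (‖y‖⁻¹ • y))) := by
      have h1 : Measurable (fun p : E 3 × ℝ => Γ (p.2 • (‖p.1‖⁻¹ • p.1))) := by
        apply hΓm.comp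
        exact measurable_snd.smul (measurable_fst.norm.inv.smul measurable_fst)
      exact h1.lintegral_prod_right'
    have h1 : ∫⁻ x in closedBall c (7 * ρ), (h ‖x‖ * g x) ^ 3 ≤
        Q * ∫⁻ y in {y : E 3 | ‖y‖ ∈ Rj}, ∫⁻ τ in I, Γ (τ • (‖y‖⁻¹ • y)) := by
      have hmRj : MeasurableSet {y : E 3 | ‖y‖ ∈ Rj} := measurable_norm hRjm
      rw [← lintegral_const_mul _ hGm, ← lintegral_indicator hmRj,
        ← lintegral_indicator isClosed_closedBall.measurableSet]
      apply lintegral_mono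
      intro x
      by_cases hx : x ∈ closedBall c (7 * ρ)
      · rw [indicator_of_mem hx]
        by_cases hxR : ‖x‖ ∈ Rj
        · have hxR' : x ∈ {y : E 3 | ‖y‖ ∈ Rj} := hxR
          rw [indicator_of_mem hxR']
          simp only [hh]
          rw [indicator_of_mem hxR, Pi.one_apply, one_mul]
          simp only [hg]
          rw [hcube]
          refine mul_le_mul' le_rfl ?_
          unfold PP
          apply setLIntegral_mono' measurableSet_Icc
          intro τ hτ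
          have hx0 : 0 < ‖x‖ := by linarith [hxR.2.1]
          rw [mem_closedBall, dist_eq_norm] at hx
          have hmem : τ • (‖x‖⁻¹ • x) ∈ closedBall c (9 * ρ) := by
            rw [mem_closedBall, dist_eq_norm]
            have e1 : τ • (‖x‖⁻¹ • x) - c = (τ * ‖x‖⁻¹ - 1) • x + (x - c) := by
              rw [smul_smul, sub_smul, one_smul]; abel
            rw [e1]
            refine (norm_add_le _ _).trans ?_
            have h2 : ‖(τ * ‖x‖⁻¹ - 1) • x‖ ≤ 2 * ρ := by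
              rw [norm_smul, Real.norm_eq_abs]
              have e2 : |τ * ‖x‖⁻¹ - 1| * ‖x‖ = |τ - ‖x‖| := by
                rw [← abs_of_pos hx0, ← abs_mul, abs_of_pos hx0]
                congr 1
                field_simp
              rw [e2, abs_le]
              constructor <;> linarith [hτ.1, hτ.2, hxR.2.1, hxR.2.2]
            linarith
          simp only [hΓ]
          rw [indicator_of_mem hmem]
        · simp only [hh]
          rw [indicator_of_notMem hxR]
          simp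
      · rw [indicator_of_notMem hx]; exact zero_le
    have h2 := polar_cmp' (a1 := R - ρ) (a2 := R + ρ) (j2 := R + ρ) (by linarith) hRjm
      (fun r hr => ⟨by linarith [hr.2.1], hr.2.2⟩) hΓm
    have h3 : volume Rj ≤ ENNReal.ofReal (4 * ρ / 2 ^ j) := by
      have e1 : volume Rj = μ Rj := by
        rw [hμ, Measure.restrict_apply hRjm]
        congr 1
        ext r
        simp only [hRj, mem_inter_iff]
        tauto
      rw [e1]
      refine le_trans (measure_mono ?_) (vol_sub μ (fun r => -a r) _)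
      intro r hr
      exact hr.1.2
    have h4 : ∫⁻ x in {x : E 3 | ‖x‖ ∈ Icc (R - ρ) (R + ρ)}, Γ x ≤
        ∫⁻ x in closedBall c (9 * ρ), F x ^ 3 := by
      refine (setLIntegral_le_lintegral _ _).trans (le_of_eq ?_)
      exact lintegral_indicator hbm _
    calc ∫⁻ x in closedBall c (7 * ρ), (h ‖x‖ * g x) ^ 3
        ≤ Q * (volume Rj * ENNReal.ofReal ((R + ρ) ^ 2 / (R - ρ) ^ 2) *
          ∫⁻ x in {x : E 3 | ‖x‖ ∈ Icc (R - ρ) (R + ρ)}, Γ x) :=
          h1.trans (mul_le_mul' le_rfl h2)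
      _ ≤ Q * (ENNReal.ofReal (4 * ρ / 2 ^ j) * ENNReal.ofReal 2 *
          ∫⁻ x in closedBall c (9 * ρ), F x ^ 3) := by
          gcongr
          have h5 : 0 < R - ρ := by linarith
          rw [div_le_iff₀ (by positivity)]
          have h6 : R + ρ ≤ 9 / 7 * (R - ρ) := by linarith
          calc (R + ρ) ^ 2 ≤ (9 / 7 * (R - ρ)) ^ 2 := pow_le_pow_left₀ (by linarith) h6 2
            _ ≤ 2 * (R - ρ) ^ 2 := by nlinarith [sq_nonneg (R - ρ)]
      _ = _ := by
          rw [hQ]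
          have e2 : ENNReal.ofReal (2 ^ (j + 1) / (4 * ρ)) * (ENNReal.ofReal (4 * ρ / 2 ^ j) *
              ENNReal.ofReal 2) = 4 := by
            rw [← ENNReal.ofReal_mul (by positivity), ← ENNReal.ofReal_mul (by positivity)]
            have : (2:ℝ) ^ (j + 1) / (4 * ρ) * (4 * ρ / 2 ^ j * 2) = 4 := by
              rw [pow_succ]
              field_simp
              norm_num
            rw [this]
            norm_num
          calc K ^ 3 * ENNReal.ofReal (2 ^ (j + 1) / (4 * ρ)) *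
                (ENNReal.ofReal (4 * ρ / 2 ^ j) * ENNReal.ofReal 2 *
                ∫⁻ x in closedBall c (9 * ρ), F x ^ 3) =
              (ENNReal.ofReal (2 ^ (j + 1) / (4 * ρ)) * (ENNReal.ofReal (4 * ρ / 2 ^ j) *
              ENNReal.ofReal 2)) * K ^ 3 * ∫⁻ x in closedBall c (9 * ρ), F x ^ 3 := by ring
            _ = _ := by rw [e2]

/-- The estimate in one ball. -/
theorem ball_cm {c : E 3} {ρ δ : ℝ} (hδ : 0 < δ) (hδρ : δ ≤ ρ) (hρc : 8 * ρ ≤ ‖c‖) {I0 : ℕ}
    (hI0 : 1 ≤ 2 ^ I0 * (δ / ρ)) {a : ℝ → ℝ}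
    (ha : Measurable a) {F : E 3 → ℝ≥0∞} (hF : Measurable F) {K : ℝ≥0∞} (hK : 1 ≤ K)
    (hCo : CoR K a F) :
    ∃ M : E 3 → ℝ≥0∞, Measurable M ∧
      (∀ e b : E 3, ‖e‖ = 1 →
        ((ENNReal.ofReal δ ^ 2)⁻¹ * ∫⁻ y in Tb δ e b ∩ closedBall c ρ, F y) ^ 3 ≤ M e) ∧
      ∫⁻ x in closedBall (0 : E 3) 1, M (‖x‖⁻¹ • x) ≤
        ENNReal.ofReal (4 * ((I0:ℝ) + 2) ^ 2 * (5184 * V3 + 16 * C0 * ((I0:ℝ) + 2) ^ 4 *
          Real.log (1 + 48 * ρ / δ))) * (K ^ 3 * ∫⁻ x in closedBall c (9 * ρ), F x ^ 3) := by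
  have hρ : 0 < ρ := hδ.trans_le hδρ
  set R := ‖c‖ with hR
  have hR0 : 0 < R := by linarith
  set I : Set ℝ := Icc (R - ρ) (R + ρ) with hI
  set μ : Measure ℝ := volume.restrict I with hμ
  set V : ℝ → ℝ≥0∞ := fun r => μ {r' | -a r' ≤ -a r} with hV
  have hVm : Measurable V := meas_VV μ ha.neg
  choose M hM1 hM2 hM3 using fun j : ℕ => ball_level hδ hδρ hρc hI0 ha hF hCo j
  set J : ℕ := 2 * I0 + 2 with hJ
  set S : ℕ → Set ℝ := fun j => if j = J then {r | V r < ENNReal.ofReal (4 * ρ / 2 ^ J)} else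
    {r | ENNReal.ofReal (4 * ρ / 2 ^ (j + 1)) ≤ V r ∧
      V r < ENNReal.ofReal (4 * ρ / 2 ^ j)} ∩ I with hS
  have hSm : ∀ j, MeasurableSet (S j) := by
    intro j
    simp only [hS]
    split_ifs
    · exact measurableSet_lt hVm measurable_const
    · exact ((measurableSet_le measurable_const hVm).inter
        (measurableSet_lt hVm measurable_const)).inter measurableSet_Icc
  set N : ℝ≥0∞ := ((J + 1 : ℕ) : ℝ≥0∞) with hN
  set T3 : ℝ≥0∞ := ∫⁻ x in closedBall c (9 * ρ), F x ^ 3 with hT3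
  refine ⟨fun e => N ^ 2 * (ENNReal.ofReal 5184 * T3 + ∑ j ∈ Finset.range J, M j e),
    (measurable_const.add (Finset.measurable_fun_sum _ (fun j _ => hM1 j))).const_mul _, ?_, ?_⟩
  · intro e b he
    set A : Set (E 3) := Tb δ e b ∩ closedBall c ρ with hA
    have hAm : MeasurableSet A := ((isClosed_Tb δ e b).inter isClosed_closedBall).measurableSet
    have hAc : ∀ y ∈ A, ‖y - c‖ ≤ ρ := fun y hy => by
      have := hy.2; rwa [mem_closedBall, dist_eq_norm] at this
    have hsm : ∀ j, MeasurableSet (A ∩ {y | ‖y‖ ∈ S j}) := fun j =>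
      hAm.inter (measurable_norm (hSm j))
    have hcov : ∀ y ∈ A, ∃ j ∈ Finset.range (J + 1), ‖y‖ ∈ S j := by
      intro y hy
      have h1 : ‖y‖ ∈ I := norm_int (hAc y hy)
      have h2 : V ‖y‖ < ENNReal.ofReal (4 * ρ) := by
        calc V ‖y‖ ≤ μ univ := measure_mono (subset_univ _)
          _ = ENNReal.ofReal (2 * ρ) := by
              rw [hμ, Measure.restrict_apply_univ, Real.volume_Icc]
              congr 1
              ring
          _ < ENNReal.ofReal (4 * ρ) := by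
              rw [ENNReal.ofReal_lt_ofReal_iff (by positivity)]
              linarith
      rcases levels h2 J with h3 | ⟨j, hj, h3⟩
      · refine ⟨J, Finset.mem_range.2 (by omega), ?_⟩
        simp only [hS]
        rw [if_pos trivial]
        exact h3
      · refine ⟨j, Finset.mem_range.2 (by omega), ?_⟩
        simp only [hS]
        rw [if_neg (by omega)]
        exact ⟨h3, h1⟩
    have h1 : ∫⁻ y in A, F y ≤ ∑ j ∈ Finset.range (J + 1), ∫⁻ y in A ∩ {y | ‖y‖ ∈ S j}, F y := by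
      rw [← lintegral_indicator hAm]
      simp_rw [← lintegral_indicator (hsm _)]
      rw [← lintegral_finsetSum _ (fun i _ => hF.indicator (hsm i))]
      apply lintegral_mono
      intro y
      by_cases hy : y ∈ A
      · obtain ⟨j, hj, hyj⟩ := hcov y hy
        have hmem : y ∈ A ∩ {y | ‖y‖ ∈ S j} := ⟨hy, hyj⟩
        rw [indicator_of_mem hy]
        calc F y = (A ∩ {y | ‖y‖ ∈ S j}).indicator F y := (indicator_of_mem hmem _).symm
          _ ≤ _ := Finset.single_le_sum (f := fun j => (A ∩ {y | ‖y‖ ∈ S j}).indicator F y)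
              (fun _ _ => zero_le) hj
      · rw [indicator_of_notMem hy]; exact zero_le
    have hbot : ((ENNReal.ofReal δ ^ 2)⁻¹ * ∫⁻ y in A ∩ {y | ‖y‖ ∈ S J}, F y) ^ 3 ≤
        ENNReal.ofReal 5184 * T3 := by
      set B := A ∩ {y : E 3 | ‖y‖ ∈ S J} with hB
      have hvB : volume B ≤ ENNReal.ofReal (72 * δ ^ 3) := by
        have h2 := vol_radial hδ hδρ hρc (hSm J) (e := e) (b := b) he
        have h3 : volume (S J ∩ I) ≤ ENNReal.ofReal (δ ^ 2 / ρ) := by
          have e1 : volume (S J ∩ I) = μ (S J) := by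
            rw [hμ, Measure.restrict_apply (hSm J)]
          rw [e1]
          have e2 : S J = {r | V r < ENNReal.ofReal (4 * ρ / 2 ^ J)} := by
            simp only [hS, if_true]
          rw [e2]
          refine (vol_sub μ (fun r => -a r) _).trans (ENNReal.ofReal_le_ofReal ?_)
          rw [div_le_div_iff₀ (by positivity) hρ]
          have h4 : ρ ≤ 2 ^ I0 * δ := by
            rw [mul_div_assoc', le_div_iff₀ hρ, one_mul] at hI0
            exact hI0
          have h5 : (2:ℝ) ^ J = 4 * (2 ^ I0) ^ 2 := by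
            rw [hJ, pow_add, pow_mul, ← pow_mul, mul_comm 2 I0, pow_mul]
            ring
          rw [h5]
          calc 4 * ρ * ρ = 4 * ρ ^ 2 := by ring
            _ ≤ 4 * (2 ^ I0 * δ) ^ 2 := by gcongr
            _ = _ := by ring
        calc volume B ≤ ENNReal.ofReal (72 * ρ * δ) * volume (S J ∩ I) := h2
          _ ≤ ENNReal.ofReal (72 * ρ * δ) * ENNReal.ofReal (δ ^ 2 / ρ) := by gcongr
          _ = _ := by
              rw [← ENNReal.ofReal_mul (by positivity)]
              congr 1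
              field_simp
      have hho := holder3 (volume.restrict B) (f := F) (g := fun _ => 1) hF measurable_const
      simp only [mul_one, ENNReal.one_rpow, lintegral_const, Measure.restrict_apply_univ, one_mul]
        at hho
      have hB3 : ∫⁻ y in B, F y ^ 3 ≤ T3 := by
        apply lintegral_mono_set
        rintro y ⟨hy, -⟩
        rw [mem_closedBall, dist_eq_norm]
        linarith [hAc y hy]
      calc ((ENNReal.ofReal δ ^ 2)⁻¹ * ∫⁻ y in B, F y) ^ 3
          = ((ENNReal.ofReal δ ^ 2)⁻¹) ^ 3 * (∫⁻ y in B, F y) ^ 3 := mul_pow _ _ _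
        _ ≤ ((ENNReal.ofReal δ ^ 2)⁻¹) ^ 3 * (T3 * ENNReal.ofReal (72 * δ ^ 3) ^ 2) := by
            refine mul_le_mul' le_rfl (hho.trans ?_)
            gcongr
        _ = _ := by
            rw [← ENNReal.ofReal_pow hδ.le, ← ENNReal.ofReal_inv_of_pos (by positivity),
              ← ENNReal.ofReal_pow (by positivity), ← ENNReal.ofReal_pow (by positivity),
              mul_comm T3, ← mul_assoc, ← ENNReal.ofReal_mul (by positivity)]
            congr 2
            field_simp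
            norm_num
    calc ((ENNReal.ofReal δ ^ 2)⁻¹ * ∫⁻ y in A, F y) ^ 3
        ≤ (∑ j ∈ Finset.range (J + 1), (ENNReal.ofReal δ ^ 2)⁻¹ *
            ∫⁻ y in A ∩ {y | ‖y‖ ∈ S j}, F y) ^ 3 := by
          rw [← Finset.mul_sum]
          gcongr
      _ ≤ ((Finset.range (J + 1)).card : ℝ≥0∞) ^ (3 - 1) * ∑ j ∈ Finset.range (J + 1),
            ((ENNReal.ofReal δ ^ 2)⁻¹ * ∫⁻ y in A ∩ {y | ‖y‖ ∈ S j}, F y) ^ 3 :=
          sum_pow_le _ _ (by norm_num)
      _ ≤ N ^ 2 * (ENNReal.ofReal 5184 * T3 + ∑ j ∈ Finset.range J, M j e) := by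
          rw [Finset.card_range, ← hN, Finset.sum_range_succ]
          refine mul_le_mul' le_rfl ?_
          rw [add_comm]
          refine add_le_add hbot (Finset.sum_le_sum fun j hj => ?_)
          rw [Finset.mem_range] at hj
          have hSj : S j = {r | ENNReal.ofReal (4 * ρ / 2 ^ (j + 1)) ≤ V r ∧
            V r < ENNReal.ofReal (4 * ρ / 2 ^ j)} ∩ I := by
            simp only [hS]
            rw [if_neg (by omega)]
          rw [hSj]
          exact hM2 j e b he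
  · have hmd : Measurable (fun x : E 3 => ‖x‖⁻¹ • x) := measurable_norm.inv.smul measurable_id
    have hMd : ∀ j ∈ Finset.range J, Measurable (fun x : E 3 => M j (‖x‖⁻¹ • x)) :=
      fun j _ => (hM1 j).comp hmd
    have hC : (0:ℝ) ≤ C0 := by unfold C0; norm_num
    have hI00 : (0:ℝ) ≤ I0 := I0.cast_nonneg
    have hV3 := V3_nonneg
    have hlog : 0 ≤ Real.log (1 + 48 * ρ / δ) := Real.log_nonneg (by
      have : 0 ≤ 48 * ρ / δ := by positivity
      linarith)
    change ∫⁻ x in closedBall (0 : E 3) 1, N ^ 2 * (ENNReal.ofReal 5184 * T3 +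
      ∑ j ∈ Finset.range J, M j (‖x‖⁻¹ • x)) ≤ _
    have hsum : Measurable (fun x : E 3 => ENNReal.ofReal 5184 * T3 +
        ∑ j ∈ Finset.range J, M j (‖x‖⁻¹ • x)) :=
      measurable_const.add (Finset.measurable_fun_sum _ hMd)
    rw [lintegral_const_mul _ hsum,
      lintegral_add_left measurable_const, lintegral_finsetSum _ hMd, lintegral_const,
      Measure.restrict_apply_univ, V3_eq]
    set Q : ℝ := 2 * C0 * ((I0:ℝ) + 2) ^ 3 * Real.log (1 + 48 * ρ / δ) with hQ
    have hQ0 : 0 ≤ Q := by positivity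
    have hK3 : (1:ℝ≥0∞) ≤ K ^ 3 := one_le_pow_of_one_le' hK 3
    calc N ^ 2 * (ENNReal.ofReal 5184 * T3 * ENNReal.ofReal V3 +
          ∑ j ∈ Finset.range J, ∫⁻ x in closedBall (0 : E 3) 1, M j (‖x‖⁻¹ • x))
        ≤ N ^ 2 * (ENNReal.ofReal 5184 * (K ^ 3 * T3) * ENNReal.ofReal V3 +
          ∑ j ∈ Finset.range J, ENNReal.ofReal Q * (4 * K ^ 3 * T3)) := by
          gcongr with j hj
          · exact le_mul_of_one_le_left zero_le hK3
          · exact hM3 j
      _ = (N ^ 2 * (ENNReal.ofReal (5184 * V3) + ENNReal.ofReal (J:ℝ) * ENNReal.ofReal Q *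
            ENNReal.ofReal 4)) * (K ^ 3 * T3) := by
          rw [Finset.sum_const, Finset.card_range, nsmul_eq_mul,
            ENNReal.ofReal_mul (p := 5184) (by norm_num), ENNReal.ofReal_natCast]
          have e4 : ENNReal.ofReal 4 = 4 := by norm_num
          rw [e4]
          ring
      _ ≤ _ := by
          gcongr ?_ * _
          have eN : N = ENNReal.ofReal ((J:ℝ) + 1) := by
            rw [hN, ← ENNReal.ofReal_natCast]
            congr 1
            push_cast
            ring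
          rw [eN, ← ENNReal.ofReal_pow (by positivity), ← ENNReal.ofReal_mul (by positivity),
            ← ENNReal.ofReal_mul (by positivity),
            ← ENNReal.ofReal_add (by positivity) (by positivity),
            ← ENNReal.ofReal_mul (by positivity)]
          apply ENNReal.ofReal_le_ofReal
          have hJ1 : (J:ℝ) + 1 ≤ 2 * ((I0:ℝ) + 2) := by rw [hJ]; push_cast; linarith
          have hJ2 : (J:ℝ) ≤ 2 * ((I0:ℝ) + 2) := by linarith
          calc ((J:ℝ) + 1) ^ 2 * (5184 * V3 + (J:ℝ) * Q * 4)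
              ≤ (2 * ((I0:ℝ) + 2)) ^ 2 * (5184 * V3 + (2 * ((I0:ℝ) + 2)) * Q * 4) := by gcongr
            _ = _ := by rw [hQ]; ring

end Pool.Agent.NH22.RS
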