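import Pool.Agent.NH22.RS.N

set_option autoImplicit false

/-!
# Blocks of three coordinates: the maximal estimate
-/

open MeasureTheory Set Filter Topology ENNReal NNReal Function Metric

namespace Pool.Agent.NH22.RS

open Pool.Agent.H742R2.Kk (E)
open Pool.Agent.W767.Sd (cyl)
open Pool.Agent.TH970.Kr (PM)
open Pool.Agent.TH225.CK

set_option linter.unusedSectionVars false

variable {ι : Type} [Fintype ι]

/-- A ball of radius comparable to `ρ`. -/
theorem ball_small3 {ρ r : ℝ} (ε : ι ≃ Fin 3) (hι : Fintype.card ι = 3) (hρ : 0 < ρ) (hr : 0 ≤ r)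
    (hrρ : r ≤ 2 * ρ) {F : (ι → ℝ) → ℝ≥0∞} (hF : Measurable F) :
    ∫⁻ x in closedBall (0 : E 3) r, NN ρ F (Ph3 ε x) ^ 3 ≤ 6 * ∫⁻ y, F y ^ 3 := by
  calc ∫⁻ x in closedBall (0 : E 3) r, NN ρ F (Ph3 ε x) ^ 3
      ≤ ∫⁻ _ in closedBall (0 : E 3) r,
        ((ENNReal.ofReal (2 * ρ))⁻¹) ^ 3 * ∫⁻ y, F y ^ 3 := by
        apply lintegral_mono
        intro x
        have := NN_sq_le hρ hF (Ph3 ε x) (n := 3) (by norm_num)
        rwa [hι] at this
    _ = ((ENNReal.ofReal (2 * ρ))⁻¹ ^ 3 * (ENNReal.ofReal r ^ 3 * ENNReal.ofReal (Real.pi * 4 / 3))) *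
        ∫⁻ y, F y ^ 3 := by
        rw [lintegral_const, Measure.restrict_apply_univ, EuclideanSpace.volume_closedBall_fin_three]
        ring
    _ ≤ _ := by
        gcongr
        rw [← ENNReal.ofReal_inv_of_pos (by positivity), ← ENNReal.ofReal_pow (by positivity),
          ← ENNReal.ofReal_pow (by positivity), ← ENNReal.ofReal_mul (by positivity),
          ← ENNReal.ofReal_mul (by positivity), ← ENNReal.ofReal_ofNat]
        apply ENNReal.ofReal_le_ofReal
        have h1 : r ^ 3 ≤ (2 * ρ) ^ 3 := by gcongr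
        have h2 : ((2 * ρ)⁻¹) ^ 3 * r ^ 3 ≤ 1 := by
          rw [inv_pow, inv_mul_le_iff₀ (by positivity)]
          linarith
        have h3 := Real.pi_pos
        have h4 := Real.pi_le_four
        calc ((2 * ρ)⁻¹) ^ 3 * (r ^ 3 * (Real.pi * 4 / 3)) =
              ((2 * ρ)⁻¹) ^ 3 * r ^ 3 * (Real.pi * 4 / 3) := by ring
          _ ≤ 1 * 6 := by
              gcongr
              linarith
          _ = _ := by norm_num

/-- An annulus. -/
theorem annulus3 {D : ℝ} (hD : 0 < D) (hbase : ∀ ρ : ℝ, 0 < ρ → ρ ≤ 1 → ∀ (a : ℝ → ℝ) (F : E 3 → ℝ≥0∞)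
    (K : ℝ≥0∞), Measurable a → Measurable F → 1 ≤ K → CoR K a F →
      PM 2 ρ (ENNReal.ofReal (D * (1 + Real.log (1 / ρ)) ^ 10) * K ^ 3) F F)
    {ρ r : ℝ} (ε : ι ≃ Fin 3) (hι : Fintype.card ι = 3) (hρ : 0 < ρ) (hρ1 : ρ ≤ 1)
    (hr2 : r ≤ 2) (hrρ : 2 * ρ ≤ r) {F : (ι → ℝ) → ℝ≥0∞} (hF : Measurable F)
    {a : ℝ → ℝ} (ha : Measurable a) {K : ℝ≥0∞} (hK : 1 ≤ K)
    (hCo : CoR K a (fun y => F (Ph3 ε y))) :
    ∫⁻ x in closedBall (0 : E 3) r \ ball 0 (r / 2), NN ρ F (Ph3 ε x) ^ 3 ≤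
      ENNReal.ofReal (8192 * D * (1 + Real.log (1 / ρ)) ^ 10) * K ^ 3 * ∫⁻ y, F y ^ 3 := by
  have hr0 : 0 < r := by linarith
  set l : ℝ := 2 * r with hl
  have hl0 : 0 < l := by positivity
  have h4 : 4 * ρ ≤ l := by linarith
  have hmp := mp_Ph3 ε
  set Fl : E 3 → ℝ≥0∞ := fun y => F (Ph3 ε (l • y)) with hFl
  have hFlm : Measurable Fl := by
    have : Measurable (fun y : E 3 => Ph3 ε (l • y)) := hmp.measurable.comp (by fun_prop)
    exact hF.comp this
  set ρ' : ℝ := 2 * ρ / l with hρ'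
  have hρ'0 : 0 < ρ' := by positivity
  have hρ'1 : ρ' ≤ 1 := by rw [hρ', div_le_one hl0]; linarith
  have hCl : CoR K (fun s => a (l * s)) Fl := by
    intro x t ht hax
    have e1 : ‖l • x‖ = l * ‖x‖ := by rw [norm_smul, Real.norm_of_nonneg hl0.le]
    have h := hCo (l • x) t ht (by
      rw [e1]
      have e2 : t * (l * ‖x‖) = l * (t * ‖x‖) := by ring
      rw [e2]
      exact hax)
    have e3 : t • l • x = l • t • x := smul_comm _ _ _
    simp only [e3] at h
    exact h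
  obtain ⟨M, hM1, hM2, hM3⟩ := hbase ρ' hρ'0 hρ'1 (fun s => a (l * s)) Fl K
    (ha.comp (measurable_const_mul l)) hFlm hK hCl
  have hlog : 0 ≤ Real.log (1 / ρ) := Real.log_nonneg (by rw [le_div_iff₀ hρ]; linarith)
  have hlog' : 1 + Real.log (1 / ρ') ≤ 2 * (1 + Real.log (1 / ρ)) := by
    have h1 : 1 / ρ' ≤ 2 * (1 / ρ) := by
      rw [hρ', one_div_div, mul_one_div, div_le_div_iff₀ (by positivity) hρ]
      nlinarith
    have h2 : Real.log (1 / ρ') ≤ Real.log (2 * (1 / ρ)) :=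
      Real.log_le_log (by positivity) h1
    rw [Real.log_mul (by norm_num) (by positivity)] at h2
    have h3 := Real.log_two_lt_d9
    linarith
  have hpt : ∀ x ∈ closedBall (0 : E 3) r \ ball 0 (r / 2),
      NN ρ F (Ph3 ε x) ^ 3 ≤ 64 * M (‖x‖⁻¹ • x) := by
    intro x hx
    have hx1 := hx.1
    have hx2 := hx.2
    rw [mem_closedBall_zero_iff] at hx1
    rw [mem_ball_zero_iff, not_lt] at hx2
    exact point3 ε hι hρ h4 hF hM2 (by rw [hl]; linarith) (by rw [hl]; linarith)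
  have hint : ∫⁻ x in closedBall (0 : E 3) r, M (‖x‖⁻¹ • x) =
      ENNReal.ofReal (r ^ 3) * ∫⁻ x in closedBall (0 : E 3) 1, M (‖x‖⁻¹ • x) := by
    have hgm : Measurable (fun x : E 3 => (closedBall (0 : E 3) r).indicator
        (fun x => M (‖x‖⁻¹ • x)) x) :=
      (hM1.comp (by fun_prop)).indicator measurableSet_closedBall
    have h3 := Pool.Agent.W767.Kc.lintegral_comp_smulV hgm hr0.ne'
    rw [finrank_euclideanSpace_fin] at h3
    have e4 : ∀ y : E 3, (closedBall (0 : E 3) r).indicator (fun x => M (‖x‖⁻¹ • x)) (r • y) =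
        (closedBall (0 : E 3) 1).indicator (fun x => M (‖x‖⁻¹ • x)) y := by
      intro y
      have hiff : r • y ∈ closedBall (0 : E 3) r ↔ y ∈ closedBall (0 : E 3) 1 := by
        rw [mem_closedBall_zero_iff, mem_closedBall_zero_iff, norm_smul,
          Real.norm_of_nonneg hr0.le]
        constructor
        · intro h; by_contra hc; push Not at hc; nlinarith
        · intro h; nlinarith
      by_cases hy : y ∈ closedBall (0 : E 3) 1
      · rw [indicator_of_mem hy, indicator_of_mem (hiff.2 hy)]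
        congr 1
        rw [norm_smul, Real.norm_of_nonneg hr0.le, mul_inv, smul_smul]
        congr 1
        field_simp
      · rw [indicator_of_notMem hy, indicator_of_notMem (fun h => hy (hiff.1 h))]
    simp only [e4] at h3
    rw [lintegral_indicator measurableSet_closedBall,
      lintegral_indicator measurableSet_closedBall] at h3
    rw [h3, ← mul_assoc, ← ENNReal.ofReal_mul (by positivity), abs_of_pos (by positivity),
      mul_inv_cancel₀ (by positivity), ENNReal.ofReal_one, one_mul]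
  have hFl2 : ∫⁻ y, Fl y ^ (2 + 1) = ENNReal.ofReal ((l ^ 3)⁻¹) * ∫⁻ y, F y ^ 3 := by
    have hgm : Measurable (fun x : E 3 => F (Ph3 ε x) ^ 3) :=
      (hF.comp hmp.measurable).pow_const _
    have h3 := Pool.Agent.W767.Kc.lintegral_comp_smulV hgm hl0.ne'
    rw [finrank_euclideanSpace_fin, abs_of_pos (by positivity)] at h3
    have h5 := hmp.lintegral_comp (hF.pow_const 3)
    rw [h5] at h3
    exact h3
  calc ∫⁻ x in closedBall (0 : E 3) r \ ball 0 (r / 2), NN ρ F (Ph3 ε x) ^ 3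
      ≤ ∫⁻ x in closedBall (0 : E 3) r \ ball 0 (r / 2), 64 * M (‖x‖⁻¹ • x) :=
        setLIntegral_mono' (measurableSet_closedBall.diff measurableSet_ball) hpt
    _ ≤ ∫⁻ x in closedBall (0 : E 3) r, 64 * M (‖x‖⁻¹ • x) :=
        lintegral_mono_set sdiff_subset
    _ = 64 * (ENNReal.ofReal (r ^ 3) * ∫⁻ x in closedBall (0 : E 3) 1, M (‖x‖⁻¹ • x)) := by
        have hmm : Measurable (fun x : E 3 => M (‖x‖⁻¹ • x)) := hM1.comp (by fun_prop)
        rw [lintegral_const_mul _ hmm, hint]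
    _ ≤ 64 * (ENNReal.ofReal (r ^ 3) * (ENNReal.ofReal (D * (1 + Real.log (1 / ρ')) ^ 10) *
        K ^ 3 * (ENNReal.ofReal ((l ^ 3)⁻¹) * ∫⁻ y, F y ^ 3))) := by
        rw [← hFl2]
        gcongr
    _ = (64 * (ENNReal.ofReal (r ^ 3) * (ENNReal.ofReal (D * (1 + Real.log (1 / ρ')) ^ 10) *
        ENNReal.ofReal ((l ^ 3)⁻¹)))) * K ^ 3 * ∫⁻ y, F y ^ 3 := by ring
    _ ≤ _ := by
        gcongr
        have hlρ : 0 ≤ Real.log (1 / ρ') :=
          Real.log_nonneg (by rw [le_div_iff₀ hρ'0]; linarith)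
        rw [← ENNReal.ofReal_mul (by positivity), ← ENNReal.ofReal_mul (by positivity),
          ← ENNReal.ofReal_ofNat, ← ENNReal.ofReal_mul (by norm_num)]
        apply ENNReal.ofReal_le_ofReal
        have e1 : 64 * (r ^ 3 * (D * (1 + Real.log (1 / ρ')) ^ 10 * (l ^ 3)⁻¹)) =
            8 * (D * (1 + Real.log (1 / ρ')) ^ 10) := by
          rw [hl]; field_simp; ring
        rw [e1]
        have e2 : D * (1 + Real.log (1 / ρ')) ^ 10 ≤ D * (2 * (1 + Real.log (1 / ρ))) ^ 10 := by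
          gcongr
        calc 8 * (D * (1 + Real.log (1 / ρ')) ^ 10)
            ≤ 8 * (D * (2 * (1 + Real.log (1 / ρ))) ^ 10) := by gcongr
          _ = _ := by ring

theorem base_three : ∃ C : ℝ, 0 < C ∧ ∀ (ι : Type) [Fintype ι] (ε : ι ≃ Fin 3),
    ∀ ρ : ℝ, 0 < ρ → ρ ≤ 1 → ∀ F : (ι → ℝ) → ℝ≥0∞, Measurable F →
    ∀ a : ℝ → ℝ, Measurable a → ∀ K : ℝ≥0∞, 1 ≤ K → CoR K a (fun y => F (Ph3 ε y)) →
    ∫⁻ v, NN ρ F v ^ 3 ∂(cu ι) ≤
      ENNReal.ofReal (C * (1 + Real.log (1 / ρ)) ^ 11) * K ^ 3 * ∫⁻ y, F y ^ 3 := by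
  obtain ⟨D, hD, hbase⟩ := cm3
  refine ⟨3 * (8192 * D + 6), by positivity, ?_⟩
  intro ι _ ε ρ hρ hρ1 F hF a ha K hK hCo
  have hι : Fintype.card ι = 3 := by rw [Fintype.card_congr ε, Fintype.card_fin]
  have hK3 : (1 : ℝ≥0∞) ≤ K ^ 3 := one_le_pow_of_one_le' hK 3
  have hmp := mp_Ph3 ε
  obtain ⟨I0, hI0, hI0'⟩ := Pool.Agent.W767.Sd.exists_I0 hρ hρ1
  have hlog : 0 ≤ Real.log (1 / ρ) := Real.log_nonneg (by rw [le_div_iff₀ hρ]; linarith)
  set L := 1 + Real.log (1 / ρ) with hL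
  have hL1 : 1 ≤ L := by linarith
  set S := ∫⁻ y, F y ^ 3 with hS
  set H : E 3 → ℝ≥0∞ := fun x => NN ρ F (Ph3 ε x) ^ 3 with hH
  have hL10 : (1:ℝ) ≤ L ^ 10 := one_le_pow₀ hL1
  have hsix : 6 * S ≤ ENNReal.ofReal ((8192 * D + 6) * L ^ 10) * (K ^ 3 * S) := by
    refine mul_le_mul' ?_ (le_mul_of_one_le_left zero_le hK3)
    rw [← ENNReal.ofReal_ofNat]
    apply ENNReal.ofReal_le_ofReal
    nlinarith
  -- the cube lies in the ball
  have h1 : ∫⁻ v, NN ρ F v ^ 3 ∂(cu ι) ≤ ∫⁻ x in closedBall (0 : E 3) 2, H x := by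
    have hm : Measurable (fun v => ind (box ι 1) v * NN ρ F v ^ 3) :=
      (measurable_ind (measurableSet_box 1)).mul ((measurable_NN hρ hF).pow_const 3)
    have e1 : ∫⁻ v, NN ρ F v ^ 3 ∂(cu ι) = ∫⁻ v, ind (box ι 1) v * NN ρ F v ^ 3 := by
      rw [cu_eq]
      change ∫⁻ v in box ι 1, NN ρ F v ^ 3 = _
      rw [← lintegral_indicator (measurableSet_box 1)]
      apply lintegral_congr
      intro v
      by_cases hv : v ∈ box ι 1
      · simp [ind, hv]
      · simp [ind, hv]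
    rw [e1, ← hmp.lintegral_comp hm, ← lintegral_indicator measurableSet_closedBall]
    apply lintegral_mono
    intro x
    by_cases hx : Ph3 ε x ∈ box ι 1
    · have hx2 : x ∈ closedBall (0 : E 3) 2 := by
        rw [mem_closedBall_zero_iff]
        have : ∀ j, |x j| ≤ 1 := by
          intro j
          have h1 := hx (ε.symm j) (mem_univ _)
          simp only [Ph3, Equiv.apply_symm_apply] at h1
          exact abs_le.2 h1
        have := norm_le_of_coord3 zero_le_one this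
        linarith
      rw [indicator_of_mem hx2]
      simp [ind, hx, hH]
    · simp [ind, hx]
  -- radii
  have hrad : ∀ J : ℕ, ∫⁻ x in closedBall (0 : E 3) 2, H x ≤
      J * (ENNReal.ofReal ((8192 * D + 6) * L ^ 10) * (K ^ 3 * S)) +
        ∫⁻ x in closedBall (0 : E 3) (2 / 2 ^ J), H x := by
    intro J
    induction J with
    | zero => simp
    | succ J ih =>
      refine ih.trans ?_
      have hone : ∫⁻ x in closedBall (0 : E 3) (2 / 2 ^ J), H x ≤
          ENNReal.ofReal ((8192 * D + 6) * L ^ 10) * (K ^ 3 * S) +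
            ∫⁻ x in closedBall (0 : E 3) (2 / 2 ^ (J + 1)), H x := by
        have hr0 : (0 : ℝ) < 2 / 2 ^ J := by positivity
        have hr2 : (2 : ℝ) / 2 ^ J ≤ 2 := by
          rw [div_le_iff₀ (by positivity)]
          have : (1 : ℝ) ≤ 2 ^ J := one_le_pow₀ (by norm_num)
          linarith
        have hrr : (2 : ℝ) / 2 ^ (J + 1) = 2 / 2 ^ J / 2 := by rw [pow_succ]; field_simp
        rcases le_or_gt (2 * ρ) (2 / 2 ^ J) with hc | hc
        · have hsub : closedBall (0 : E 3) (2 / 2 ^ J) ⊆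
              (closedBall (0 : E 3) (2 / 2 ^ J) \ ball 0 (2 / 2 ^ J / 2)) ∪
                closedBall (0 : E 3) (2 / 2 ^ (J + 1)) := by
            intro x hx
            by_cases hx2 : x ∈ ball (0 : E 3) (2 / 2 ^ J / 2)
            · right
              rw [hrr]
              exact ball_subset_closedBall hx2
            · left; exact ⟨hx, hx2⟩
          calc ∫⁻ x in closedBall (0 : E 3) (2 / 2 ^ J), H x
              ≤ ∫⁻ x in (closedBall (0 : E 3) (2 / 2 ^ J) \ ball 0 (2 / 2 ^ J / 2)) ∪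
                closedBall (0 : E 3) (2 / 2 ^ (J + 1)), H x := lintegral_mono_set hsub
            _ ≤ _ := lintegral_union_le _ _ _
            _ ≤ _ := by
                gcongr
                refine (annulus3 hD hbase ε hι hρ hρ1 hr2 hc hF ha hK hCo).trans ?_
                rw [mul_assoc]
                gcongr
                linarith
        · calc ∫⁻ x in closedBall (0 : E 3) (2 / 2 ^ J), H x ≤ 6 * S :=
                ball_small3 ε hι hρ hr0.le hc.le hF
            _ ≤ ENNReal.ofReal ((8192 * D + 6) * L ^ 10) * (K ^ 3 * S) := hsix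
            _ ≤ _ := le_self_add
      calc (J : ℝ≥0∞) * (ENNReal.ofReal ((8192 * D + 6) * L ^ 10) * (K ^ 3 * S)) +
            ∫⁻ x in closedBall (0 : E 3) (2 / 2 ^ J), H x
          ≤ (J : ℝ≥0∞) * (ENNReal.ofReal ((8192 * D + 6) * L ^ 10) * (K ^ 3 * S)) +
            (ENNReal.ofReal ((8192 * D + 6) * L ^ 10) * (K ^ 3 * S) +
              ∫⁻ x in closedBall (0 : E 3) (2 / 2 ^ (J + 1)), H x) := by gcongr
        _ = _ := by push_cast; ring
  have hlast : ∫⁻ x in closedBall (0 : E 3) (2 / 2 ^ I0), H x ≤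
      ENNReal.ofReal ((8192 * D + 6) * L ^ 10) * (K ^ 3 * S) := by
    calc ∫⁻ x in closedBall (0 : E 3) (2 / 2 ^ I0), H x ≤ 6 * S := by
          refine ball_small3 ε hι hρ (by positivity) ?_ hF
          rw [div_le_iff₀ (by positivity)]
          nlinarith
      _ ≤ ENNReal.ofReal ((8192 * D + 6) * L ^ 10) * (K ^ 3 * S) := hsix
  calc ∫⁻ v, NN ρ F v ^ 3 ∂(cu ι) ≤ _ := h1
    _ ≤ I0 * (ENNReal.ofReal ((8192 * D + 6) * L ^ 10) * (K ^ 3 * S)) +
        ∫⁻ x in closedBall (0 : E 3) (2 / 2 ^ I0), H x := hrad I0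
    _ ≤ I0 * (ENNReal.ofReal ((8192 * D + 6) * L ^ 10) * (K ^ 3 * S)) + ENNReal.ofReal ((8192 * D + 6) * L ^ 10) * (K ^ 3 * S) := by
        gcongr
    _ = (ENNReal.ofReal ((I0 + 1 : ℕ) : ℝ) * ENNReal.ofReal ((8192 * D + 6) * L ^ 10)) *
          K ^ 3 * S := by
        rw [ENNReal.ofReal_natCast]
        push_cast
        ring
    _ ≤ _ := by
        gcongr
        rw [← ENNReal.ofReal_mul (by positivity)]
        apply ENNReal.ofReal_le_ofReal
        have h5 : ((I0 + 1 : ℕ) : ℝ) ≤ 3 * L := by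
          push_cast at hI0' ⊢
          linarith
        calc ((I0 + 1 : ℕ) : ℝ) * ((8192 * D + 6) * L ^ 10) ≤
              3 * L * ((8192 * D + 6) * L ^ 10) := by gcongr
          _ = _ := by ring

end Pool.Agent.NH22.RS
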