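import Pool.Agent.NH22.RS.N2

set_option autoImplicit false

/-!
# Blocks of at most three coordinates: the class of functions and the induction step
-/

open MeasureTheory Set Filter Topology ENNReal NNReal Function

namespace Pool.Agent.NH22.RS

open Pool.Agent.H742R2.Kk (E)
open Pool.Agent.TH225.CK hiding point PP measurableSet_PP PP_cover

set_option linter.unusedSectionVars false

variable {ι : Type} [Fintype ι]

/-- The norm of the coordinates in the block `k`. -/
noncomputable def nrm (β : ι → ℕ) (k : ℕ) (x : ι → ℝ) : ℝ :=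
  √(∑ i, if β i = k then x i ^ 2 else 0)

/-- Multiply the coordinates in the block `k` by `t`. -/
def dil (β : ι → ℕ) (k : ℕ) (t : ℝ) (x : ι → ℝ) : ι → ℝ :=
  fun i => if β i = k then t * x i else x i

/-- Along the rays of the block `k` the function `u` is ordered like a function of the norm. -/
def RayOrd (β : ι → ℕ) (k : ℕ) (u : (ι → ℝ) → ℝ) : Prop :=
  ∃ b : ℝ → ℝ, Measurable b ∧ ∀ x, ∀ t ∈ Icc (1 / 2 : ℝ) 2,
    b (nrm β k x) ≤ b (t * nrm β k x) → u x ≤ u (dil β k t x)

/-- The class of functions. -/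
def CoM3 (β : ι → ℕ) (K : ℝ≥0∞) (F : (ι → ℝ) → ℝ≥0∞) : Prop :=
  ∃ u : ℕ → (ι → ℝ) → ℝ, (∀ k, Measurable (u k)) ∧
    (∀ k x y, (∀ i, β i = k → x i = y i) → u k x = u k y) ∧
    (∀ k, k ≠ 0 → Fintype.card {i // β i = k} = 3 → RayOrd β k (u k)) ∧
    (∀ x y, (∀ i, β i = 0 → x i = y i) → (∀ k, k ≠ 0 → u k y ≤ u k x) → F x ≤ F y) ∧
    (Fintype.card {i // β i = 0} = 3 → ∃ a : ℝ → ℝ, Measurable a ∧
      ∀ x, ∀ t ∈ Icc (1 / 2 : ℝ) 2, a (t * nrm β 0 x) ≤ a (nrm β 0 x) →
        F (dil β 0 t x) ≤ K * F x)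

theorem nrm_gl {β : ι → ℕ} {k₁ k : ℕ} (hk : k ≠ k₁) (x : {i // β i = k₁} → ℝ)
    (z : {i // ¬ β i = k₁} → ℝ) :
    nrm β k (gl (fun i => β i = k₁) x z) =
      nrm (fun i : {i // ¬ β i = k₁} => β i) k z := by
  unfold nrm
  congr 1
  rw [← Fintype.sum_subtype_add_sum_subtype (fun i => β i = k₁)]
  have h1 : ∑ i : {i // β i = k₁}, (if β i = k then gl (fun i => β i = k₁) x z i ^ 2 else 0) =
      0 := by
    apply Finset.sum_eq_zero
    intro i _
    rw [if_neg]
    rw [i.2]
    exact fun h => hk h.symm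
  rw [h1, zero_add]
  apply Finset.sum_congr rfl
  intro i _
  have : gl (fun i => β i = k₁) x z i = z i := by
    simp only [gl, i.2, dif_neg, not_false_eq_true]
  rw [this]

theorem dil_gl {β : ι → ℕ} {k₁ k : ℕ} (hk : k ≠ k₁) (t : ℝ) (x : {i // β i = k₁} → ℝ)
    (z : {i // ¬ β i = k₁} → ℝ) :
    dil β k t (gl (fun i => β i = k₁) x z) =
      gl (fun i => β i = k₁) x (dil (fun i : {i // ¬ β i = k₁} => β i) k t z) := by
  funext i
  unfold dil gl
  by_cases hi : β i = k₁
  · simp only [hi, dif_pos]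
    rw [if_neg (fun h => hk h.symm)]
  · by_cases hik : β i = k
    · simp only [hik, if_pos]
      have hkk : ¬ k = k₁ := hk
      simp only [hkk, dif_neg, not_false_eq_true]
    · simp only [hik, if_neg, not_false_eq_true]

theorem nrm_Ph3 {β : ι → ℕ} {k : ℕ} (hall : ∀ i, β i = k) (ε : ι ≃ Fin 3) (x : E 3) :
    nrm β k (Ph3 ε x) = ‖x‖ := by
  unfold nrm
  rw [EuclideanSpace.norm_eq]
  congr 1
  have : ∀ i, (if β i = k then Ph3 ε x i ^ 2 else 0) = (fun j => ‖x j‖ ^ 2) (ε i) := by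
    intro i
    rw [if_pos (hall i)]
    simp [Ph3, Real.norm_eq_abs, sq_abs]
  simp only [this]
  exact Equiv.sum_comp ε (fun j => ‖x j‖ ^ 2)

theorem dil_Ph3 {β : ι → ℕ} {k : ℕ} (hall : ∀ i, β i = k) (ε : ι ≃ Fin 3) (t : ℝ) (x : E 3) :
    dil β k t (Ph3 ε x) = Ph3 ε (t • x) := by
  funext i
  unfold dil
  rw [if_pos (hall i)]
  simp [Ph3]

theorem nrm_glPh3 {β : ι → ℕ} {k : ℕ} (ε : {i // β i = k} ≃ Fin 3) (x : E 3)
    (z : {i // ¬ β i = k} → ℝ) :
    nrm β k (gl (fun i => β i = k) (Ph3 ε x) z) = ‖x‖ := by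
  unfold nrm
  rw [EuclideanSpace.norm_eq]
  congr 1
  rw [← Fintype.sum_subtype_add_sum_subtype (fun i => β i = k)]
  have h1 : ∑ i : {i // ¬ β i = k}, (if β i = k then gl (fun i => β i = k) (Ph3 ε x) z i ^ 2
      else 0) = 0 := by
    apply Finset.sum_eq_zero
    intro i _
    rw [if_neg i.2]
  rw [h1, add_zero]
  have : ∀ i : {i // β i = k}, (if β i = k then gl (fun i => β i = k) (Ph3 ε x) z i ^ 2 else 0) =
      (fun j => ‖x j‖ ^ 2) (ε i) := by
    intro i
    rw [if_pos i.2]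
    simp [Ph3, gl, i.2, Real.norm_eq_abs, sq_abs]
  simp only [this]
  exact Equiv.sum_comp ε (fun j => ‖x j‖ ^ 2)

theorem dil_glPh3 {β : ι → ℕ} {k : ℕ} (ε : {i // β i = k} ≃ Fin 3) (t : ℝ) (x : E 3)
    (z : {i // ¬ β i = k} → ℝ) :
    dil β k t (gl (fun i => β i = k) (Ph3 ε x) z) =
      gl (fun i => β i = k) (Ph3 ε (t • x)) z := by
  funext i
  unfold dil gl
  by_cases hi : β i = k
  · simp [hi, Ph3]
  · simp [hi]

theorem coM3_GG {β : ι → ℕ} {F : (ι → ℝ) → ℝ≥0∞} {K : ℝ≥0∞} (hKt : K ≠ ∞)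
    (hβ : ∀ k, Fintype.card {i // β i = k} ≤ 3) (hC : CoM3 β K F) {k₁ : ℕ} (hk₁ : k₁ ≠ 0)
    {n : ℕ} (hn : 1 ≤ n) {s : ℝ≥0∞} {r : ℝ} (hr : 0 ≤ r) :
    CoM3 (fun i : {i // ¬ β i = k₁} => β i) (K ^ r)
      (fun z => GG (fun i => β i = k₁) F n s z ^ r) := by
  obtain ⟨u, hum, hud, hray, hF, hF0⟩ := hC
  have hn0 : (0 : ℝ) < n := by exact_mod_cast hn
  refine ⟨fun k z => u k (gl (fun i => β i = k₁) 0 z), ?_, ?_, ?_, ?_, ?_⟩
  · intro k
    apply (hum k).comp
    exact (measurable_gl (fun i => β i = k₁)).comp (measurable_const.prodMk measurable_id)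
  · intro k z z' hz
    apply hud
    intro i hi
    unfold gl
    split_ifs with h
    · rfl
    · exact hz ⟨i, h⟩ hi
  · intro k hk hcard
    have hkk : k ≠ k₁ := by
      rintro rfl
      have hemp : IsEmpty {i : {i // ¬ β i = k} // β i = k} := ⟨fun i => i.1.2 i.2⟩
      rw [Fintype.card_eq_zero] at hcard
      omega
    have h3 : Fintype.card {i // β i = k} = 3 := by
      have h4 := card_block_le β (fun i => β i = k₁) k
      have h5 := hβ k
      have h6 : Fintype.card {i : {i // ¬ β i = k₁} // β i = k} = 3 := hcard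
      omega
    obtain ⟨b, hb, hbu⟩ := hray k hk h3
    refine ⟨b, hb, fun z t ht hz => ?_⟩
    have h6 := hbu (gl (fun i => β i = k₁) 0 z) t ht (by rw [nrm_gl hkk]; exact hz)
    rw [dil_gl hkk] at h6
    exact h6
  · intro z z' h0 hu
    have hpt : ∀ x, F (gl (fun i => β i = k₁) x z) ≤ F (gl (fun i => β i = k₁) x z') := by
      intro x
      apply hF
      · intro i hi
        have hni : ¬ β i = k₁ := by rw [hi]; exact fun h => hk₁ h.symm
        simp only [gl, hni, dif_neg, not_false_eq_true]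
        exact h0 ⟨i, hni⟩ hi
      · intro k hk
        by_cases hkk : k = k₁
        · apply le_of_eq
          apply hud
          intro i hi
          have : β i = k₁ := by rw [hi, hkk]
          simp only [gl, this, dif_pos]
        · have e : ∀ w, u k (gl (fun i => β i = k₁) x w) =
              u k (gl (fun i => β i = k₁) 0 w) := by
            intro w
            apply hud
            intro i hi
            have : ¬ β i = k₁ := by rw [hi]; exact hkk
            simp only [gl, this, dif_neg, not_false_eq_true]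
          rw [e, e]
          exact hu k hk
    unfold GG
    apply ENNReal.rpow_le_rpow _ hr
    apply ENNReal.rpow_le_rpow _ (by positivity)
    gcongr
    exact hpt _
  · intro hcard
    have h3 : Fintype.card {i // β i = 0} = 3 := by
      have h4 := card_block_le β (fun i => β i = k₁) 0
      have h5 := hβ 0
      have h6 : Fintype.card {i : {i // ¬ β i = k₁} // β i = 0} = 3 := hcard
      omega
    obtain ⟨a, ha, haF⟩ := hF0 h3
    refine ⟨a, ha, fun z t ht hz => ?_⟩
    have hpt : ∀ x, F (gl (fun i => β i = k₁) x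
        (dil (fun i : {i // ¬ β i = k₁} => β i) 0 t z)) ≤ K * F (gl (fun i => β i = k₁) x z) := by
      intro x
      rw [← dil_gl hk₁.symm]
      exact haF _ t ht (by rw [nrm_gl hk₁.symm]; exact hz)
    rw [← ENNReal.mul_rpow_of_nonneg _ _ hr]
    apply ENNReal.rpow_le_rpow _ hr
    unfold GG
    calc (s⁻¹ * ∫⁻ x, F (gl (fun i => β i = k₁) x
          (dil (fun i : {i // ¬ β i = k₁} => β i) 0 t z)) ^ n) ^ ((1:ℝ) / n)
        ≤ (s⁻¹ * (K ^ n * ∫⁻ x, F (gl (fun i => β i = k₁) x z) ^ n)) ^ ((1:ℝ) / n) := by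
          apply ENNReal.rpow_le_rpow _ (by positivity)
          gcongr
          rw [← lintegral_const_mul' _ _ (ENNReal.pow_ne_top hKt)]
          apply lintegral_mono
          intro x
          beta_reduce
          rw [← mul_pow]
          exact pow_le_pow_left' (hpt x) n
      _ = (K ^ n * (s⁻¹ * ∫⁻ x, F (gl (fun i => β i = k₁) x z) ^ n)) ^ ((1:ℝ) / n) := by
          congr 1
          ring
      _ = K * (s⁻¹ * ∫⁻ x, F (gl (fun i => β i = k₁) x z) ^ n) ^ ((1:ℝ) / n) := by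
          rw [ENNReal.mul_rpow_of_nonneg _ _ (by positivity), ← ENNReal.rpow_natCast,
            ← ENNReal.rpow_mul, mul_one_div_cancel hn0.ne', ENNReal.rpow_one]

end Pool.Agent.NH22.RS
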