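import Pool.Agent.NH22.RS.O

set_option autoImplicit false

/-!
# The induction step, with an estimate only for the sublevel sets
-/

open MeasureTheory Set Filter Topology ENNReal NNReal Function

namespace Pool.Agent.NH22.RS

open Pool.Agent.H742R2.Kk (E)
open Pool.Agent.TH225.CK

set_option linter.unusedSectionVars false

variable {ι : Type} [Fintype ι]

theorem ind_mono {α : Type*} {R S : Set α} (h : R ⊆ S) (x : α) : ind R x ≤ ind S x := by
  unfold ind
  exact indicator_le_indicator_of_subset h (fun _ => zero_le) x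

theorem step3 {ρ : ℝ} (hρ : 0 < ρ) (p : ι → Prop) [DecidablePred p] {F : (ι → ℝ) → ℝ≥0∞}
    (hF : Measurable F) {u : ({i // p i} → ℝ) → ℝ} (hu : Measurable u)
    (hmono : ∀ x x' z, u x' ≤ u x → F (gl p x z) ≤ F (gl p x' z))
    {d k : ℕ} (hd : 1 ≤ d) (hk : 1 ≤ k) (hcd : Fintype.card {i // p i} = d) {AX AZ : ℝ≥0∞}
    (hX : ∀ s : ℝ≥0∞, ∫⁻ x, NN ρ (ind {x | VV u x < s}) x ^ d ∂(cu _) ≤
      AX * volume {x | VV u x < s})
    (hZ : ∀ s : ℝ≥0∞, s ≠ 0 → s ≠ ∞ →
      ∫⁻ z, NN ρ (fun z => GG p F (d + k) s z ^ (((d + k : ℕ) : ℝ) / k)) z ^ k ∂(cu _) ≤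
        AZ * ∫⁻ z, (GG p F (d + k) s z ^ (((d + k : ℕ) : ℝ) / k)) ^ k)
    {I : ℕ} (hI : 1 ≤ 2 ^ I * (ENNReal.ofReal (2 * ρ)) ^ d) :
    ∫⁻ v, NN ρ F v ^ (d + k) ∂(cu ι) ≤
      ((I + 2 : ℕ) : ℝ≥0∞) ^ (d + k) * ((2 * AX + 2 ^ d) * AZ) * ∫⁻ y, F y ^ (d + k) := by
  set c : ℝ≥0∞ := (ENNReal.ofReal (2 * ρ)) ^ d with hc
  have hc0 : c ≠ 0 := pow_ne_zero _ (by simpa using hρ)
  have hct : c ≠ ∞ := ENNReal.pow_ne_top ENNReal.ofReal_ne_top
  set J : ℝ≥0∞ := ∫⁻ y, F y ^ (d + k) with hJ
  have h20 : ∀ j : ℕ, (2 : ℝ≥0∞) ^ j * c ≠ 0 := fun j => mul_ne_zero (by simp) hc0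
  have h2t : ∀ j : ℕ, (2 : ℝ≥0∞) ^ j * c ≠ ∞ := fun j =>
    ENNReal.mul_ne_top (ENNReal.pow_ne_top (by norm_num)) hct
  set f : ℕ → (ι → ℝ) → ℝ≥0∞ := fun i y => ind (TH225.CK.PP u c I i) (rp p y) * F y with hf
  have hfm : ∀ i, Measurable (f i) := fun i =>
    ((measurable_ind (TH225.CK.measurableSet_PP hu c I i)).comp (measurable_rp p)).mul hF
  have hle : ∀ y, F y ≤ ∑ i ∈ Finset.range (I + 2), f i y := by
    intro y
    obtain ⟨i, hi, hyi⟩ := TH225.CK.PP_cover u c I (rp p y)
    calc F y = f i y := by simp [hf, ind, hyi]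
      _ ≤ _ := Finset.single_le_sum (f := fun i => f i y) (fun _ _ => zero_le) hi
  -- the bound for one piece
  have hpc : ∀ i ∈ Finset.range (I + 2), ∫⁻ v, NN ρ (f i) v ^ (d + k) ∂(cu ι) ≤
      (2 * AX + 2 ^ d) * AZ * J := by
    intro i hi
    rw [Finset.mem_range] at hi
    have hPm := TH225.CK.measurableSet_PP hu c I i
    rcases Nat.eq_zero_or_pos i with h0 | h0
    · -- the core
      have h1 := piece_int hρ p hF hPm (measurable_GG p hF (d + k) c) hd hk
        (θ := (((d + k : ℕ) : ℝ) - 1) / ((d + k : ℕ) : ℝ)) (by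
          have hk1 : (1 : ℝ) ≤ k := by exact_mod_cast hk
          have hd1 : (1 : ℝ) ≤ d := by exact_mod_cast hd
          apply div_le_div_of_nonneg_right _ (by positivity)
          push_cast
          linarith) (fun c' z => by
            have := fib_core p hF hρ hPm (n := d + k) (by omega) c' z
            rw [hcd] at this
            exact this)
      refine h1.trans ?_
      have h2 : ∫⁻ x, NN ρ (ind (TH225.CK.PP u c I i)) x ^ d ∂(cu {i // p i}) ≤
          AX * volume {x | VV u x < c} := by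
        refine le_trans (lintegral_mono fun x => ?_) (hX c)
        refine pow_le_pow_left' (NN_mono (ind_mono ?_) x) d
        intro x hx
        have := hx.2 (by omega)
        rw [h0] at this
        simpa using this
      have h3 := hZ c hc0 hct
      rw [lintegral_GG p hF hk] at h3
      have hv : volume {x | VV u x < c} ≤ c := volume_VV_lt c
      calc _ ≤ (AX * c) * (AZ * (c⁻¹ * J)) := by
            refine mul_le_mul' (h2.trans ?_) h3
            gcongr
        _ = AX * AZ * J * (c * c⁻¹) := by ring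
        _ = AX * AZ * J := by rw [ENNReal.mul_inv_cancel hc0 hct, mul_one]
        _ ≤ _ := by
            gcongr
            calc AX ≤ 2 * AX := by
                  rw [two_mul]; exact le_self_add
              _ ≤ _ := le_self_add
    · -- the outer pieces
      set s : ℝ≥0∞ := 2 ^ (i - 1) * c with hs
      have hs0 : s ≠ 0 := h20 _
      have hst : s ≠ ∞ := h2t _
      have h1 := piece_int hρ p hF hPm (measurable_GG p hF (d + k) s) hd hk
        (θ := 1) (by
          rw [div_le_one (by exact_mod_cast (by omega : 0 < d + k))]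
          push_cast
          have : (0 : ℝ) ≤ k := by positivity
          linarith)
        (fib_outer p hPm (fun x hx z => le_GG p hu hmono (by omega) hs0 hst
          (hx.1 (by omega)) z))
      refine h1.trans ?_
      have h3 := hZ s hs0 hst
      rw [lintegral_GG p hF hk] at h3
      rcases Nat.lt_or_ge I i with hi2 | hi2
      · -- the last piece
        have hi3 : i = I + 1 := by omega
        have h2 : ∫⁻ x, NN ρ (ind (TH225.CK.PP u c I i)) x ^ d ∂(cu {i // p i}) ≤ 2 ^ d := by
          calc ∫⁻ x, NN ρ (ind (TH225.CK.PP u c I i)) x ^ d ∂(cu {i // p i})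
              ≤ ∫⁻ _, 1 ∂(cu {i // p i}) := by
                apply lintegral_mono
                intro x
                exact pow_le_one₀ zero_le (NN_ind_le_one hρ _ _)
            _ = 2 ^ d := by rw [lintegral_one, cu_univ, hcd]
        have hs1 : s⁻¹ ≤ 1 := by
          rw [ENNReal.inv_le_one, hs, hi3]
          simpa using hI
        calc _ ≤ 2 ^ d * (AZ * (1 * J)) := by
              refine mul_le_mul' h2 (h3.trans ?_)
              gcongr
          _ = 2 ^ d * AZ * J := by ring
          _ ≤ _ := by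
              gcongr
              exact le_add_self
      · have h2 : ∫⁻ x, NN ρ (ind (TH225.CK.PP u c I i)) x ^ d ∂(cu {i // p i}) ≤
            AX * volume {x | VV u x < 2 ^ i * c} := by
          refine le_trans (lintegral_mono fun x => ?_) (hX (2 ^ i * c))
          exact pow_le_pow_left' (NN_mono (ind_mono fun x hx => hx.2 hi2) x) d
        have hv : volume {x | VV u x < 2 ^ i * c} ≤ 2 * s := by
          calc volume {x | VV u x < 2 ^ i * c} ≤ 2 ^ i * c := volume_VV_lt _
            _ = 2 * s := by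
                rw [hs, ← mul_assoc, ← pow_succ']
                congr 2
                omega
        calc _ ≤ (AX * (2 * s)) * (AZ * (s⁻¹ * J)) := by
              refine mul_le_mul' (h2.trans ?_) h3
              gcongr
          _ = 2 * AX * AZ * J * (s * s⁻¹) := by ring
          _ = 2 * AX * AZ * J := by rw [ENNReal.mul_inv_cancel hs0 hst, mul_one]
          _ ≤ _ := by
              gcongr
              exact le_self_add
  -- summation
  have hpt : ∀ v, NN ρ F v ^ (d + k) ≤ ((I + 2 : ℕ) : ℝ≥0∞) ^ (d + k - 1) *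
      ∑ i ∈ Finset.range (I + 2), NN ρ (f i) v ^ (d + k) := by
    intro v
    calc NN ρ F v ^ (d + k) ≤ (∑ i ∈ Finset.range (I + 2), NN ρ (f i) v) ^ (d + k) := by
          gcongr
          exact (NN_mono hle v).trans (NN_sum hρ _ (fun j _ => hfm j) v)
      _ ≤ ((Finset.range (I + 2)).card : ℝ≥0∞) ^ (d + k - 1) *
          ∑ i ∈ Finset.range (I + 2), NN ρ (f i) v ^ (d + k) :=
          Pool.Agent.W767.Kc.sum_pow_le _ _ (by omega)
      _ = _ := by rw [Finset.card_range]
  calc ∫⁻ v, NN ρ F v ^ (d + k) ∂(cu ι)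
      ≤ ∫⁻ v, ((I + 2 : ℕ) : ℝ≥0∞) ^ (d + k - 1) *
          ∑ i ∈ Finset.range (I + 2), NN ρ (f i) v ^ (d + k) ∂(cu ι) := lintegral_mono hpt
    _ = ((I + 2 : ℕ) : ℝ≥0∞) ^ (d + k - 1) *
          ∑ i ∈ Finset.range (I + 2), ∫⁻ v, NN ρ (f i) v ^ (d + k) ∂(cu ι) := by
        rw [lintegral_const_mul, lintegral_finsetSum]
        · intro i _
          exact (measurable_NN hρ (hfm i)).pow_const _
        · exact Finset.measurable_sum _ fun i _ => (measurable_NN hρ (hfm i)).pow_const _
    _ ≤ ((I + 2 : ℕ) : ℝ≥0∞) ^ (d + k - 1) *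
          ∑ i ∈ Finset.range (I + 2), (2 * AX + 2 ^ d) * AZ * J := by
        gcongr with i hi
        exact hpc i hi
    _ = _ := by
        rw [Finset.sum_const, Finset.card_range, nsmul_eq_mul]
        have e : d + k = (d + k - 1) + 1 := by omega
        conv_rhs => rw [e, pow_succ]
        ring

end Pool.Agent.NH22.RS
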