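import Pool.Agent.NH22.RS.P

set_option autoImplicit false

/-!
# The maximal estimate for the class with blocks of at most three coordinates
-/

open MeasureTheory Set Filter Topology ENNReal NNReal Function

namespace Pool.Agent.NH22.RS

open Pool.Agent.H742R2.Kk (E)
open Pool.Agent.TH225.CK

set_option linter.unusedSectionVars false

theorem VV_mono {α : Type*} [MeasureSpace α] {u : α → ℝ} {x y : α} (h : u x ≤ u y) :
    VV u x ≤ VV u y := measure_mono fun _ hz => le_trans hz h

/-- Blocks of at most three coordinates. -/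
theorem one_block : ∃ C : ℝ, 0 < C ∧ ∀ (κ : Type) [Fintype κ] (ρ : ℝ), 0 < ρ → ρ ≤ 1 →
    ∀ (G : (κ → ℝ) → ℝ≥0∞) (d : ℕ), 1 ≤ d → d ≤ 3 → Fintype.card κ = d → Measurable G →
    ∀ K : ℝ≥0∞, 1 ≤ K → (d = 3 → ∃ (ε : κ ≃ Fin 3) (a : ℝ → ℝ), Measurable a ∧
      CoR K a (fun y => G (Ph3 ε y))) →
    ∫⁻ v, NN ρ G v ^ d ∂(cu κ) ≤
      ENNReal.ofReal (C * (1 + Real.log (1 / ρ)) ^ 11) * K ^ d * ∫⁻ y, G y ^ d := by
  obtain ⟨C2, hC2, h2⟩ := base_two
  obtain ⟨C3, hC3, h3⟩ := base_three
  refine ⟨2 + C2 + C3, by positivity, ?_⟩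
  intro κ _ ρ hρ hρ1 G d hd1 hd3 hκ hG K hK hCo
  have hlog : 0 ≤ Real.log (1 / ρ) := Real.log_nonneg (by rw [le_div_iff₀ hρ]; linarith)
  set L := 1 + Real.log (1 / ρ) with hL
  have hL1 : 1 ≤ L := by linarith
  have hL11 : L ^ 2 ≤ L ^ 11 := pow_le_pow_right₀ hL1 (by norm_num)
  have hL1' : L ≤ L ^ 11 := by
    calc L = L ^ 1 := (pow_one L).symm
      _ ≤ _ := pow_le_pow_right₀ hL1 (by norm_num)
  have hL0 : 0 ≤ L ^ 11 := by positivity
  have hd : d = 1 ∨ d = 2 ∨ d = 3 := by omega
  rcases hd with rfl | rfl | rfl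
  · refine (base_one hκ hρ hρ1 hG).trans ?_
    gcongr ?_ * _
    have hK1 : (1:ℝ≥0∞) ≤ K ^ 1 := one_le_pow_of_one_le' hK 1
    refine le_trans ?_ (le_mul_of_one_le_right zero_le hK1)
    apply ENNReal.ofReal_le_ofReal
    rw [← hL]
    nlinarith [mul_nonneg hC2.le hL0, mul_nonneg hC3.le hL0]
  · refine (h2 κ hκ ρ hρ hρ1 G hG).trans ?_
    gcongr ?_ * _
    have hK1 : (1:ℝ≥0∞) ≤ K ^ 2 := one_le_pow_of_one_le' hK 2
    refine le_trans ?_ (le_mul_of_one_le_right zero_le hK1)
    apply ENNReal.ofReal_le_ofReal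
    rw [← hL]
    gcongr
    linarith
  · obtain ⟨ε, a, ha, hCoR⟩ := hCo rfl
    refine (h3 κ ε ρ hρ hρ1 G hG a ha K hK hCoR).trans ?_
    rw [← hL]
    gcongr
    linarith

theorem main_ind3 (N : ℕ) : ∃ (C : ℝ) (c : ℕ), 0 < C ∧ ∀ m : ℕ, 1 ≤ m → m ≤ N →
    ∀ (ι : Type) [Fintype ι], Fintype.card ι = m → ∀ β : ι → ℕ,
    (∀ k, Fintype.card {i // β i = k} ≤ 3) → ∀ ρ : ℝ, 0 < ρ → ρ ≤ 1 →
    ∀ F : (ι → ℝ) → ℝ≥0∞, Measurable F → ∀ K : ℝ≥0∞, 1 ≤ K → K ≠ ∞ → CoM3 β K F →
    ∫⁻ v, NN ρ F v ^ m ∂(cu ι) ≤
      ENNReal.ofReal (C * (1 + Real.log (1 / ρ)) ^ c) * K ^ m * ∫⁻ y, F y ^ m := by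
  obtain ⟨D, hD, hone⟩ := one_block
  induction N with
  | zero => exact ⟨1, 0, one_pos, fun m h1 h2 => by omega⟩
  | succ N ih =>
    obtain ⟨C, c, hC, hIH⟩ := ih
    refine ⟨C + 9 ^ (N + 1) * ((2 * D + 8) * C) + D, N + 1 + 11 + c, by positivity, ?_⟩
    intro m hm1 hmN ι _ hcard β hβ ρ hρ hρ1 F hF K hK hKt hCo
    have hlog : 0 ≤ Real.log (1 / ρ) := Real.log_nonneg (by rw [le_div_iff₀ hρ]; linarith)
    set L := 1 + Real.log (1 / ρ) with hL
    have hL1 : 1 ≤ L := by linarith
    rcases Nat.lt_or_ge m (N + 1) with hlt | hge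
    · refine (hIH m hm1 (by omega) ι hcard β hβ ρ hρ hρ1 F hF K hK hKt hCo).trans ?_
      rw [← hL]
      gcongr ?_ * _ * _
      apply ENNReal.ofReal_le_ofReal
      have h3 : L ^ c ≤ L ^ (N + 1 + 11 + c) := pow_le_pow_right₀ hL1 (by omega)
      have h4 : 0 ≤ 9 ^ (N + 1) * ((2 * D + 8) * C) := by positivity
      gcongr
      linarith
    have hmN' : m = N + 1 := le_antisymm hmN hge
    by_cases hblock : ∃ i₁ : ι, β i₁ ≠ 0 ∧ ∃ i₂ : ι, β i₂ ≠ β i₁
    · obtain ⟨i₁, hi₁, i₂, hi₂⟩ := hblock
      set k₁ := β i₁ with hk₁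
      set p : ι → Prop := fun i => β i = k₁ with hp
      set d := Fintype.card {i // p i} with hd
      set k := Fintype.card {i // ¬ p i} with hk
      have hd1 : 1 ≤ d := Fintype.card_pos_iff.2 ⟨⟨i₁, rfl⟩⟩
      have hk1 : 1 ≤ k := Fintype.card_pos_iff.2 ⟨⟨i₂, hi₂⟩⟩
      have hd2 : d ≤ 3 := hβ k₁
      have hdk : d + k = m := by
        rw [← hcard, ← Fintype.card_congr (Equiv.sumCompl p), Fintype.card_sum]
      have hk0 : (0 : ℝ) < k := by exact_mod_cast hk1
      obtain ⟨u, hum, hud, hray, hFu, hF0⟩ := id hCo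
      obtain ⟨I0, hI0, hI0'⟩ := Pool.Agent.W767.Sd.exists_I0 hρ hρ1
      have hu1m : Measurable (fun x : {i // p i} → ℝ => u k₁ (gl p x 0)) := (hum k₁).comp
          ((measurable_gl p).comp (measurable_id.prodMk measurable_const))
      set r : ℝ := ((d + k : ℕ) : ℝ) / k with hr
      have hr0 : 0 ≤ r := by positivity
      have hKr : (K ^ r) ^ k = K ^ m := by
        rw [← ENNReal.rpow_natCast (K ^ r), ← ENNReal.rpow_mul, hr, div_mul_cancel₀ _ hk0.ne', hdk,
          ENNReal.rpow_natCast]
      have hKr1 : (1 : ℝ≥0∞) ≤ K ^ r := ENNReal.one_le_rpow hK (by positivity)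
      have hKrt : K ^ r ≠ ∞ := ENNReal.rpow_ne_top_of_nonneg hr0 hKt
      have hstep := step3 (AX := ENNReal.ofReal (D * L ^ 11))
        (AZ := ENNReal.ofReal (C * L ^ c) * K ^ m) hρ p hF
        (u := fun x => u k₁ (gl p x 0)) hu1m
        (by
          intro x x' z hxx
          apply hFu
          · intro i hi
            have : ¬ p i := by simp only [hp]; rw [hi]; exact fun h => hi₁ h.symm
            simp only [gl, this, dif_neg, not_false_eq_true]
          · intro k' hk'
            by_cases hkk : k' = k₁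
            · subst hkk
              have e : ∀ w, u k₁ (gl p w z) = u k₁ (gl p w 0) := by
                intro w
                apply hud
                intro i hi
                have : p i := hi
                simp only [gl, this, dif_pos]
              rw [e, e]
              exact hxx
            · apply le_of_eq
              apply hud
              intro i hi
              have : ¬ p i := by simp only [hp]; rw [hi]; exact hkk
              simp only [gl, this, dif_neg, not_false_eq_true])
        hd1 hk1 rfl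
        (by
          intro s
          have hRm : MeasurableSet {x : {i // p i} → ℝ |
              VV (fun x => u k₁ (gl p x 0)) x < s} :=
            measurableSet_lt (measurable_VV hu1m) measurable_const
          refine (hone _ ρ hρ hρ1 (ind {x : {i // p i} → ℝ |
              VV (fun x => u k₁ (gl p x 0)) x < s}) d hd1 hd2 rfl (measurable_ind hRm) 1 le_rfl
              ?_).trans ?_
          · intro hd3
            obtain ⟨b, hb, hbu⟩ := hray k₁ hi₁ hd3
            refine ⟨Fintype.equivFinOfCardEq hd3, fun s => - b s, hb.neg, ?_⟩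
            intro x t ht hx
            have h5 := hbu (gl p (Ph3 (Fintype.equivFinOfCardEq hd3) x) 0) t ht (by
              rw [nrm_glPh3]
              linarith)
            rw [dil_glPh3] at h5
            rw [one_mul]
            beta_reduce
            by_cases hm : Ph3 (Fintype.equivFinOfCardEq hd3) (t • x) ∈
                {x : {i // p i} → ℝ | VV (fun x => u k₁ (gl p x 0)) x < s}
            · have hm2 : Ph3 (Fintype.equivFinOfCardEq hd3) x ∈
                  {x : {i // p i} → ℝ | VV (fun x => u k₁ (gl p x 0)) x < s} :=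
                lt_of_le_of_lt (VV_mono (u := fun x => u k₁ (gl p x 0)) h5) hm
              simp only [ind]
              rw [indicator_of_mem hm, indicator_of_mem hm2]
            · simp only [ind]
              rw [indicator_of_notMem hm]
              exact zero_le
          · rw [one_pow, mul_one]
            refine mul_le_mul' le_rfl (le_of_eq ?_)
            have : ∀ y, ind {x : {i // p i} → ℝ | VV (fun x => u k₁ (gl p x 0)) x < s} y ^ d =
                ind {x : {i // p i} → ℝ | VV (fun x => u k₁ (gl p x 0)) x < s} y := by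
              intro y
              unfold ind
              by_cases hy : y ∈ {x : {i // p i} → ℝ | VV (fun x => u k₁ (gl p x 0)) x < s}
              · rw [indicator_of_mem hy, one_pow]
              · rw [indicator_of_notMem hy, zero_pow (by omega)]
            simp only [this]
            unfold ind
            rw [lintegral_indicator_const hRm, one_mul])
        (by
          intro s hs0 hst
          have h6 := hIH k hk1 (by omega) _ rfl _
            (fun k' => (card_block_le β p k').trans (hβ k')) ρ hρ hρ1 _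
            ((measurable_GG p hF (d + k) s).pow_const _) (K ^ r) hKr1 hKrt
            (coM3_GG hKt hβ hCo hi₁ (n := d + k) (s := s) (by omega) hr0)
          rw [hKr] at h6
          exact h6)
        (I := 3 * I0)
        (by
          have h3 : (1 : ℝ) ≤ 2 ^ (3 * I0) * (2 * ρ) ^ d := by
            have hx : 1 ≤ 2 ^ I0 * (2 * ρ) := by linarith
            have h1 : (1 : ℝ) ≤ (2 ^ I0 * (2 * ρ)) ^ d := one_le_pow₀ hx
            have h2 : ((2 : ℝ) ^ I0) ^ d ≤ 2 ^ (3 * I0) := by
              rw [← pow_mul]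
              apply pow_le_pow_right₀ (by norm_num)
              rw [mul_comm]
              exact Nat.mul_le_mul_right _ hd2
            calc (1 : ℝ) ≤ (2 ^ I0 * (2 * ρ)) ^ d := h1
              _ = (2 ^ I0) ^ d * (2 * ρ) ^ d := mul_pow _ _ _
              _ ≤ _ := by gcongr
          have h4 : ENNReal.ofReal (2 ^ (3 * I0) * (2 * ρ) ^ d) =
              2 ^ (3 * I0) * (ENNReal.ofReal (2 * ρ)) ^ d := by
            rw [ENNReal.ofReal_mul (by positivity), ENNReal.ofReal_pow (by norm_num),
              ENNReal.ofReal_pow (by positivity), ENNReal.ofReal_ofNat]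
          rw [← h4, ← ENNReal.ofReal_one]
          exact ENNReal.ofReal_le_ofReal h3)
      rw [hdk] at hstep
      refine hstep.trans ?_
      gcongr ?_ * _
      have e1 : ((3 * I0 + 2 : ℕ) : ℝ≥0∞) ≤ ENNReal.ofReal (9 * L) := by
        rw [← ENNReal.ofReal_natCast]
        apply ENNReal.ofReal_le_ofReal
        push_cast at hI0' ⊢
        have : (0:ℝ) ≤ I0 := by positivity
        linarith
      have hL11 : (1:ℝ) ≤ L ^ 11 := one_le_pow₀ hL1
      have e2 : (2 : ℝ≥0∞) * ENNReal.ofReal (D * L ^ 11) + 2 ^ d ≤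
          ENNReal.ofReal ((2 * D + 8) * L ^ 11) := by
        have e3 : (2 : ℝ≥0∞) ^ d ≤ ENNReal.ofReal (8 * L ^ 11) := by
          calc (2 : ℝ≥0∞) ^ d ≤ 2 ^ 3 := pow_le_pow_right₀ (by norm_num) hd2
            _ = ENNReal.ofReal 8 := by rw [ENNReal.ofReal_ofNat]; norm_num
            _ ≤ _ := by
              apply ENNReal.ofReal_le_ofReal
              linarith
        calc (2 : ℝ≥0∞) * ENNReal.ofReal (D * L ^ 11) + 2 ^ d
            ≤ ENNReal.ofReal (2 * (D * L ^ 11)) + ENNReal.ofReal (8 * L ^ 11) := by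
              rw [ENNReal.ofReal_mul (by norm_num : (0:ℝ) ≤ 2), ENNReal.ofReal_ofNat]
              gcongr
          _ = _ := by
              rw [← ENNReal.ofReal_add (by positivity) (by positivity)]
              congr 1
              ring
      calc ((3 * I0 + 2 : ℕ) : ℝ≥0∞) ^ m *
            ((2 * ENNReal.ofReal (D * L ^ 11) + 2 ^ d) * (ENNReal.ofReal (C * L ^ c) * K ^ m))
          ≤ ENNReal.ofReal (9 * L) ^ m * (ENNReal.ofReal ((2 * D + 8) * L ^ 11) *
            (ENNReal.ofReal (C * L ^ c) * K ^ m)) := by gcongr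
        _ = ENNReal.ofReal (9 ^ m * ((2 * D + 8) * C) * L ^ (m + 11 + c)) * K ^ m := by
            rw [← mul_assoc (ENNReal.ofReal ((2 * D + 8) * L ^ 11)), ← mul_assoc,
              ← ENNReal.ofReal_pow (by positivity), ← ENNReal.ofReal_mul (by positivity),
              ← ENNReal.ofReal_mul (by positivity)]
            congr 2
            ring
        _ ≤ _ := by
            gcongr ?_ * _
            apply ENNReal.ofReal_le_ofReal
            rw [hmN']
            gcongr
            linarith
    · push Not at hblock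
      obtain ⟨u, hum, hud, hray, hFu, hF0⟩ := id hCo
      have hfin : m ≤ 3 ∧ (m = 3 → ∃ (ε : ι ≃ Fin 3) (a : ℝ → ℝ), Measurable a ∧
          CoR K a (fun y => F (Ph3 ε y))) := by
        by_cases hne : ∃ i₁ : ι, β i₁ ≠ 0
        · obtain ⟨i₁, hi₁⟩ := hne
          have hall : ∀ i, β i = β i₁ := hblock i₁ hi₁
          have hce : Fintype.card {i // β i = β i₁} = m := by
            rw [Fintype.card_congr (Equiv.subtypeUnivEquiv hall), hcard]
          refine ⟨?_, fun h3 => ?_⟩
          · rw [← hce]; exact hβ (β i₁)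
          · obtain ⟨b, hb, hbu⟩ := hray (β i₁) hi₁ (hce.trans h3)
            have hc3 : Fintype.card ι = 3 := hcard.trans h3
            refine ⟨Fintype.equivFinOfCardEq hc3, fun s => - b s, hb.neg, ?_⟩
            intro x t ht hx
            have h5 := hbu (Ph3 (Fintype.equivFinOfCardEq hc3) x) t ht (by
              rw [nrm_Ph3 hall]
              linarith)
            rw [dil_Ph3 hall] at h5
            refine le_trans (hFu _ (Ph3 (Fintype.equivFinOfCardEq hc3) x) ?_ ?_)
              (le_mul_of_one_le_left zero_le hK)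
            · intro i hi
              exact absurd ((hall i).symm.trans hi) hi₁
            · intro k hk
              by_cases hkk : k = β i₁
              · rw [hkk]; exact h5
              · apply le_of_eq
                apply hud
                intro i hi
                exact absurd (hi.symm.trans (hall i)) hkk
        · push Not at hne
          have hce : Fintype.card {i // β i = 0} = m := by
            rw [Fintype.card_congr (Equiv.subtypeUnivEquiv hne), hcard]
          refine ⟨?_, fun h3 => ?_⟩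
          · rw [← hce]; exact hβ 0
          · obtain ⟨a, ha, haF⟩ := hF0 (hce.trans h3)
            have hc3 : Fintype.card ι = 3 := hcard.trans h3
            refine ⟨Fintype.equivFinOfCardEq hc3, a, ha, ?_⟩
            intro x t ht hx
            have h5 := haF (Ph3 (Fintype.equivFinOfCardEq hc3) x) t ht (by
              rw [nrm_Ph3 hne]
              exact hx)
            rw [dil_Ph3 hne] at h5
            exact h5
      refine (hone ι ρ hρ hρ1 F m hm1 hfin.1 hcard hF K hK hfin.2).trans ?_
      gcongr ?_ * _ * _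
      apply ENNReal.ofReal_le_ofReal
      have h3 : L ^ 11 ≤ L ^ (N + 1 + 11 + c) := pow_le_pow_right₀ hL1 (by omega)
      have h4 : 0 ≤ 9 ^ (N + 1) * ((2 * D + 8) * C) := by positivity
      gcongr
      linarith

end Pool.Agent.NH22.RS
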